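import Mathlib

namespace Pool.Agent.Work.MP_8ddad6_co

/-- A unit-step path: `f 0 = 0` and every step is `0` or `1`. -/
structure UPath (f : ℕ → ℕ) : Prop where
  zero : f 0 = 0
  mono : ∀ k, f k ≤ f (k + 1)
  lip : ∀ k, f (k + 1) ≤ f k + 1

theorem UPath.le_of_le {f : ℕ → ℕ} (h : UPath f) {k l : ℕ} (hkl : k ≤ l) : f k ≤ f l :=
  monotone_nat_of_le_succ h.mono hkl

theorem UPath.lip_of_le {f : ℕ → ℕ} (h : UPath f) {k l : ℕ} (hkl : k ≤ l) :
    f l + k ≤ f k + l := by
  induction l, hkl using Nat.le_induction with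
  | base => exact le_rfl
  | succ l hl ih =>
    have := h.lip l
    omega

theorem UPath.le_self {f : ℕ → ℕ} (h : UPath f) (k : ℕ) : f k ≤ k := by
  have := h.lip_of_le (Nat.zero_le k)
  have := h.zero
  omega

/-- All pairwise facts in one bundle. -/
theorem UPath.rel {f : ℕ → ℕ} (h : UPath f) (k l : ℕ) :
    (k ≤ l → f k ≤ f l ∧ f l + k ≤ f k + l) ∧ (l ≤ k → f l ≤ f k ∧ f k + l ≤ f l + k) :=
  ⟨fun hkl => ⟨h.le_of_le hkl, h.lip_of_le hkl⟩, fun hkl => ⟨h.le_of_le hkl, h.lip_of_le hkl⟩⟩

/-- `i` is active for `f`: letter `i` is a one, letter `i+1` is a zero. -/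
def Act (f : ℕ → ℕ) (i : ℕ) : Prop := 0 < i ∧ f (i - 1) < f i ∧ f (i + 1) = f i

theorem Act.lt {f : ℕ → ℕ} (hf : UPath f) {i : ℕ} (h : Act f i) {k : ℕ} (hk : k < i) :
    f k < f i :=
  lt_of_le_of_lt (hf.le_of_le (by omega)) h.2.1

theorem Act.gt {f : ℕ → ℕ} (hf : UPath f) {i : ℕ} (h : Act f i) {k : ℕ} (hk : i < k) :
    f k + i < f i + k := by
  have h1 := hf.lip_of_le (show i + 1 ≤ k by omega)
  have h2 := h.2.2
  omega

theorem Act.pos {f : ℕ → ℕ} {i : ℕ} (h : Act f i) : 0 < f i :=
  lt_of_le_of_lt (Nat.zero_le _) h.2.1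

/-- All facts about an active coordinate relative to a point. -/
theorem Act.rel {f : ℕ → ℕ} (hf : UPath f) {i : ℕ} (h : Act f i) (k : ℕ) :
    0 < f i ∧ (k < i → f k < f i) ∧ (i < k → f k + i < f i + k) :=
  ⟨h.pos, fun hk => h.lt hf hk, fun hk => h.gt hf hk⟩

/-- If `σ` fails `f` at `k`, it fails `f` at an active coordinate adjacent to `k`. -/
theorem exists_act {f σ : ℕ → ℕ} (hf : UPath f) (hc : ∃ n, ∀ k, n ≤ k → f k = f n)
    (hσ : UPath σ) {k : ℕ} (h : σ k < f k) :
    ∃ i, Act f i ∧ σ i < f i ∧ ((i ≤ k ∧ f i = f k) ∨ (k ≤ i ∧ f i + k = f k + i)) := by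
  classical
  by_cases h1 : f (k + 1) = f k
  · -- go left
    have hex : ∃ i, f i = f k := ⟨k, rfl⟩
    set i := Nat.find hex with hi
    have hfi : f i = f k := Nat.find_spec hex
    have hik : i ≤ k := Nat.find_min' hex rfl
    have hi0 : 0 < i := by
      rcases Nat.eq_zero_or_pos i with h0 | h0
      · exfalso
        rw [h0, hf.zero] at hfi
        omega
      · exact h0
    have hm : f (i - 1) ≠ f k := Nat.find_min hex (show i - 1 < i by omega)
    have hle : f (i - 1) ≤ f i := hf.le_of_le (by omega)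
    refine ⟨i, ⟨hi0, by omega, ?_⟩, ?_, Or.inl ⟨hik, hfi⟩⟩
    · rcases Nat.lt_or_ge i k with hlt | hge
      · have := hf.le_of_le (show i + 1 ≤ k by omega)
        have := hf.mono i
        omega
      · have : i = k := by omega
        rw [this]
        exact h1
    · have := hσ.le_of_le hik
      omega
  · -- go right
    obtain ⟨n, hn⟩ := hc
    have h1' : f (k + 1) = f k + 1 := by
      have := hf.mono k
      have := hf.lip k
      omega
    have hex : ∃ m, f (k + m) ≠ f k + m := by
      refine ⟨n + 1, ?_⟩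
      have e1 := hn (k + (n + 1)) (by omega)
      intro e2
      have h3 := hf.le_self n
      have h4 : f (k + n) = f n := hn _ (by omega)
      have h5 := hf.lip_of_le (show k ≤ k + n by omega)
      omega
    set m := Nat.find hex with hm
    have hspec : f (k + m) ≠ f k + m := Nat.find_spec hex
    have hmin : ∀ m', m' < m → f (k + m') = f k + m' := by
      intro m' hm'
      by_contra hcon
      exact Nat.find_min hex hm' hcon
    have hm2 : 2 ≤ m := by
      rcases Nat.lt_or_ge m 2 with hlt | hge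
      · exfalso
        interval_cases m
        · exact hspec (by simp)
        · exact hspec h1'
      · exact hge
    have e1 := hmin (m - 1) (by omega)
    have e2 := hmin (m - 2) (by omega)
    refine ⟨k + (m - 1), ⟨by omega, ?_, ?_⟩, ?_, Or.inr ⟨by omega, by omega⟩⟩
    · have : k + (m - 1) - 1 = k + (m - 2) := by omega
      rw [this]
      omega
    · have e3 : k + (m - 1) + 1 = k + m := by omega
      rw [e3]
      have := hf.lip (k + (m - 1))
      have := hf.mono (k + (m - 1))
      rw [e3] at *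
      omega
    · have := hσ.lip_of_le (show k ≤ k + (m - 1) by omega)
      omega

/-- Largest path with value at most `c` at `i`. -/
def Mx (i c k : ℕ) : ℕ := min k (c + (k - i))

theorem uPath_Mx (i c : ℕ) : UPath (Mx i c) := by
  refine ⟨?_, ?_, ?_⟩
  · simp [Mx]
  · intro k; simp only [Mx]; omega
  · intro k; simp only [Mx]; omega

theorem uPath_min {f g : ℕ → ℕ} (hf : UPath f) (hg : UPath g) : UPath (fun k => min (f k) (g k)) := by
  refine ⟨?_, ?_, ?_⟩
  · simp [hf.zero]
  · intro k
    have := hf.mono k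
    have := hg.mono k
    show min (f k) (g k) ≤ min (f (k+1)) (g (k+1))
    omega
  · intro k
    have := hf.lip k
    have := hg.lip k
    show min (f (k+1)) (g (k+1)) ≤ min (f k) (g k) + 1
    omega

theorem UPath.le_Mx {f : ℕ → ℕ} (hf : UPath f) {i c : ℕ} (h : f i ≤ c) (k : ℕ) : f k ≤ Mx i c k := by
  have h1 := hf.rel i k
  have h2 := hf.le_self k
  simp only [Mx]
  omega

/-- A path is losing if it fails both `α` and `β`. -/
def Lose (α β σ : ℕ → ℕ) : Prop := (∃ k, σ k < α k) ∧ ∃ k, σ k < β k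

/-- The `T`-centred situation, without 2- and 3-certificates. -/
structure Ctr (α β : ℕ → ℕ) (T : ℕ) : Prop where
  pa : UPath α
  pb : UPath β
  ca : ∃ n, ∀ k, n ≤ k → α k = α n
  cb : ∃ n, ∀ k, n ≤ k → β k = β n
  actT : Act β T
  DT : β T = α T + 1
  hJ : ∀ j, Act β j → j ≠ T → β j ≤ α j
  hE : ∃ k, β k < α k
  no2 : ∀ σ τ : ℕ → ℕ, UPath σ → UPath τ → Lose α β σ → Lose α β τ → ∀ P Q, P + Q = 2 →
    ∃ k, σ k + τ k < P * α k + Q * β k
  no3 : ∀ σ τ υ : ℕ → ℕ, UPath σ → UPath τ → UPath υ → Lose α β σ → Lose α β τ → Lose α β υ →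
    ∀ P Q, P + Q = 3 → ∃ k, σ k + τ k + υ k < P * α k + Q * β k

/-- vertices of the support digraph -/
inductive V : Type
  | a (i : ℕ) : V
  | b (j : ℕ) : V
  | t (e : ℕ) : V
  | u (z : ℕ) : V

/-- the path of a vertex -/
def pth (α β : ℕ → ℕ) (T : ℕ) : V → ℕ → ℕ
  | .a i, k => min (Mx i (α i - 1) k) (Mx T (α T) k)
  | .b j, k => Mx j (β j - 1) k
  | .t e, k => min (Mx e (α e - 1) k) (Mx T (α T) k)
  | .u z, k => Mx z (α z - 1) k

/-- the base of a vertex -/
def bs (α β : ℕ → ℕ) : V → ℕ → ℕ
  | .a _, k => α k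
  | .b _, k => β k
  | .t _, k => β k
  | .u _, k => α k

/-- violated coordinate -/
def crd (T : ℕ) : V → ℕ
  | .a i => i
  | .b j => j
  | .t _ => T
  | .u z => z

/-- validity of a vertex -/
def Val (α β : ℕ → ℕ) (T : ℕ) : V → Prop
  | .a i => Act α i
  | .b j => Act β j ∧ j ≠ T
  | .t e => Act α e ∧ β e < α e
  | .u z => Act α z ∧ α z = β z

/-- `x` is high at `k` -/
def Hi (α β : ℕ → ℕ) (T : ℕ) (x : V) (k : ℕ) : Prop := bs α β x k < pth α β T x k

section
variable {α β : ℕ → ℕ} {T : ℕ}

theorem uPath_pth (x : V) : UPath (pth α β T x) := by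
  cases x with
  | a i => exact uPath_min (uPath_Mx _ _) (uPath_Mx _ _)
  | b j => exact uPath_Mx _ _
  | t e => exact uPath_min (uPath_Mx _ _) (uPath_Mx _ _)
  | u z => exact uPath_Mx _ _

/-- active coordinates of `α` other than `T` have `β ≤ α`. -/
theorem Ctr.hI (C : Ctr α β T) {i : ℕ} (hi : Act α i) (hT : i ≠ T) : β i ≤ α i := by
  by_contra hcon
  push Not at hcon
  obtain ⟨j, hj, hlt, hadj⟩ := exists_act C.pb C.cb C.pa hcon
  have hjT : j = T := by
    by_contra hne
    have := C.hJ j hj hne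
    omega
  subst hjT
  have h1 := C.DT
  have h2 := hi.rel C.pa j
  have h3 := C.pa.rel i j
  have h4 := C.pb.rel i j
  omega

theorem Ctr.off (C : Ctr α β T) {x : V} (hx : Val α β T x) {k : ℕ} (hk : k ≠ crd T x) :
    bs α β x k ≤ pth α β T x k := by
  have hDT := C.DT
  have ha := C.pa.le_self k
  have hb := C.pb.le_self k
  cases x with
  | a i =>
    have h1 := Act.rel C.pa hx k
    have h2 := C.pa.rel i k
    have h3 := C.pa.rel T k
    simp only [crd] at hk
    simp only [bs, pth, Mx]
    omega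
  | b j =>
    have h1 := Act.rel C.pb hx.1 k
    have h2 := C.pb.rel j k
    simp only [crd] at hk
    simp only [bs, pth, Mx]
    omega
  | t e =>
    have h1 := Act.rel C.pb C.actT k
    have h2 := C.pb.rel T k
    have h3 := C.pb.rel e k
    have h4 := hx.2
    simp only [crd] at hk
    simp only [bs, pth, Mx]
    omega
  | u z =>
    have h1 := Act.rel C.pa hx.1 k
    have h2 := C.pa.rel z k
    simp only [crd] at hk
    simp only [bs, pth, Mx]
    omega

theorem Ctr.at_crd (C : Ctr α β T) {x : V} (hx : Val α β T x) :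
    pth α β T x (crd T x) + 1 = bs α β x (crd T x) := by
  have hDT := C.DT
  cases x with
  | a i =>
    have h1 := Act.rel C.pa hx i
    have h2 := C.pa.rel i T
    have h3 := C.pa.le_self i
    simp only [bs, pth, Mx, crd]
    omega
  | b j =>
    have h1 := Act.rel C.pb hx.1 j
    have h3 := C.pb.le_self j
    simp only [bs, pth, Mx, crd]
    omega
  | t e =>
    have h1 := Act.rel C.pb C.actT e
    have h2 := C.pb.rel T e
    have h4 := hx.2
    have h3 := C.pb.le_self T
    simp only [bs, pth, Mx, crd]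
    omega
  | u z =>
    have h1 := Act.rel C.pa hx.1 z
    have h3 := C.pa.le_self z
    simp only [bs, pth, Mx, crd]
    omega

theorem Ctr.lose (C : Ctr α β T) {x : V} (hx : Val α β T x) : Lose α β (pth α β T x) := by
  have hDT := C.DT
  cases x with
  | a i =>
    have h1 := Act.rel C.pa hx i
    refine ⟨⟨i, ?_⟩, ⟨T, ?_⟩⟩
    · simp only [pth, Mx]
      omega
    · simp only [pth, Mx]
      omega
  | b j =>
    have h1 := Act.rel C.pb hx.1 j
    have h2 := C.hJ j hx.1 hx.2
    refine ⟨⟨j, ?_⟩, ⟨j, ?_⟩⟩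
    · simp only [pth, Mx]
      omega
    · simp only [pth, Mx]
      omega
  | t e =>
    have h1 := Act.rel C.pa hx.1 e
    refine ⟨⟨e, ?_⟩, ⟨T, ?_⟩⟩
    · simp only [pth, Mx]
      omega
    · simp only [pth, Mx]
      omega
  | u z =>
    have h1 := Act.rel C.pa hx.1 z
    have h2 := hx.2
    refine ⟨⟨z, ?_⟩, ⟨z, ?_⟩⟩
    · simp only [pth, Mx]
      omega
    · simp only [pth, Mx]
      omega

/-- number of `α`-bases -/
def nb : V → ℕ
  | .a _ => 0
  | .b _ => 1
  | .t _ => 1
  | .u _ => 0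

theorem bs_eq (x : V) (k : ℕ) : bs α β x k = (1 - nb x) * α k + nb x * β k := by
  cases x <;> simp [bs, nb]

theorem nb_le (x : V) : nb x ≤ 1 := by cases x <;> simp [nb]

theorem Ctr.no2cyc (C : Ctr α β T) {x y : V} (hx : Val α β T x) (hy : Val α β T y)
    (h1 : Hi α β T x (crd T y)) (h2 : Hi α β T y (crd T x)) : False := by
  obtain ⟨k, hk⟩ := C.no2 _ _ (uPath_pth x) (uPath_pth y) (C.lose hx) (C.lose hy)
    ((1 - nb x) + (1 - nb y)) (nb x + nb y) (by have := nb_le x; have := nb_le y; omega)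
  have e : ((1 - nb x) + (1 - nb y)) * α k + (nb x + nb y) * β k = bs α β x k + bs α β y k := by
    rw [bs_eq, bs_eq]; ring
  rw [e] at hk
  have ax := C.at_crd hx
  have ay := C.at_crd hy
  unfold Hi at h1 h2
  by_cases ex : k = crd T x
  · subst ex; omega
  · by_cases ey : k = crd T y
    · subst ey; omega
    · have := C.off hx ex
      have := C.off hy ey
      omega

theorem Ctr.no3cyc (C : Ctr α β T) {x y z : V} (hx : Val α β T x) (hy : Val α β T y)
    (hz : Val α β T z) (h1 : Hi α β T x (crd T y)) (h2 : Hi α β T y (crd T z))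
    (h3 : Hi α β T z (crd T x)) : False := by
  obtain ⟨k, hk⟩ := C.no3 _ _ _ (uPath_pth x) (uPath_pth y) (uPath_pth z) (C.lose hx) (C.lose hy)
    (C.lose hz) ((1 - nb x) + (1 - nb y) + (1 - nb z)) (nb x + nb y + nb z)
    (by have := nb_le x; have := nb_le y; have := nb_le z; omega)
  have e : ((1 - nb x) + (1 - nb y) + (1 - nb z)) * α k + (nb x + nb y + nb z) * β k
      = bs α β x k + bs α β y k + bs α β z k := by
    rw [bs_eq, bs_eq, bs_eq]; ring
  rw [e] at hk
  have ax := C.at_crd hx
  have ay := C.at_crd hy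
  have az := C.at_crd hz
  have nxy : crd T x ≠ crd T y := by
    intro e; unfold Hi at h1; rw [← e] at h1; omega
  have nyz : crd T y ≠ crd T z := by
    intro e; unfold Hi at h2; rw [← e] at h2; omega
  have nzx : crd T z ≠ crd T x := by
    intro e; unfold Hi at h3; rw [← e] at h3; omega
  unfold Hi at h1 h2 h3
  by_cases ex : k = crd T x
  · subst ex
    have := C.off hy (k := crd T x) nxy
    omega
  · by_cases ey : k = crd T y
    · subst ey
      have := C.off hz (k := crd T y) nyz
      omega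
    · by_cases ez : k = crd T z
      · subst ez
        have := C.off hx (k := crd T z) nzx
        omega
      · have := C.off hx ex
        have := C.off hy ey
        have := C.off hz ez
        omega

end

end Pool.Agent.Work.MP_8ddad6_co
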