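import Pool.Agent.Work.MP_8ddad6_co.Mass2

namespace Pool.Agent.Work.MP_8ddad6_co

open Finset Classical

variable {α β : ℕ → ℕ} {T : ℕ}

theorem Ctr.core (C : Ctr α β T) {ι : Type} [Fintype ι] (l : ι → ℕ → ℕ) (hl : ∀ s, UPath (l s))
    (hlose : ∀ s, Lose α β (l s)) (μ : ι → ℝ) (hμ : ∀ s, 0 ≤ μ s) (P Q : ℝ) (hQ : 0 ≤ Q)
    (hsum : ∑ s, μ s = P + Q) (hpos : 0 < ∑ s, μ s)
    (hcert : ∀ k, P * (α k : ℝ) + Q * (β k : ℝ) ≤ ∑ s, μ s * (l s k : ℝ))
    (hside : NonS α β ∨ ∃ c, Act α c ∧ α c = β c + 1 ∧ (∀ i, Act α i → β i < α i → i = c) ∧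
      Q ≤ ∑ s, μ s * (if isB β T (l s) ∨ l s c < α c then 1 else 0)) : False := by
  have main : ∀ c : ℕ, ∃ φ : ι → V, Fam α β T φ μ P Q ∧
      ∀ s, ((isB β T (l s) ∧ ∃ j, φ s = .b j) ∨ (¬ isB β T (l s) ∧ ∃ i, φ s = .a i ∧
        (Act α c → l s c < α c → i = c))) := by
    intro c
    choose φ h1 h2 h3 using fun s => C.cover c (hl s) (hlose s)
    refine ⟨φ, ⟨h1, ?_, hμ, hQ, hsum, hpos, ?_⟩, h3⟩
    · intro s
      rcases h3 s with ⟨-, h⟩ | ⟨-, i, h, -⟩
      · exact Or.inr h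
      · exact Or.inl ⟨i, h⟩
    · intro k
      refine (hcert k).trans (Finset.sum_le_sum fun s _ => ?_)
      exact mul_le_mul_of_nonneg_left (by exact_mod_cast h2 s k) (hμ s)
  rcases hside with hNS | ⟨c, hc, hDc, huniq, hle⟩
  · obtain ⟨φ, F, -⟩ := main 0
    rcases lt_trichotomy Q (rm φ μ) with h | h | h
    · exact F.lt_case C h
    · exact F.eq_case C h
    · exact F.gt_nonS C hNS h
  · obtain ⟨φ, F, hφ⟩ := main c
    rcases lt_trichotomy Q (rm φ μ) with h | h | h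
    · exact F.lt_case C h
    · exact F.eq_case C h
    · refine F.gt_S C hc hDc huniq h ?_
      rw [sub_le_iff_le_add]
      refine hle.trans ?_
      unfold vm rm
      rw [← Finset.sum_add_distrib]
      refine Finset.sum_le_sum fun s _ => ?_
      rw [← mul_add]
      refine mul_le_mul_of_nonneg_left ?_ (hμ s)
      rcases hφ s with ⟨-, j, hj⟩ | ⟨h1, i, hi, h2⟩
      · rw [hj]
        have : (V.b j : V) ≠ .a c := fun h => by cases h
        rw [if_neg this]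
        simp only [nb, Nat.cast_one, zero_add]
        split_ifs <;> norm_num
      · by_cases h3 : l s c < α c
        · rw [hi, h2 hc h3]
          simp [nb]
          split_ifs <;> norm_num
        · rw [if_neg (by tauto)]
          split_ifs <;> positivity

/-- value facts of `Mx i (f i - 1)` for active `i` -/
theorem act_Mx {f g : ℕ → ℕ} (hf : UPath f) (hg : UPath g) {i : ℕ} (hi : Act f i) (hlt : g i < f i)
    (k : ℕ) : (k ≠ i → f k ≤ Mx i (f i - 1) k) ∧ (k = i → Mx i (f i - 1) k + 1 = f k) ∧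
      g k ≤ Mx i (f i - 1) k := by
  have r1 := hi.rel hf k
  have r2 := hf.rel i k
  have r3 := hg.rel i k
  have r4 := hf.le_self k
  have r5 := hg.le_self k
  refine ⟨?_, ?_, ?_⟩
  · intro h
    simp only [Mx]
    omega
  · rintro rfl
    simp only [Mx]
    omega
  · simp only [Mx]
    omega

/-- Step 1 -/
theorem step1 (hα : UPath α) (hβ : UPath β)
    (no2 : ∀ σ τ : ℕ → ℕ, UPath σ → UPath τ → Lose α β σ → Lose α β τ → ∀ P Q, P + Q = 2 →
      ∃ k, σ k + τ k < P * α k + Q * β k) :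
    ((∀ j j', Act β j → α j < β j → Act β j' → α j' < β j' → j = j') ∧
      (∀ j, Act β j → α j < β j → β j = α j + 1)) ∨
    ((∀ j j', Act α j → β j < α j → Act α j' → β j' < α j' → j = j') ∧
      (∀ j, Act α j → β j < α j → α j = β j + 1)) := by
  by_contra hcon
  rw [not_or] at hcon
  obtain ⟨h1, h2⟩ := hcon
  obtain ⟨j, j', hj, hjl, hj', hjl', hjj⟩ : ∃ j j', Act β j ∧ α j < β j ∧ Act β j' ∧ α j' < β j' ∧
      (j ≠ j' ∨ (j = j' ∧ α j + 2 ≤ β j)) := by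
    by_contra hc
    push Not at hc
    refine h1 ⟨?_, ?_⟩
    · intro j j' a b c d
      exact (hc j j' a b c d).1
    · intro j a b
      have := (hc j j a b a b).2 rfl
      omega
  obtain ⟨i, i', hi, hil, hi', hil', hii⟩ : ∃ i i', Act α i ∧ β i < α i ∧ Act α i' ∧ β i' < α i' ∧
      (i ≠ i' ∨ (i = i' ∧ β i + 2 ≤ α i)) := by
    by_contra hc
    push Not at hc
    refine h2 ⟨?_, ?_⟩
    · intro j j' a b c d
      exact (hc j j' a b c d).1
    · intro j a b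
      have := (hc j j a b a b).2 rfl
      omega
  obtain ⟨k, hk⟩ := no2 (fun k => min (Mx i (α i - 1) k) (Mx j' (β j' - 1) k))
    (fun k => min (Mx i' (α i' - 1) k) (Mx j (β j - 1) k))
    (uPath_min (uPath_Mx _ _) (uPath_Mx _ _)) (uPath_min (uPath_Mx _ _) (uPath_Mx _ _))
    ⟨⟨i, by have := hi.pos; simp only [Mx]; omega⟩, ⟨j', by have := hj'.pos; simp only [Mx]; omega⟩⟩
    ⟨⟨i', by have := hi'.pos; simp only [Mx]; omega⟩, ⟨j, by have := hj.pos; simp only [Mx]; omega⟩⟩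
    1 1 rfl
  have a1 := act_Mx hα hβ hi hil k
  have a2 := act_Mx hα hβ hi' hil' k
  have a3 := act_Mx hβ hα hj hjl k
  have a4 := act_Mx hβ hα hj' hjl' k
  have e1 : k = i → β k < α k := by rintro rfl; exact hil
  have e2 : k = i' → β k < α k := by rintro rfl; exact hil'
  have e3 : k = j → α k < β k := by rintro rfl; exact hjl
  have e4 : k = j' → α k < β k := by rintro rfl; exact hjl'
  have e5 : k = i → i = i' → β k + 2 ≤ α k := by
    rintro rfl h
    rcases hii with h' | h'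
    · exact absurd h h'
    · exact h'.2
  have e6 : k = j → j = j' → α k + 2 ≤ β k := by
    rintro rfl h
    rcases hjj with h' | h'
    · exact absurd h h'
    · exact h'.2
  generalize Mx i (α i - 1) k = x1 at *
  generalize Mx i' (α i' - 1) k = x2 at *
  generalize Mx j (β j - 1) k = x3 at *
  generalize Mx j' (β j' - 1) k = x4 at *
  omega

theorem Lose.symm {σ : ℕ → ℕ} (h : Lose α β σ) : Lose β α σ := ⟨h.2, h.1⟩

/-- the incomparable case -/
theorem comb_inc (hα : UPath α) (hβ : UPath β) (ca : ∃ n, ∀ k, n ≤ k → α k = α n)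
    (cb : ∃ n, ∀ k, n ≤ k → β k = β n) (inc1 : ∃ k, α k < β k) (inc2 : ∃ k, β k < α k)
    (no2 : ∀ σ τ : ℕ → ℕ, UPath σ → UPath τ → Lose α β σ → Lose α β τ → ∀ P Q, P + Q = 2 →
      ∃ k, σ k + τ k < P * α k + Q * β k)
    (no3 : ∀ σ τ υ : ℕ → ℕ, UPath σ → UPath τ → UPath υ → Lose α β σ → Lose α β τ → Lose α β υ →
      ∀ P Q, P + Q = 3 → ∃ k, σ k + τ k + υ k < P * α k + Q * β k)
    {ι : Type} [Fintype ι] (l : ι → ℕ → ℕ) (hl : ∀ s, UPath (l s))
    (hlose : ∀ s, Lose α β (l s)) (μ : ι → ℝ) (hμ : ∀ s, 0 ≤ μ s) (P Q : ℝ) (hP : 0 ≤ P)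
    (hQ : 0 ≤ Q) (hsum : ∑ s, μ s = P + Q) (hpos : 0 < ∑ s, μ s)
    (hcert : ∀ k, P * (α k : ℝ) + Q * (β k : ℝ) ≤ ∑ s, μ s * (l s k : ℝ)) : False := by
  -- existence of active coordinates
  obtain ⟨T, hT, hTlt⟩ : ∃ T, Act β T ∧ α T < β T := by
    obtain ⟨k, hk⟩ := inc1
    obtain ⟨i, hi, h1, -⟩ := exists_act hβ cb hα hk
    exact ⟨i, hi, h1⟩
  obtain ⟨c, hc, hclt⟩ : ∃ c, Act α c ∧ β c < α c := by
    obtain ⟨k, hk⟩ := inc2
    obtain ⟨i, hi, h1, -⟩ := exists_act hα ca hβ hk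
    exact ⟨i, hi, h1⟩
  have no2' : ∀ σ τ : ℕ → ℕ, UPath σ → UPath τ → Lose β α σ → Lose β α τ → ∀ P Q, P + Q = 2 →
      ∃ k, σ k + τ k < P * β k + Q * α k := by
    intro σ τ h1 h2 h3 h4 P Q hPQ
    obtain ⟨k, hk⟩ := no2 σ τ h1 h2 h3.symm h4.symm Q P (by omega)
    exact ⟨k, by omega⟩
  have no3' : ∀ σ τ υ : ℕ → ℕ, UPath σ → UPath τ → UPath υ → Lose β α σ → Lose β α τ →
      Lose β α υ → ∀ P Q, P + Q = 3 → ∃ k, σ k + τ k + υ k < P * β k + Q * α k := by
    intro σ τ υ h1 h2 h2' h3 h4 h4' P Q hPQ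
    obtain ⟨k, hk⟩ := no3 σ τ υ h1 h2 h2' h3.symm h4.symm h4'.symm Q P (by omega)
    exact ⟨k, by omega⟩
  have hcert' : ∀ k, Q * (β k : ℝ) + P * (α k : ℝ) ≤ ∑ s, μ s * (l s k : ℝ) := by
    intro k
    have := hcert k
    linarith
  have C1 : ((∀ j j', Act β j → α j < β j → Act β j' → α j' < β j' → j = j') ∧
      (∀ j, Act β j → α j < β j → β j = α j + 1)) → Ctr α β T := by
    rintro ⟨h1, h2⟩
    refine ⟨hα, hβ, ca, cb, hT, h2 T hT hTlt, ?_, inc2, no2, no3⟩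
    intro j hj hne
    by_contra hcon
    push Not at hcon
    exact hne (h1 j T hj hcon hT hTlt)
  have C2 : ((∀ j j', Act α j → β j < α j → Act α j' → β j' < α j' → j = j') ∧
      (∀ j, Act α j → β j < α j → α j = β j + 1)) → Ctr β α c := by
    rintro ⟨h1, h2⟩
    refine ⟨hβ, hα, cb, ca, hc, h2 c hc hclt, ?_, inc1, no2', no3'⟩
    intro j hj hne
    by_contra hcon
    push Not at hcon
    exact hne (h1 j c hj hcon hc hclt)
  by_cases hI : ((∀ j j', Act β j → α j < β j → Act β j' → α j' < β j' → j = j') ∧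
      (∀ j, Act β j → α j < β j → β j = α j + 1))
  · by_cases hII : ((∀ j j', Act α j → β j < α j → Act α j' → β j' < α j' → j = j') ∧
      (∀ j, Act α j → β j < α j → α j = β j + 1))
    · -- symmetric case
      by_cases hq : Q ≤ ∑ s, μ s * (if isB β T (l s) ∨ l s c < α c then 1 else 0)
      · exact (C1 hI).core l hl hlose μ hμ P Q hQ hsum hpos hcert
          (Or.inr ⟨c, hc, hII.2 c hc hclt, fun i hi h => hII.1 i c hi h hc hclt, hq⟩)
      · refine (C2 hII).core l hl (fun s => (hlose s).symm) μ hμ Q P hP (by linarith) hpos hcert'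
          (Or.inr ⟨T, hT, hI.2 T hT hTlt, fun i hi h => hI.1 i T hi h hT hTlt, ?_⟩)
        push Not at hq
        have h1 : P ≤ ∑ s, μ s * (1 - (if isB β T (l s) ∨ l s c < α c then 1 else 0)) := by
          have : ∑ s, μ s * (1 - (if isB β T (l s) ∨ l s c < α c then (1:ℝ) else 0))
              = ∑ s, μ s - ∑ s, μ s * (if isB β T (l s) ∨ l s c < α c then (1:ℝ) else 0) := by
            rw [← Finset.sum_sub_distrib]
            exact Finset.sum_congr rfl fun s _ => by ring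
          rw [this, hsum]
          linarith
        refine h1.trans (Finset.sum_le_sum fun s _ => mul_le_mul_of_nonneg_left ?_ (hμ s))
        by_cases h2 : isB β T (l s) ∨ l s c < α c
        · rw [if_pos h2, sub_self]
          split_ifs <;> norm_num
        · rw [if_neg h2, if_pos]
          · norm_num
          · left
            rw [not_or] at h2
            obtain ⟨⟨ka, hka⟩, -⟩ := hlose s
            obtain ⟨i, hi, hilt, -⟩ := exists_act hα ca (hl s) hka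
            refine ⟨i, hi, ?_, hilt⟩
            rintro rfl
            exact h2.2 hilt
    · refine (C1 hI).core l hl hlose μ hμ P Q hQ hsum hpos hcert (Or.inl ?_)
      by_contra hNS
      unfold NonS at hNS
      push Not at hNS
      refine hII ⟨fun j j' a b c' d => hNS.1 j j' ⟨a, b⟩ ⟨c', d⟩, fun j a b => ?_⟩
      have := hNS.2 j a
      omega
  · have hII := (step1 hα hβ no2).resolve_left hI
    refine (C2 hII).core l hl (fun s => (hlose s).symm) μ hμ Q P hP (by linarith) hpos hcert'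
      (Or.inl ?_)
    by_contra hNS
    unfold NonS at hNS
    push Not at hNS
    refine hI ⟨fun j j' a b c' d => hNS.1 j j' ⟨a, b⟩ ⟨c', d⟩, fun j a b => ?_⟩
    have := hNS.2 j a
    omega

/-- the comparable case -/
theorem comb_cmp (hα : UPath α) (ca : ∃ n, ∀ k, n ≤ k → α k = α n) (hle : ∀ k, α k ≤ β k)
    (no2 : ∀ σ τ : ℕ → ℕ, UPath σ → UPath τ → Lose α β σ → Lose α β τ →
      ∃ k, σ k + τ k < 2 * α k)
    {ι : Type} [Fintype ι] (l : ι → ℕ → ℕ) (hl : ∀ s, UPath (l s))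
    (hlose : ∀ s, Lose α β (l s)) (μ : ι → ℝ) (hμ : ∀ s, 0 ≤ μ s) (P Q : ℝ)
    (hQ : 0 ≤ Q) (hsum : ∑ s, μ s = P + Q) (hpos : 0 < ∑ s, μ s)
    (hcert : ∀ k, P * (α k : ℝ) + Q * (β k : ℝ) ≤ ∑ s, μ s * (l s k : ℝ)) : False := by
  choose φ h1 h2 h3 using fun s => exists_act hα ca (hl s) (hlose s).1.choose_spec
  have hcov : ∀ s k, l s k ≤ Mx (φ s) (α (φ s) - 1) k := fun s k =>
    (hl s).le_Mx (by have := h2 s; omega) k
  have hself : ∀ i, Act α i → Mx i (α i - 1) i + 1 = α i := by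
    intro i hi
    have := hi.pos
    have := hα.le_self i
    simp only [Mx]
    omega
  have hoff : ∀ i, Act α i → ∀ k, k ≠ i → α k ≤ Mx i (α i - 1) k := by
    intro i hi k hk
    have r1 := hi.rel hα k
    have r2 := hα.rel i k
    have r3 := hα.le_self k
    simp only [Mx]
    omega
  have hL : ∀ i, Act α i → Lose α β (Mx i (α i - 1)) := by
    intro i hi
    have e := hself i hi
    exact ⟨⟨i, by omega⟩, ⟨i, by have := hle i; omega⟩⟩
  have hS : ∀ k, 0 ≤ ∑ s, μ s * ((Mx (φ s) (α (φ s) - 1) k : ℝ) - (α k : ℝ)) := by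
    intro k
    have e1 : ∑ s, μ s * ((Mx (φ s) (α (φ s) - 1) k : ℝ) - (α k : ℝ))
        = ∑ s, μ s * (Mx (φ s) (α (φ s) - 1) k : ℝ) - (∑ s, μ s) * (α k : ℝ) := by
      rw [Finset.sum_mul, ← Finset.sum_sub_distrib]
      exact Finset.sum_congr rfl fun s _ => by ring
    have e2 : ∑ s, μ s * (l s k : ℝ) ≤ ∑ s, μ s * (Mx (φ s) (α (φ s) - 1) k : ℝ) :=
      Finset.sum_le_sum fun s _ => mul_le_mul_of_nonneg_left (by exact_mod_cast hcov s k) (hμ s)
    have e3 := hcert k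
    have e4 : (α k : ℝ) ≤ (β k : ℝ) := by exact_mod_cast hle k
    rw [e1, hsum]
    nlinarith
  have hpred : ∀ s0, 0 < μ s0 → ∃ s, 0 < μ s ∧
      α (φ s0) < Mx (φ s) (α (φ s) - 1) (φ s0) := by
    intro s0 hs0
    have e := hself (φ s0) (h1 s0)
    have e' : (Mx (φ s0) (α (φ s0) - 1) (φ s0) : ℝ) - (α (φ s0) : ℝ) = -1 := by
      have : (Mx (φ s0) (α (φ s0) - 1) (φ s0) : ℝ) + 1 = (α (φ s0) : ℝ) := by exact_mod_cast e
      linarith
    obtain ⟨s, hs⟩ := exists_pos_of_sum_nonneg (hS (φ s0)) (s0 := s0) (by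
      rw [e']
      linarith)
    rcases (hμ s).eq_or_lt with h0 | h0
    · rw [← h0] at hs
      simp at hs
    · refine ⟨s, h0, ?_⟩
      have := (mul_pos_iff_of_pos_left h0).1 hs
      have : (α (φ s0) : ℝ) < (Mx (φ s) (α (φ s) - 1) (φ s0) : ℝ) := by linarith
      exact_mod_cast this
  obtain ⟨s1, hs1⟩ := exists_pos_of_sum hpos
  obtain ⟨na, hna⟩ := act_bdd ca
  obtain ⟨lo, hi, ⟨sl, hsl, rfl⟩, ⟨sh, hsh, rfl⟩, hext⟩ :=
    exists_ext (S := fun i => ∃ s, 0 < μ s ∧ φ s = i) ⟨φ s1, s1, hs1, rfl⟩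
      ⟨na, by rintro i ⟨s, -, rfl⟩; exact hna _ (h1 s)⟩
  have A1 : α (φ sl) < Mx (φ sh) (α (φ sh) - 1) (φ sl) := by
    obtain ⟨s, hs, hlt⟩ := hpred sl hsl
    obtain ⟨b1, b2⟩ := hext _ ⟨s, hs, rfl⟩
    have r1 := hα.rel (φ s) (φ sh)
    have r2 := hα.rel (φ sl) (φ s)
    have r3 := (h1 s).pos
    simp only [Mx] at hlt ⊢
    omega
  have A2 : α (φ sh) < Mx (φ sl) (α (φ sl) - 1) (φ sh) := by
    obtain ⟨s, hs, hlt⟩ := hpred sh hsh
    obtain ⟨b1, b2⟩ := hext _ ⟨s, hs, rfl⟩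
    have r1 := hα.rel (φ s) (φ sl)
    have r2 := hα.rel (φ sh) (φ s)
    have r3 := (h1 s).pos
    simp only [Mx] at hlt ⊢
    omega
  obtain ⟨k, hk⟩ := no2 _ _ (uPath_Mx (φ sl) (α (φ sl) - 1)) (uPath_Mx (φ sh) (α (φ sh) - 1))
    (hL _ (h1 sl)) (hL _ (h1 sh))
  have e1 := hself _ (h1 sl)
  have e2 := hself _ (h1 sh)
  by_cases c1 : k = φ sl
  · rw [c1] at hk
    omega
  · by_cases c2 : k = φ sh
    · rw [c2] at hk
      omega
    · have := hoff _ (h1 sl) k c1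
      have := hoff _ (h1 sh) k c2
      omega

/-- Main combinatorial theorem: a certificate yields one of length 2 or 3. -/
theorem main_paths (hα : UPath α) (hβ : UPath β) (ca : ∃ n, ∀ k, n ≤ k → α k = α n)
    (cb : ∃ n, ∀ k, n ≤ k → β k = β n)
    {ι : Type} [Fintype ι] (l : ι → ℕ → ℕ) (hl : ∀ s, UPath (l s))
    (hlose : ∀ s, Lose α β (l s)) (μ : ι → ℝ) (hμ : ∀ s, 0 ≤ μ s) (P Q : ℝ) (hP : 0 ≤ P)
    (hQ : 0 ≤ Q) (hsum : ∑ s, μ s = P + Q) (hpos : 0 < ∑ s, μ s)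
    (hcert : ∀ k, P * (α k : ℝ) + Q * (β k : ℝ) ≤ ∑ s, μ s * (l s k : ℝ)) :
    ∃ m, (m = 2 ∨ m = 3) ∧ ∃ τ : Fin m → ℕ → ℕ, (∀ i, UPath (τ i)) ∧ (∀ i, Lose α β (τ i)) ∧
      ∃ P' Q' : ℕ, P' + Q' = m ∧ ∀ k, P' * α k + Q' * β k ≤ ∑ i, τ i k := by
  by_contra hcon
  have no2 : ∀ σ τ : ℕ → ℕ, UPath σ → UPath τ → Lose α β σ → Lose α β τ → ∀ P Q, P + Q = 2 →
      ∃ k, σ k + τ k < P * α k + Q * β k := by
    intro σ τ h1 h2 h3 h4 P' Q' hPQ
    by_contra h5
    push Not at h5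
    refine hcon ⟨2, Or.inl rfl, ![σ, τ], ?_, ?_, P', Q', hPQ, ?_⟩
    · intro i; fin_cases i <;> assumption
    · intro i; fin_cases i <;> assumption
    · intro k
      rw [Fin.sum_univ_two]
      exact h5 k
  have no3 : ∀ σ τ υ : ℕ → ℕ, UPath σ → UPath τ → UPath υ → Lose α β σ → Lose α β τ → Lose α β υ →
      ∀ P Q, P + Q = 3 → ∃ k, σ k + τ k + υ k < P * α k + Q * β k := by
    intro σ τ υ h1 h2 h2' h3 h4 h4' P' Q' hPQ
    by_contra h5
    push Not at h5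
    refine hcon ⟨3, Or.inr rfl, ![σ, τ, υ], ?_, ?_, P', Q', hPQ, ?_⟩
    · intro i; fin_cases i <;> assumption
    · intro i; fin_cases i <;> assumption
    · intro k
      rw [Fin.sum_univ_three]
      exact h5 k
  by_cases inc1 : ∃ k, α k < β k
  · by_cases inc2 : ∃ k, β k < α k
    · exact comb_inc hα hβ ca cb inc1 inc2 no2 no3 l hl hlose μ hμ P Q hP hQ hsum hpos hcert
    · push Not at inc2
      refine comb_cmp hα ca inc2 ?_ l hl hlose μ hμ P Q hQ hsum hpos hcert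
      intro σ τ h1 h2 h3 h4
      obtain ⟨k, hk⟩ := no2 σ τ h1 h2 h3 h4 2 0 rfl
      exact ⟨k, by omega⟩
  · push Not at inc1
    refine comb_cmp hβ cb inc1 ?_ l hl (fun s => (hlose s).symm) μ hμ Q P hP (by linarith) hpos
      (fun k => by have := hcert k; linarith)
    intro σ τ h1 h2 h3 h4
    obtain ⟨k, hk⟩ := no2 σ τ h1 h2 h3.symm h4.symm 0 2 rfl
    exact ⟨k, by omega⟩

end Pool.Agent.Work.MP_8ddad6_co
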