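import Pool.Agent.Work.MP_8ddad6_co.ElimDefs

namespace Pool.Agent.Work.MP_8ddad6_co

variable {α β : ℕ → ℕ} {T : ℕ}

/-- `Hi (.a k) x` in arithmetic form. -/
theorem el_hi_a_lt {k x : ℕ} (h : x < k) (hT : x ≤ T) :
    Hi α β T (.a k) x ↔ (α x < x ∧ α x + 1 < α k ∧ α x < α T) := by
  unfold Hi
  simp only [bs, pth, Mx]
  omega

theorem el_hi_a_gt {k x : ℕ} (h : k < x) (hk : 0 < α k) (hT : x ≤ T) :
    Hi α β T (.a k) x ↔ (α x < x ∧ α x + k + 1 < α k + x ∧ α x < α T) := by
  unfold Hi
  simp only [bs, pth, Mx]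
  omega

theorem el_hi_b_lt {j x : ℕ} (h : x ≤ j) :
    Hi α β T (.b j) x ↔ (β x < x ∧ β x + 1 < β j) := by
  unfold Hi
  simp only [bs, pth, Mx]
  omega

theorem el_hi_b_gt {j x : ℕ} (h : j ≤ x) (hj : 0 < β j) :
    Hi α β T (.b j) x ↔ (β x < x ∧ β x + j + 1 < β j + x) := by
  unfold Hi
  simp only [bs, pth, Mx]
  omega

theorem el_vv_le {j k : ℕ} (h : k ≤ j) (hT : k ≤ T) :
    vv α β T j k = min (k : ℤ) ((α T - 1 : ℕ) : ℤ) + min (k : ℤ) ((β j - 1 : ℕ) : ℤ) - 2 * (α k : ℤ) := by
  simp only [vv, Mx]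
  have e1 : k - T = 0 := by omega
  have e2 : k - j = 0 := by omega
  rw [e1, e2]
  simp

theorem el_vv_mid {j k : ℕ} (h : j ≤ k) (hT : k ≤ T) (hb : β j ≤ j) (hb0 : 0 < β j) (ha : 0 < α T)  :
    vv α β T j k = min (k : ℤ) ((α T : ℤ) - 1) + ((β j : ℤ) - 1 + k - j) - 2 * (α k : ℤ) := by
  simp only [vv, Mx]
  have e1 : k - T = 0 := by omega
  rw [e1]
  omega

theorem el_vv_ge {j k : ℕ} (h : j ≤ k) (hT : T ≤ k) (hb : β j ≤ j) (hb0 : 0 < β j)
    (ha : 0 < α T) (haT : α T ≤ T) :
    vv α β T j k = ((α T : ℤ) - 1 + k - T) + ((β j : ℤ) - 1 + k - j) - 2 * (α k : ℤ) := by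
  simp only [vv, Mx]
  omega

/-- E1L, region `x < k ≤ j`. -/
theorem el_E1a (C : Ctr α β T) (hTa : Act α T) {j : ℕ}
    (hj : Act β j) (hjT : j < T) 
    (hj2 : T + β j = j + β T + 1) {k x : ℕ} (hk : Act α k) (hkj : k ≤ j)
    (hkn : vv α β T j k < 0) (hxk : x < k) (hx : Act α x) (hxp : 0 < vv α β T j x) :
    Hi α β T (.a k) x ∨
    (α k = α x + 1 ∧ α T + α x + 0 ≤ α k + x + 0 ∧ 2 * (α T - α k) + j + 1 = T) := by
  rw [el_hi_a_lt hxk (by omega)]
  rw [el_vv_le (by omega) (by omega)] at hkn hxp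
  have h1 := C.DT
  have h2 := C.pa.le_self k
  have h3 := C.pa.le_self x
  have h5 := hTa.lt C.pa (show k < T by omega)
  have h8 := hk.lt C.pa hxk
  have h11 := hx.gt C.pa hxk
  have h14 := C.pa.le_of_le hkj
  have h18 := hj.pos
  omega

/-- E1L, region `x < j < k`. -/
theorem el_E1b (C : Ctr α β T) (hTa : Act α T) {j : ℕ}
    (hj : Act β j) (hjT : j < T)
    (hj2 : T + β j = j + β T + 1) {k x : ℕ} (hk : Act α k) (hjk : j < k) (hkT : k < T)
    (hkn : vv α β T j k < 0) (hxj : x < j) (hx : Act α x) (hxp : 0 < vv α β T j x) :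
    Hi α β T (.a k) x := by
  rw [el_hi_a_lt (by omega) (by omega)]
  rw [el_vv_mid (by omega) (by omega) (C.pb.le_self j) hj.pos hTa.pos] at hkn
  rw [el_vv_le (by omega) (by omega)] at hxp
  have h1 := C.DT
  have h2 := C.pa.le_self k
  have h3 := C.pa.le_self x
  have h4 := C.pa.le_self j
  have h5 := hTa.lt C.pa hkT
  have h6 := hk.lt C.pa hjk
  have h7 := C.pa.lip_of_le hjk.le
  have h8 := C.pa.le_of_le hxj.le
  have h9 := hx.gt C.pa hxj
  have h18 := hj.pos
  have h19 := C.pb.le_self j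
  omega

/-- E1L, region `j ≤ x < k`. -/
theorem el_E1c (C : Ctr α β T) (hTa : Act α T) {j : ℕ}
    (hj : Act β j) (hja : α j < j)
    (hj2 : T + β j = j + β T + 1) {k x : ℕ} (hk : Act α k) (hkT : k < T)
    (hkn : vv α β T j k < 0) (hjx : j ≤ x) (hxk : x < k) (hxp : 0 < vv α β T j x) :
    Hi α β T (.a k) x := by
  rw [el_hi_a_lt (by omega) (by omega)]
  rw [el_vv_mid (by omega) (by omega) (C.pb.le_self j) hj.pos hTa.pos] at hkn hxp
  have h1 := C.DT
  have h2 := C.pa.le_self k
  have h3 := C.pa.le_self x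
  have h4 := C.pa.le_self j
  have h5 := hTa.lt C.pa hkT
  have h6 := hk.lt C.pa hxk
  have h7 := C.pa.lip_of_le hxk.le
  have h8 := C.pa.lip_of_le hjx
  have h18 := hj.pos
  have h19 := C.pb.le_self j
  omega

/-- E1L, region `k < x ≤ j`. -/
theorem el_E1d (C : Ctr α β T) (hTa : Act α T) {j : ℕ}
    (hj : Act β j) (hjT : j < T)
    (hj2 : T + β j = j + β T + 1) {k x : ℕ} (hk : Act α k)
    (hkn : vv α β T j k < 0) (hkx : k < x) (hxj : x ≤ j) (hxp : 0 < vv α β T j x) :
    Hi α β T (.a k) x := by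
  rw [el_hi_a_gt (by omega) hk.pos (by omega)]
  rw [el_vv_le (by omega) (by omega)] at hkn hxp
  have h1 := C.DT
  have h2 := C.pa.le_self k
  have h3 := C.pa.le_self x
  have h4 := C.pa.le_self j
  have h5 := hTa.lt C.pa (show x < T by omega)
  have h6 := hk.gt C.pa hkx
  have h7 := C.pa.le_of_le hkx.le
  have h8 := C.pa.le_of_le hxj
  have h18 := hj.pos
  have h19 := C.pb.le_self j
  have h20 := hk.pos
  omega

/-- E1L, region `k < j < x`. -/
theorem el_E1e (C : Ctr α β T) (hTa : Act α T) {j : ℕ}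
    (hj : Act β j) (hjT : j < T) (hja : α j < j)
    (hj2 : T + β j = j + β T + 1) {k x : ℕ} (hk : Act α k)
    (hkn : vv α β T j k < 0) (hkj : k < j) (hjx : j < x) (hxT : x < T) (hxp : 0 < vv α β T j x) :
    Hi α β T (.a k) x := by
  rw [el_hi_a_gt (by omega) hk.pos (by omega)]
  rw [el_vv_le (by omega) (by omega)] at hkn 
  rw [el_vv_mid (by omega) (by omega) (C.pb.le_self j) hj.pos hTa.pos] at hxp
  have h1 := C.DT
  have h2 := C.pa.le_self k
  have h3 := C.pa.le_self x
  have h4 := C.pa.le_self j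
  have h5 := hTa.lt C.pa (show x < T by omega)
  have h6 := hk.gt C.pa hkj
  have h7 := C.pa.le_of_le hkj.le
  have h8 := C.pa.le_of_le hjx.le
  have h9 := C.pa.lip_of_le hjx.le
  have h18 := hj.pos
  have h19 := C.pb.le_self j
  have h20 := hk.pos
  omega

/-- E1L, region `j ≤ k < x`. -/
theorem el_E1f (C : Ctr α β T) (hTa : Act α T) {j : ℕ}
    (hj : Act β j)
    (hj2 : T + β j = j + β T + 1) {k x : ℕ} (hk : Act α k)
    (hkn : vv α β T j k < 0) (hjk : j ≤ k) (hkx : k < x) (hxT : x < T)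
    (hx : Act α x) (hxp : 0 < vv α β T j x) :
    Hi α β T (.a k) x ∨
    (x + α k = k + α x + 1 ∧ T + 2 * α k = α T + 2 * k + 2 ∧
      α x + k + 2 ≤ α T + α k) := by
  rw [el_hi_a_gt (by omega) hk.pos (by omega)]
  rw [el_vv_mid (by omega) (by omega) (C.pb.le_self j) hj.pos hTa.pos] at hkn hxp
  have h1 := C.DT
  have h2 := C.pa.le_self k
  have h3 := C.pa.le_self x
  have h5 := hTa.lt C.pa (show x < T by omega)
  have h6 := hk.gt C.pa hkx
  have h7 := hx.lt C.pa hkx
  have h18 := hj.pos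
  have h19 := C.pb.le_self j
  have h20 := hk.pos
  omega

/-- E1L: the possible relations between an active negative point `k` and a positive point `x`. -/
theorem el_E1 (C : Ctr α β T) (hTa : Act α T) {j : ℕ}
    (hj : Act β j) (hjT : j < T) (hja : α j < j)
    (hj2 : T + β j = j + β T + 1) {k x : ℕ} (hk : Act α k) (hkT : k < T)
    (hkn : vv α β T j k < 0) (hxT : x < T) (hx : Act α x ∨ x = j) (hxp : 0 < vv α β T j x) :
    Hi α β T (.a k) x ∨
    (x < k ∧ k ≤ j ∧ α k = α x + 1 ∧ α T + α x ≤ α k + x ∧ 2 * (α T - α k) + j + 1 = T) ∨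
    (j ≤ k ∧ k < x ∧ x + α k = k + α x + 1 ∧ T + 2 * α k = α T + 2 * k + 2 ∧
      α x + k + 2 ≤ α T + α k) := by
  rcases Nat.lt_trichotomy x k with hxk | hxk | hxk
  · rcases Nat.lt_or_ge j k with hjk | hjk
    · rcases Nat.lt_or_ge x j with hxj | hxj
      · left
        rcases hx with hx | hx
        · exact el_E1b C hTa hj hjT hj2 hk hjk hkT hkn hxj hx hxp
        · omega
      · left
        exact el_E1c C hTa hj hja hj2 hk hkT hkn hxj hxk hxp
    · rcases hx with hx | hx
      · rcases el_E1a C hTa hj hjT hj2 hk hjk hkn hxk hx hxp with h | h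
        · exact Or.inl h
        · exact Or.inr (Or.inl ⟨hxk, hjk, h.1, by omega, h.2.2⟩)
      · omega
  · subst hxk; omega
  · rcases Nat.lt_or_ge k j with hjk | hjk
    · rcases Nat.lt_or_ge j x with hxj | hxj
      · left
        exact el_E1e C hTa hj hjT hja hj2 hk hkn hjk hxj hxT hxp
      · left
        exact el_E1d C hTa hj hjT hj2 hk hkn hxk hxj hxp
    · rcases hx with hx | hx
      · rcases el_E1f C hTa hj hj2 hk hkn hjk hxk hxT hx hxp with h | h
        · exact Or.inl h
        · exact Or.inr (Or.inr ⟨hjk, hxk, h⟩)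
      · omega

/-- A negative point is left of `T`. -/
theorem el_neg_lt (C : Ctr α β T) (hTa : Act α T) {j : ℕ}
    (hj : Act β j) (hjT : j < T) (hj2 : T + β j = j + β T + 1) {k : ℕ}
    (hkn : vv α β T j k < 0) : k < T := by
  by_contra hcon
  rw [el_vv_ge (by omega) (by omega) (C.pb.le_self j) hj.pos hTa.pos (C.pa.le_self T)] at hkn
  have h1 := C.DT
  have h2 := C.pa.lip_of_le (show T ≤ k by omega)
  have h3 := C.pa.le_self T
  omega

/-- Each negative point has an adjacent active negative point. -/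
theorem el_neg_act (C : Ctr α β T) {j p : ℕ} (hp : vv α β T j p < 0) :
    ∃ i, Act α i ∧ vv α β T j i < 0 ∧ ((i ≤ p ∧ α i = α p) ∨ (p ≤ i ∧ α i + p = α p + i)) := by
  have h1 := uPath_Mx T (α T - 1)
  have h2 := uPath_Mx j (β j - 1)
  have hσ : UPath (fun k => (Mx T (α T - 1) k + Mx j (β j - 1) k) / 2) := by
    refine ⟨?_, ?_, ?_⟩
    · have := h1.zero
      have := h2.zero
      show (Mx T (α T - 1) 0 + Mx j (β j - 1) 0) / 2 = 0
      omega
    · intro k
      have := h1.mono k
      have := h2.mono k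
      show (Mx T (α T - 1) k + Mx j (β j - 1) k) / 2 ≤
        (Mx T (α T - 1) (k+1) + Mx j (β j - 1) (k+1)) / 2
      omega
    · intro k
      have := h1.lip k
      have := h2.lip k
      show (Mx T (α T - 1) (k+1) + Mx j (β j - 1) (k+1)) / 2 ≤
        (Mx T (α T - 1) k + Mx j (β j - 1) k) / 2 + 1
      omega
  have hlt : (fun k => (Mx T (α T - 1) k + Mx j (β j - 1) k) / 2) p < α p := by
    show (Mx T (α T - 1) p + Mx j (β j - 1) p) / 2 < α p
    unfold vv at hp
    omega
  obtain ⟨i, hi, hlt, hadj⟩ := exists_act C.pa C.ca hσ hlt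
  refine ⟨i, hi, ?_, hadj⟩
  have hlt' : (Mx T (α T - 1) i + Mx j (β j - 1) i) / 2 < α i := hlt
  unfold vv
  omega

/-- There is a negative point. -/
theorem el_neg_ex (C : Ctr α β T) (hTa : Act α T) {j : ℕ} (hj : Act β j) (hjT : j < T) :
    ∃ p, vv α β T j p < 0 := by
  have v1 : Val α β T (.a T) := hTa
  have v2 : Val α β T (.b j) := ⟨hj, by omega⟩
  obtain ⟨k, hk⟩ := C.no2 _ _ (uPath_pth (.a T)) (uPath_pth (.b j)) (C.lose v1) (C.lose v2) 2 0 rfl
  refine ⟨k, ?_⟩
  have h1 : pth α β T (.a T) k = Mx T (α T - 1) k := by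
    simp only [pth, Mx]; omega
  have h2 : pth α β T (.b j) k = Mx j (β j - 1) k := rfl
  rw [h1, h2] at hk
  unfold vv
  omega

/-- The 3-certificate. -/
theorem el_cert (C : Ctr α β T) (hTa : Act α T) {j : ℕ} (hj : Act β j) (hjT : j < T) {x : ℕ}
    (hx : Act α x) (hxp : 0 < vv α β T j x)
    (h : ∀ p, vv α β T j p < 0 → vv α β T j p = -1 ∧ Hi α β T (.a x) p) : False := by
  have v1 : Val α β T (.a T) := hTa
  have v2 : Val α β T (.b j) := ⟨hj, by omega⟩
  have v3 : Val α β T (.a x) := hx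
  obtain ⟨p, hp⟩ := C.no3 _ _ _ (uPath_pth (.a T)) (uPath_pth (.b j)) (uPath_pth (.a x))
    (C.lose v1) (C.lose v2) (C.lose v3) 3 0 rfl
  have h1 : pth α β T (.a T) p = Mx T (α T - 1) p := by
    simp only [pth, Mx]; omega
  have h2 : pth α β T (.b j) p = Mx j (β j - 1) p := rfl
  rw [h1, h2] at hp
  have h3 : (Mx T (α T - 1) p : ℤ) + (Mx j (β j - 1) p : ℤ) = vv α β T j p + 2 * α p := by
    unfold vv; ring
  by_cases hpx : p = x
  · subst hpx
    have h4 := C.at_crd v3
    simp only [crd, bs] at h4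
    omega
  · have h4 := C.off v3 (k := p) hpx
    simp only [bs] at h4
    by_cases hn : vv α β T j p < 0
    · obtain ⟨h5, h6⟩ := h p hn
      unfold Hi at h6
      simp only [bs] at h6
      omega
    · omega

/-- Relation `Sa`. -/
def el_Sa (α : ℕ → ℕ) (T j k x : ℕ) : Prop :=
  x < k ∧ k ≤ j ∧ α k = α x + 1 ∧ α T + α x ≤ α k + x ∧ 2 * (α T - α k) + j + 1 = T

/-- Relation `Sb`. -/
def el_Sb (α : ℕ → ℕ) (T j k x : ℕ) : Prop :=
  j ≤ k ∧ k < x ∧ x + α k = k + α x + 1 ∧ T + 2 * α k = α T + 2 * k + 2 ∧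
      α x + k + 2 ≤ α T + α k

/-- What the closedness gives at an active negative point. -/
theorem el_step (C : Ctr α β T) (hac : Acyc α β T) (hTa : Act α T) {j : ℕ}
    (hj : Act β j) (hjT : j < T) (hja : α j < j)
    (hj2 : T + β j = j + β T + 1)
    {SA : ℕ → Prop} {g : Prop}
    (hSA : ∀ i, SA i → Act α i ∧ i < T)
    (hcl : ∀ k, ((SA k) ∨ (g ∧ k = j) ∨ vv α β T j k < 0) →
      ((∃ i, SA i ∧ Hi α β T (.a i) k) ∨ (g ∧ Hi α β T (.b j) k) ∨ 0 < vv α β T j k))
    {k : ℕ} (hk : Act α k) (hkn : vv α β T j k < 0) :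
    ∃ x, SA x ∧ x < T ∧ Act α x ∧ 0 < vv α β T j x ∧ (∀ i, SA i → ¬ Hi α β T (.a i) x) ∧
      (g → ¬ Hi α β T (.b j) x) ∧ (el_Sa α T j k x ∨ el_Sb α T j k x) := by
  classical
  have hkT := el_neg_lt C hTa hj hjT hj2 hkn
  by_contra hcon
  push Not at hcon
  refine hac (fun v => (∃ i, v = .a i ∧ (SA i ∨ i = k)) ∨ (g ∧ v = .b j)) ?_ ?_ ?_ ?_
  · rintro v (⟨i, rfl, hi | rfl⟩ | ⟨_, rfl⟩)
    · exact (hSA i hi).1
    · exact hk
    · exact ⟨hj, by omega⟩
  · rintro z (⟨i, h, _⟩ | ⟨_, h⟩) <;> cases h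
  · exact ⟨.a k, Or.inl ⟨k, rfl, Or.inr rfl⟩⟩
  · -- closedness
    have key : ∀ x, ((SA x) ∨ (g ∧ x = j)) →
        ((∃ i, SA i ∧ Hi α β T (.a i) x) ∨ (g ∧ Hi α β T (.b j) x) ∨ Hi α β T (.a k) x) := by
      intro x hx
      by_contra hno
      push Not at hno
      obtain ⟨n1, n2, n3⟩ := hno
      have hxp : 0 < vv α β T j x := by
        rcases hcl x (by tauto) with ⟨i, hi, h⟩ | ⟨hg, h⟩ | h
        · exact absurd h (n1 i hi)
        · exact absurd h (n2 hg)
        · exact h
      have hxT : x < T := by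
        rcases hx with hx | hx
        · exact (hSA x hx).2
        · omega
      have hxa : Act α x ∨ x = j := by
        rcases hx with hx | hx
        · exact Or.inl (hSA x hx).1
        · exact Or.inr hx.2
      rcases el_E1 C hTa hj hjT hja hj2 hk hkT hkn hxT hxa hxp with h | h | h
      · exact n3 h
      · rcases hx with hx | hx
        · exact (hcon x hx hxT (hSA x hx).1 hxp n1 n2).1 h
        · omega
      · rcases hx with hx | hx
        · exact (hcon x hx hxT (hSA x hx).1 hxp n1 n2).2 h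
        · omega
    have conv : ∀ c, ((∃ i, SA i ∧ Hi α β T (.a i) c) ∨ (g ∧ Hi α β T (.b j) c) ∨
        Hi α β T (.a k) c) → ∃ y, ((∃ i, y = V.a i ∧ (SA i ∨ i = k)) ∨ (g ∧ y = .b j)) ∧
          Hi α β T y c := by
      rintro c (⟨i, hi, h⟩ | ⟨hg, h⟩ | h)
      · exact ⟨.a i, Or.inl ⟨i, rfl, Or.inl hi⟩, h⟩
      · exact ⟨.b j, Or.inr ⟨hg, rfl⟩, h⟩
      · exact ⟨.a k, Or.inl ⟨k, rfl, Or.inr rfl⟩, h⟩
    rintro v (⟨i, rfl, hi | rfl⟩ | ⟨hg, rfl⟩)
    · exact conv i (key i (Or.inl hi))
    · refine conv i ?_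
      show (∃ i', SA i' ∧ Hi α β T (.a i') i) ∨ (g ∧ Hi α β T (.b j) i) ∨ Hi α β T (.a i) i
      rcases hcl i (Or.inr (Or.inr hkn)) with h | h | h
      · exact Or.inl h
      · exact Or.inr (Or.inl h)
      · omega
    · exact conv j (key j (Or.inr ⟨hg, rfl⟩))

/-- Uniqueness of the active negative point. -/
theorem el_unique (C : Ctr α β T) (hTa : Act α T) {j k₁ k₂ x₁ x₂ : ℕ}
    (h₁ : Act α k₁) (h₂ : Act α k₂) (hk₁ : k₁ < T) (hk₂ : k₂ < T) (hx₂ : x₂ < T)
    (s₁ : el_Sa α T j k₁ x₁ ∨ el_Sb α T j k₁ x₁) (s₂ : el_Sa α T j k₂ x₂ ∨ el_Sb α T j k₂ x₂)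
    (hlt : k₁ < k₂) : False := by
  have a1 := h₂.lt C.pa hlt
  have a2 := h₁.gt C.pa hlt
  have a3 := hTa.lt C.pa hk₁
  have a4 := hTa.lt C.pa hk₂
  have a5 := hTa.lt C.pa hx₂
  rcases s₁ with ⟨p1, p2, p3, p4, p5⟩ | ⟨p1, p2, p3, p4, p5⟩
  · rcases s₂ with ⟨q1, q2, q3, q4, q5⟩ | ⟨q1, q2, q3, q4, q5⟩
    · omega
    · have b1 := C.pa.lip_of_le (show k₁ ≤ x₂ by omega)
      have b2 := C.pa.lip_of_le (show x₁ ≤ k₁ by omega)
      have b3 := C.pa.le_of_le (show k₁ ≤ x₂ by omega)
      have b4 := C.pa.lip_of_le (show x₂ ≤ T by omega)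
      have b5 := C.pa.le_self x₁
      omega
  · rcases s₂ with ⟨q1, q2, q3, q4, q5⟩ | ⟨q1, q2, q3, q4, q5⟩
    · omega
    · omega

/-- Module EL (elimination, left case). -/
theorem elimL (C : Ctr α β T) (hac : Acyc α β T) (hTa : Act α T) (j : ℕ)
    (hj : Act β j) (hjT : j < T) (hj0 : β j < j) (hja : α j < j)
    (hj2 : T + β j = j + β T + 1)
    (hlastA : ∀ i, Act α i → i ≤ T) (hlastB : ∀ i, Act β i → i ≤ T)
    (SA : ℕ → Prop) (g : Prop)
    (hSA : ∀ i, SA i → Act α i ∧ i < T)
    (hcl : ∀ k, ((SA k) ∨ (g ∧ k = j) ∨ vv α β T j k < 0) →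
      ((∃ i, SA i ∧ Hi α β T (.a i) k) ∨ (g ∧ Hi α β T (.b j) k) ∨ 0 < vv α β T j k)) :
    False := by
  classical
  obtain ⟨p0, hp0⟩ := el_neg_ex C hTa hj hjT
  obtain ⟨k, hk, hkn, -⟩ := el_neg_act C hp0
  have hkT := el_neg_lt C hTa hj hjT hj2 hkn
  obtain ⟨x, hSx, hxT, hx, hxp, nxa, nxb, hs⟩ := el_step C hac hTa hj hjT hja hj2 hSA hcl hk hkn
  have huniq : ∀ i, Act α i → vv α β T j i < 0 → i = k := by
    intro i hi hin
    have hiT := el_neg_lt C hTa hj hjT hj2 hin
    obtain ⟨x', -, hxT', -, -, -, -, hs'⟩ := el_step C hac hTa hj hjT hja hj2 hSA hcl hi hin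
    rcases Nat.lt_trichotomy i k with h | h | h
    · exact (el_unique C hTa hi hk hiT hkT hxT hs' hs h).elim
    · exact h
    · exact (el_unique C hTa hk hi hkT hiT hxT' hs hs' h).elim
  have hadj : ∀ p, vv α β T j p < 0 → p < T ∧ ((k ≤ p ∧ α k = α p) ∨ (p ≤ k ∧ α k + p = α p + k)) := by
    intro p hp
    refine ⟨el_neg_lt C hTa hj hjT hj2 hp, ?_⟩
    obtain ⟨i, hi, hin, had⟩ := el_neg_act C hp
    have := huniq i hi hin
    subst this
    exact had
  have d1 := C.DT
  have d2 := hj.pos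
  have d3 := C.pb.le_self j
  have d4 := hTa.pos
  have d5 := C.pa.le_self k
  have d6 := C.pa.le_self x
  have d7 := hTa.lt C.pa hkT
  have d8 := hTa.lt C.pa hxT
  have d9 := C.pa.le_self j
  have d10 := C.pa.le_self T
  -- a predecessor of `k`
  have hpred : (∃ i, SA i ∧ Hi α β T (.a i) k) ∨ (g ∧ Hi α β T (.b j) k) := by
    rcases hcl k (Or.inr (Or.inr hkn)) with h | h | h
    · exact Or.inl h
    · exact Or.inr h
    · omega
  rcases hs with ⟨s1, s2, s3, s4, s5⟩ | ⟨s1, s2, s3, s4, s5⟩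
  · -- case `Sa`
    rcases hpred with ⟨i, hi, hik⟩ | ⟨hg, hbk⟩
    · obtain ⟨hia, hiT⟩ := hSA i hi
      rcases Nat.lt_trichotomy i k with hlt | heq | hgt
      · rw [el_hi_a_gt hlt hia.pos hkT.le] at hik
        by_cases hix : i = x
        · subst hix
          refine el_cert C hTa hj hjT hx hxp ?_
          intro p hp
          obtain ⟨hpT, hadj'⟩ := hadj p hp
          have e1 := C.pa.rel i p
          have e4 := hx.gt C.pa s1
          rcases Nat.lt_or_ge j p with hjp | hjp
          · exfalso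
            rw [el_vv_mid hjp.le hpT.le d3 d2 d4] at hp
            have e2 := C.pa.le_self p
            omega
          · have hp' := hp
            rw [el_vv_le hjp hpT.le] at hp
            have hip : i < p := by omega
            rw [el_vv_le hjp hpT.le, el_hi_a_gt hip hia.pos hpT.le]
            have e2 := C.pa.le_self p
            omega
        · have f1 : α i ≠ α x := by
            intro h
            rcases Nat.lt_or_ge i x with hlt' | hge'
            · have := hx.lt C.pa hlt'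
              omega
            · have := hia.lt C.pa (show x < i by omega)
              omega
          have f2 := hk.lt C.pa hlt
          have f3 := C.pa.le_self i
          rcases Nat.eq_or_lt_of_le f3 with heq | hlt2
          · -- `u i = 0`
            have g1 : ¬ Hi α β T (.a k) i := by
              rw [el_hi_a_lt hlt hiT.le]; omega
            rcases hcl i (Or.inl hi) with ⟨i', hi', h⟩ | ⟨hg, h⟩ | h
            · unfold Hi at h
              simp only [bs, pth, Mx] at h
              omega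
            · -- 2-cycle with `b j`
              have v1 : Val α β T (.a i) := hia
              have v2 : Val α β T (.b j) := ⟨hj, by omega⟩
              refine C.no2cyc v1 v2 ?_ h
              show Hi α β T (.a i) j
              rw [el_hi_a_gt (by omega) hia.pos hjT.le]
              have := C.pa.lip_of_le s2
              have := hTa.lt C.pa hjT
              omega
            · rw [el_vv_le (by omega) hiT.le] at h
              have := hTa.lt C.pa hiT
              omega
          · have v1 : Val α β T (.a i) := hia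
            have v2 : Val α β T (.a k) := hk
            refine C.no2cyc v1 v2 ?_ ?_
            · show Hi α β T (.a i) k
              rw [el_hi_a_gt hlt hia.pos hkT.le]
              exact hik
            · show Hi α β T (.a k) i
              rw [el_hi_a_lt hlt hiT.le]
              have := hTa.lt C.pa hiT
              omega
      · subst heq
        have v1 : Val α β T (.a i) := hia
        have := C.at_crd v1
        unfold Hi at hik
        simp only [crd] at this
        omega
      · rw [el_hi_a_lt hgt hkT.le] at hik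
        refine nxa i hi ?_
        rw [el_hi_a_lt (by omega) hxT.le]
        omega
    · refine nxb hg ?_
      have e1 := C.hI hx (by omega)
      rw [el_hi_b_lt s2] at hbk
      rw [el_hi_b_lt (by omega)]
      have := C.pb.le_of_le s1.le
      omega
  · -- case `Sb`
    rcases hpred with ⟨i, hi, hik⟩ | ⟨hg, hbk⟩
    · obtain ⟨hia, hiT⟩ := hSA i hi
      rcases Nat.lt_trichotomy i k with hlt | heq | hgt
      · rw [el_hi_a_gt hlt hia.pos hkT.le] at hik
        refine nxa i hi ?_
        rw [el_hi_a_gt (by omega) hia.pos hxT.le]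
        omega
      · subst heq
        have v1 : Val α β T (.a i) := hia
        have := C.at_crd v1
        unfold Hi at hik
        simp only [crd] at this
        omega
      · rw [el_hi_a_lt hgt hkT.le] at hik
        by_cases hix : i = x
        · subst hix
          refine el_cert C hTa hj hjT hx hxp ?_
          intro p hp
          obtain ⟨hpT, hadj'⟩ := hadj p hp
          have e1 := C.pa.rel p k
          have e3 := C.pa.le_self p
          rcases Nat.lt_or_ge p j with hjp | hjp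
          · exfalso
            rw [el_vv_le hjp.le hpT.le] at hp
            have e2 := C.pa.rel j k
            have e4 := C.pa.rel p j
            omega
          · rw [el_vv_mid hjp hpT.le d3 d2 d4] at hp
            have hpi : p < i := by omega
            rw [el_vv_mid hjp hpT.le d3 d2 d4, el_hi_a_lt hpi hpT.le]
            omega
        · have f1 : i + α x ≠ x + α i := by
            intro h
            rcases Nat.lt_or_ge i x with hlt' | hge'
            · have := hia.gt C.pa hlt'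
              omega
            · have := hx.gt C.pa (show x < i by omega)
              omega
          have f2 := hk.gt C.pa hgt
          have f3 := C.pa.le_self i
          have v1 : Val α β T (.a i) := hia
          have v2 : Val α β T (.a k) := hk
          refine C.no2cyc v1 v2 ?_ ?_
          · show Hi α β T (.a i) k
            rw [el_hi_a_lt hgt hkT.le]
            exact hik
          · show Hi α β T (.a k) i
            rw [el_hi_a_gt hgt hk.pos hiT.le]
            have := hTa.lt C.pa hiT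
            omega
    · rw [el_hi_b_gt s1 d2] at hbk
      have := C.pb.rel j k
      have := C.pb.rel k T
      omega

end Pool.Agent.Work.MP_8ddad6_co
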