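import Pool.Agent.Work.MP_8ddad6_co.ElimDefs

namespace Pool.Agent.Work.MP_8ddad6_co

variable {α β : ℕ → ℕ} {T : ℕ}

/-- the least active point where `vv` is negative -/
def erK (α β : ℕ → ℕ) (T j k : ℕ) : Prop :=
  Act α k ∧ vv α β T j k < 0 ∧ ∀ k', k' < k → Act α k' → 0 ≤ vv α β T j k'

theorem er_nonneg (C : Ctr α β T) (hTa : Act α T) {j : ℕ} (hj : Act β j) (hTj : T < j)
    {k : ℕ} (hk : k ≤ T) : 0 ≤ vv α β T j k := by
  have h1 := C.DT
  have h2 := Act.rel C.pa hTa k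
  have h3 := Act.rel C.pb hj T
  have h4 := C.pa.le_self k
  have h5 := C.pb.le_self T
  have h6 := C.pa.rel k T
  simp only [vv, Mx]
  omega

theorem er_vv_ge (C : Ctr α β T) {j : ℕ} (hj : Act β j) (hTj : T < j)
    {k : ℕ} (hk : j ≤ k) (hTa : Act α T) :
    vv α β T j k = 2 * ((k : ℤ) - α k) - ((T : ℤ) - α T) - 2 - ((j : ℤ) - β j) := by
  have h2 := hTa.pos
  have h3 := hj.pos
  have h4 := C.pa.le_self T
  have h5 := C.pb.le_self j
  simp only [vv, Mx]
  omega

theorem er_act (C : Ctr α β T) {j p : ℕ} (hp : vv α β T j p < 0) :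
    ∃ i, Act α i ∧ vv α β T j i < 0 ∧ ((i ≤ p ∧ α i = α p) ∨ (p ≤ i ∧ α i + p = α p + i)) := by
  have h1 := uPath_Mx T (α T - 1)
  have h2 := uPath_Mx j (β j - 1)
  have hσ : UPath (fun k => (Mx T (α T - 1) k + Mx j (β j - 1) k) / 2) := by
    refine ⟨?_, ?_, ?_⟩
    · show (Mx T (α T - 1) 0 + Mx j (β j - 1) 0) / 2 = 0
      rw [h1.zero, h2.zero]
    · intro k
      have := h1.mono k
      have := h2.mono k
      show (Mx T (α T - 1) k + Mx j (β j - 1) k) / 2 ≤
        (Mx T (α T - 1) (k + 1) + Mx j (β j - 1) (k + 1)) / 2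
      omega
    · intro k
      have := h1.lip k
      have := h2.lip k
      show (Mx T (α T - 1) (k + 1) + Mx j (β j - 1) (k + 1)) / 2 ≤
        (Mx T (α T - 1) k + Mx j (β j - 1) k) / 2 + 1
      omega
  have hp' : (fun k => (Mx T (α T - 1) k + Mx j (β j - 1) k) / 2) p < α p := by
    show (Mx T (α T - 1) p + Mx j (β j - 1) p) / 2 < α p
    simp only [vv] at hp
    omega
  obtain ⟨i, hi, hlt, hadj⟩ := exists_act C.pa C.ca hσ hp'
  refine ⟨i, hi, ?_, hadj⟩
  have hlt' : (Mx T (α T - 1) i + Mx j (β j - 1) i) / 2 < α i := hlt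
  simp only [vv]
  omega

theorem er_exists (C : Ctr α β T) (hTa : Act α T) {j : ℕ} (hj : Act β j) (hTj : T < j) :
    ∃ k, erK α β T j k := by
  classical
  have hVT : Val α β T (.a T) := hTa
  have hVj : Val α β T (.b j) := ⟨hj, by omega⟩
  obtain ⟨p, hp⟩ := C.no2 _ _ (uPath_pth (.a T)) (uPath_pth (.b j)) (C.lose hVT) (C.lose hVj)
    2 0 rfl
  have hp' : vv α β T j p < 0 := by
    have e1 : pth α β T (.a T) p = Mx T (α T - 1) p := by
      simp only [pth, Mx]
      omega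
    have e2 : pth α β T (.b j) p = Mx j (β j - 1) p := rfl
    rw [e1, e2] at hp
    simp only [vv]
    omega
  obtain ⟨i, hi, hlt, -⟩ := er_act C hp'
  have hex : ∃ k, Act α k ∧ vv α β T j k < 0 := ⟨i, hi, hlt⟩
  refine ⟨Nat.find hex, (Nat.find_spec hex).1, (Nat.find_spec hex).2, ?_⟩
  intro k' hk' hak'
  have := Nat.find_min hex hk'
  by_contra hcon
  exact this ⟨hak', by omega⟩

theorem er_gt (C : Ctr α β T) (hTa : Act α T) {j : ℕ} (hj : Act β j) (hTj : T < j) {k : ℕ}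
    (hk : vv α β T j k < 0) : T < k := by
  by_contra hcon
  have := er_nonneg C hTa hj hTj (k := k) (by omega)
  omega

theorem er_hi_a (C : Ctr α β T) (hTa : Act α T) {k c : ℕ} (hc : T < c) (hk : T < k)
    (hka : Act α k)
    (h : (c < k ∧ α c + 1 < α k) ∨ (k < c ∧ α c + k + 1 < α k + c)) : Hi α β T (.a k) c := by
  have h1 := Act.rel C.pa hTa c
  have h2 := Act.rel C.pa hka c
  have h3 := C.pa.le_self T
  have h4 := C.pa.le_self c
  have h5 := C.pa.le_self k
  simp only [Hi, bs, pth, Mx]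
  omega

theorem er_hi_a' (C : Ctr α β T) {k c : ℕ} (hka : Act α k)
    (h : Hi α β T (.a k) c) : (c < k ∧ α c + 1 < α k) ∨ (k < c ∧ α c + k + 1 < α k + c) := by
  have h1 := hka.pos
  have h4 := C.pa.rel c k
  simp only [Hi, bs, pth, Mx] at h
  rcases Nat.lt_trichotomy c k with hlt | heq | hgt
  · left
    omega
  · subst heq
    omega
  · right
    omega

theorem er_hi_b (C : Ctr α β T) {k c : ℕ} (hc : T < c) (hk : T < k)
    (hka : Act β k)
    (h : (c < k ∧ β c + 1 < β k) ∨ (k < c ∧ β c + k + 1 < β k + c)) : Hi α β T (.b k) c := by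
  have h1 := Act.rel C.pb C.actT c
  have h2 := Act.rel C.pb hka c
  have h3 := C.pb.le_self T
  have h4 := C.pb.le_self c
  have h5 := C.pb.le_self k
  simp only [Hi, bs, pth, Mx]
  omega

theorem er_hi_b' (C : Ctr α β T) {k c : ℕ} (hka : Act β k)
    (h : Hi α β T (.b k) c) : (c < k ∧ β c + 1 < β k) ∨ (k < c ∧ β c + k + 1 < β k + c) := by
  have h1 := hka.pos
  have h4 := C.pb.rel c k
  simp only [Hi, bs, pth, Mx] at h
  rcases Nat.lt_trichotomy c k with hlt | heq | hgt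
  · left
    omega
  · subst heq
    omega
  · right
    omega

theorem er_E1 (C : Ctr α β T) (hTa : Act α T) {j : ℕ} (hj : Act β j) (hTj : T < j)
    (hor : β T = T ∨ β j = β T + 1) {k c : ℕ} (hk : Act α k) (hTk : T < k)
    (hvk : vv α β T j k < 0) (hTc : T < c) (hvc : 0 < vv α β T j c) :
    Hi α β T (.a k) c ∨ (j ≤ k ∧ k < c ∧ c + α k = k + α c + 1 ∧ vv α β T j k = -1) := by
  have a1 := C.DT
  have a2 := hTa.pos
  have a4 := Act.rel C.pa hk c
  have a8 := C.pa.rel c k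
  have a9 := C.pa.le_self T
  have b1 := C.pb.le_self T
  have b2 := C.pb.le_self j
  have b3 := C.pa.le_self k
  have b4 := C.pa.le_self c
  have b5 := hj.pos
  by_cases hhi : Hi α β T (.a k) c
  · exact Or.inl hhi
  right
  have hn : ¬ ((c < k ∧ α c + 1 < α k) ∨ (k < c ∧ α c + k + 1 < α k + c)) :=
    fun h => hhi (er_hi_a C hTa hTc hTk hk h)
  have hck : c ≠ k := by
    rintro rfl
    omega
  simp only [vv, Mx] at hvk hvc ⊢
  rcases Nat.lt_or_ge c k with hlt | hge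
  · exfalso
    have e1 : α k = α c + 1 := by omega
    rcases Nat.lt_or_ge k j with hkj | hkj
    · rcases hor with ho | ho <;> omega
    · rcases Nat.lt_or_ge c j with hcj | hcj
      · rcases hor with ho | ho <;> omega
      · omega
  · have hkc : k < c := by omega
    have e1 : c + α k = k + α c + 1 := by omega
    rcases Nat.lt_or_ge k j with hkj | hkj
    · exfalso
      rcases Nat.lt_or_ge c j with hcj | hcj
      · rcases hor with ho | ho <;> omega
      · rcases hor with ho | ho <;> omega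
    · refine ⟨hkj, hkc, e1, ?_⟩
      omega

theorem er_E3 (C : Ctr α β T) (hTa : Act α T) {j : ℕ} (hj : Act β j) (hTj : T < j)
    {k i : ℕ} (hk : erK α β T j k) (hjk : j ≤ k) (hv : vv α β T j k = -1) (hki : k < i)
    (hone : i + α k = k + α i + 1) (y : V) (hy : Val α β T y) (hci : crd T y = i)
    (hh : Hi α β T y k) (hmon : ∀ p, T < p → p ≤ k → Hi α β T y p) : False := by
  have hVT : Val α β T (.a T) := hTa
  have hVj : Val α β T (.b j) := ⟨hj, by omega⟩
  obtain ⟨p, hp⟩ := C.no3 _ _ _ (uPath_pth (.a T)) (uPath_pth (.b j)) (uPath_pth y)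
    (C.lose hVT) (C.lose hVj) (C.lose hy) (2 + (1 - nb y)) (nb y)
    (by have := nb_le y; omega)
  have e1 : pth α β T (.a T) p = Mx T (α T - 1) p := by
    simp only [pth, Mx]
    omega
  have e2 : pth α β T (.b j) p = Mx j (β j - 1) p := rfl
  have e3 : (2 + (1 - nb y)) * α p + nb y * β p = 2 * α p + bs α β y p := by
    rw [bs_eq]; ring
  rw [e1, e2, e3] at hp
  have hp' : vv α β T j p + (pth α β T y p : ℤ) - (bs α β y p : ℤ) < 0 := by
    simp only [vv]
    omega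
  by_cases hpc : p = crd T y
  · have h1 := C.at_crd hy
    rw [← hpc] at h1
    have h2 := er_vv_ge C hj hTj hjk hTa
    have h3 := er_vv_ge C hj hTj (k := p) (by omega) hTa
    have h4 : p = i := by omega
    subst h4
    omega
  · have h1 := C.off hy hpc
    have hvp : vv α β T j p < 0 := by omega
    obtain ⟨i0, hi0, hvi0, hadj⟩ := er_act C hvp
    have hi0k : k ≤ i0 := by
      by_contra hcon
      have := hk.2.2 i0 (by omega) hi0
      omega
    have h2 := er_vv_ge C hj hTj hjk hTa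
    have h3 := er_vv_ge C hj hTj (k := i0) (by omega) hTa
    have h4 := Act.rel C.pa hk.1 i0
    have h5 : i0 = k := by omega
    subst h5
    have hTp := er_gt C hTa hj hTj hvp
    have hpk : p ≤ i0 := by
      by_contra hcon
      have := er_vv_ge C hj hTj (k := p) (by omega) hTa
      omega
    have hhp := hmon p hTp hpk
    unfold Hi at hhp
    have h6 : vv α β T j p = -1 := by
      have h7 := C.pa.le_self T
      have h8 := C.pa.le_self i0
      have h9 := C.pb.le_self j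
      have g1 := hj.pos
      have g2 := hTa.pos
      have g3 := C.pa.le_self p
      have g4 : α i0 + p = α p + i0 := by omega
      rcases Nat.lt_or_ge p j with hlt | hge
      · exfalso
        simp only [vv, Mx] at hvp hv
        omega
      · have := er_vv_ge C hj hTj (k := p) hge hTa
        omega
    omega

/-- the closed set -/
def erX (α β : ℕ → ℕ) (T : ℕ) (SA SB : ℕ → Prop) (g : Prop) : V → Prop
  | .a i => SA i ∨ ∃ j, SB j ∧ erK α β T j i
  | .b j => g ∧ SB j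
  | .t _ => False
  | .u _ => False

theorem er_E3a (C : Ctr α β T) (hTa : Act α T) {j : ℕ} (hj : Act β j) (hTj : T < j)
    {k i : ℕ} (hk : erK α β T j k) (hjk : j ≤ k) (hv : vv α β T j k = -1)
    (hi : Act α i) (hTi : T < i) (hki : k < i)
    (hh : Hi α β T (.a i) k) : False := by
  have h1 := er_hi_a' C hi hh
  have hTk := er_gt C hTa hj hTj hk.2.1
  have h2 := Act.rel C.pa hk.1 i
  by_cases h3 : i + α k = k + α i + 1
  · refine er_E3 C hTa hj hTj hk hjk hv hki h3 (.a i) hi rfl hh ?_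
    intro p hTp hpk
    have h4 := C.pa.le_of_le hpk
    exact er_hi_a C hTa hTp hTi hi (Or.inl ⟨by omega, by omega⟩)
  · have h4 : Hi α β T (.a k) i := er_hi_a C hTa hTi hTk hk.1 (Or.inr ⟨hki, by omega⟩)
    exact C.no2cyc (x := .a k) (y := .a i) hk.1 hi h4 hh

theorem er_E3b (C : Ctr α β T) (hTa : Act α T) {j : ℕ} (hj : Act β j) (hTj : T < j)
    {k i : ℕ} (hk : erK α β T j k) (hjk : j ≤ k) (hv : vv α β T j k = -1)
    (hi : Act β i) (hTi : T < i) (hki : k < i)
    (hh : Hi α β T (.b i) k) : False := by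
  have h1 := er_hi_b' C hi hh
  have hTk := er_gt C hTa hj hTj hk.2.1
  have h2 := Act.rel C.pa hk.1 i
  have hVi : Val α β T (.b i) := ⟨hi, by omega⟩
  by_cases h3 : i + α k = k + α i + 1
  · refine er_E3 C hTa hj hTj hk hjk hv hki h3 (.b i) hVi rfl hh ?_
    intro p hTp hpk
    have h4 := C.pb.le_of_le hpk
    exact er_hi_b C hTp hTi hi (Or.inl ⟨by omega, by omega⟩)
  · have h4 : Hi α β T (.a k) i := er_hi_a C hTa hTi hTk hk.1 (Or.inr ⟨hki, by omega⟩)
    exact C.no2cyc (x := .a k) (y := .b i) hk.1 hVi h4 hh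

theorem er_closed (C : Ctr α β T) (hTa : Act α T)
    (SA SB : ℕ → Prop) (g : Prop)
    (hSA : ∀ i, SA i → Act α i ∧ T < i)
    (hSB : ∀ j, SB j → Act β j ∧ T < j ∧ (β T = T ∨ β j = β T + 1))
    (hcl : ∀ k, ((SA k) ∨ (g ∧ SB k) ∨ (∃ j, SB j ∧ vv α β T j k < 0)) →
      ((∃ i, SA i ∧ Hi α β T (.a i) k) ∨ (g ∧ ∃ j, SB j ∧ Hi α β T (.b j) k) ∨
        (∃ j, SB j ∧ 0 < vv α β T j k))) {c : ℕ} (hTc : T < c)
    (hc : (SA c) ∨ (g ∧ SB c) ∨ (∃ j, SB j ∧ vv α β T j c < 0)) :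
    ∃ y, erX α β T SA SB g y ∧ Hi α β T y c := by
  rcases hcl c hc with ⟨i, hi, hh⟩ | ⟨hg, j, hj, hh⟩ | ⟨j, hSj, hv⟩
  · exact ⟨.a i, Or.inl hi, hh⟩
  · exact ⟨.b j, ⟨hg, hj⟩, hh⟩
  obtain ⟨hj, hTj, hor⟩ := hSB j hSj
  obtain ⟨k, hk⟩ := er_exists C hTa hj hTj
  have hTk := er_gt C hTa hj hTj hk.2.1
  rcases er_E1 C hTa hj hTj hor hk.1 hTk hk.2.1 hTc hv with hhi | ⟨hjk, hkc, hone, hvk⟩
  · exact ⟨.a k, Or.inr ⟨j, hSj, hk⟩, hhi⟩
  rcases hcl k (Or.inr (Or.inr ⟨j, hSj, hk.2.1⟩)) with ⟨i, hi, hh⟩ | ⟨hg, j', hj', hh⟩ |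
    ⟨j', hSj', hv'⟩
  · obtain ⟨hia, hTi⟩ := hSA i hi
    rcases er_hi_a' C hia hh with ⟨hlt, hlt2⟩ | ⟨hlt, hlt2⟩
    · exact (er_E3a C hTa hj hTj hk hjk hvk hia hTi hlt hh).elim
    · refine ⟨.a i, Or.inl hi, er_hi_a C hTa hTc hTi hia (Or.inr ⟨by omega, ?_⟩)⟩
      have := C.pa.lip_of_le (show k ≤ c by omega)
      omega
  · obtain ⟨hjb, hTj', -⟩ := hSB j' hj'
    rcases er_hi_b' C hjb hh with ⟨hlt, hlt2⟩ | ⟨hlt, hlt2⟩
    · exact (er_E3b C hTa hj hTj hk hjk hvk hjb hTj' hlt hh).elim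
    · refine ⟨.b j', ⟨hg, hj'⟩, er_hi_b C hTc hTj' hjb (Or.inr ⟨by omega, ?_⟩)⟩
      have := C.pb.lip_of_le (show k ≤ c by omega)
      omega
  · obtain ⟨hjb, hTj', hor'⟩ := hSB j' hSj'
    obtain ⟨k', hk'⟩ := er_exists C hTa hjb hTj'
    have hTk' := er_gt C hTa hjb hTj' hk'.2.1
    rcases Nat.lt_or_ge k j' with hlt | hge
    · rcases er_E1 C hTa hjb hTj' hor' hk'.1 hTk' hk'.2.1 hTk hv' with hhi | ⟨h1, h2, -, -⟩
      · rcases er_hi_a' C hk'.1 hhi with ⟨hl, hl2⟩ | ⟨hl, hl2⟩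
        · exact (er_E3a C hTa hj hTj hk hjk hvk hk'.1 hTk' hl hhi).elim
        · refine ⟨.a k', Or.inr ⟨j', hSj', hk'⟩,
            er_hi_a C hTa hTc hTk' hk'.1 (Or.inr ⟨by omega, ?_⟩)⟩
          have := C.pa.lip_of_le (show k ≤ c by omega)
          omega
      · omega
    · have hvc' : 0 < vv α β T j' c := by
        have e1 := er_vv_ge C hjb hTj' hge hTa
        have e2 := er_vv_ge C hjb hTj' (k := c) (by omega) hTa
        have := C.pa.lip_of_le (show k ≤ c by omega)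
        omega
      rcases er_E1 C hTa hjb hTj' hor' hk'.1 hTk' hk'.2.1 hTc hvc' with hhi | ⟨h1, h2, h3, h4⟩
      · exact ⟨.a k', Or.inr ⟨j', hSj', hk'⟩, hhi⟩
      · exfalso
        have e1 := Act.rel C.pa hk.1 k'
        have e2 := Act.rel C.pa hk'.1 k
        have e3 : k' = k := by omega
        subst e3
        omega

/-- Module ER (elimination, right case).  `SA` are `α`-vertices, `SB` are `β`-vertices, all to the
right of `T`; `g` says whether the `β`-vertices themselves belong to the closed set. -/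
theorem elimR (C : Ctr α β T) (hac : Acyc α β T) (hTa : Act α T)
    (SA SB : ℕ → Prop) (g : Prop)
    (hSA : ∀ i, SA i → Act α i ∧ T < i)
    (hSB : ∀ j, SB j → Act β j ∧ T < j ∧ (β T = T ∨ β j = β T + 1))
    (hne : ∃ j, SB j)
    (hcl : ∀ k, ((SA k) ∨ (g ∧ SB k) ∨ (∃ j, SB j ∧ vv α β T j k < 0)) →
      ((∃ i, SA i ∧ Hi α β T (.a i) k) ∨ (g ∧ ∃ j, SB j ∧ Hi α β T (.b j) k) ∨
        (∃ j, SB j ∧ 0 < vv α β T j k))) : False := by
  refine hac (erX α β T SA SB g) ?_ ?_ ?_ ?_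
  · intro x hx
    cases x with
    | a i =>
      rcases hx with hi | ⟨j, -, hk⟩
      · exact (hSA i hi).1
      · exact hk.1
    | b j =>
      have h := hSB j hx.2
      exact ⟨h.1, by omega⟩
    | t e => exact hx.elim
    | u z => exact hx.elim
  · intro z hz
    exact hz
  · obtain ⟨j, hSj⟩ := hne
    obtain ⟨hj, hTj, -⟩ := hSB j hSj
    obtain ⟨k, hk⟩ := er_exists C hTa hj hTj
    exact ⟨.a k, Or.inr ⟨j, hSj, hk⟩⟩
  · intro x hx
    cases x with
    | a i =>
      rcases hx with hi | ⟨j, hSj, hk⟩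
      · exact er_closed C hTa SA SB g hSA hSB hcl (hSA i hi).2 (Or.inl hi)
      · have h := hSB j hSj
        exact er_closed C hTa SA SB g hSA hSB hcl (er_gt C hTa h.1 h.2.1 hk.2.1)
          (Or.inr (Or.inr ⟨j, hSj, hk.2.1⟩))
    | b j =>
      have h := hSB j hx.2
      exact er_closed C hTa SA SB g hSA hSB hcl h.2.1 (Or.inr (Or.inl hx))
    | t e => exact hx.elim
    | u z => exact hx.elim

end Pool.Agent.Work.MP_8ddad6_co
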