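import Pool.Agent.Work.MP_8ddad6_co.Game

open Finset Classical

namespace Pool.Agent.Work.MP_8ddad6_co

universe v

variable {N : Type v} [Fintype N] [DecidableEq N] (G : SGame N)

/-- multiplicity of a player in a family of coalitions -/
noncomputable def exCnt {m : ℕ} (Z : Fin m → Finset N) (p : N) : ℕ :=
  (Finset.univ.filter (fun i => p ∈ Z i)).card

theorem ex_sum {n m : ℕ} (e : N ≃ Fin n) (Z : Fin m → Finset N) (k : ℕ) :
    ∑ i, pathOf e (Z i) k = ∑ x ∈ univ.filter (fun x : N => (e x).val < k), exCnt Z x := by
  have h1 : ∀ i, pathOf e (Z i) k =
      ∑ x ∈ univ.filter (fun x : N => (e x).val < k), if x ∈ Z i then 1 else 0 := by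
    intro i
    rw [← Finset.card_filter]
    unfold pathOf
    congr 1
    ext x
    simp only [mem_filter, mem_univ, true_and]
    tauto
  simp_rw [h1]
  rw [Finset.sum_comm]
  refine Finset.sum_congr rfl fun x _ => ?_
  unfold exCnt
  rw [Finset.card_filter]

theorem ex_path_erase {n : ℕ} (e : N ≃ Fin n) (S : Finset N) (p : N) (hp : p ∈ S) (k : ℕ) :
    pathOf e (S.erase p) k + (if (e p).val < k then 1 else 0) = pathOf e S k := by
  unfold pathOf
  rw [Finset.filter_erase]
  split_ifs with h
  · have hm : p ∈ S.filter (fun x => (e x).val < k) := mem_filter.2 ⟨hp, h⟩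
    rw [Finset.card_erase_add_one hm]
  · have hm : p ∉ S.filter (fun x => (e x).val < k) := fun h1 => h (mem_filter.1 h1).2
    rw [Finset.erase_eq_of_notMem hm, Nat.add_zero]

theorem ex_path_insert {n : ℕ} (e : N ≃ Fin n) (S : Finset N) (q : N) (hq : q ∉ S) (k : ℕ) :
    pathOf e (insert q S) k = pathOf e S k + (if (e q).val < k then 1 else 0) := by
  unfold pathOf
  rw [Finset.filter_insert]
  split_ifs with h
  · have hm : q ∉ S.filter (fun x => (e x).val < k) := fun h1 => hq (mem_filter.1 h1).1
    rw [Finset.card_insert_of_notMem hm]
  · rw [Nat.add_zero]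

theorem ex_update {n m : ℕ} (e : N ≃ Fin n) (Z : Fin m → Finset N) (i : Fin m) (T : Finset N)
    (k : ℕ) : ∑ j, pathOf e (Function.update Z i T j) k + pathOf e (Z i) k =
      ∑ j, pathOf e (Z j) k + pathOf e T k := by
  rw [← Finset.add_sum_erase univ (fun j => pathOf e (Function.update Z i T j) k) (mem_univ i),
    ← Finset.add_sum_erase univ (fun j => pathOf e (Z j) k) (mem_univ i)]
  have h1 : ∑ j ∈ univ.erase i, pathOf e (Function.update Z i T j) k =
      ∑ j ∈ univ.erase i, pathOf e (Z j) k := by
    refine Finset.sum_congr rfl fun j hj => ?_
    rw [Function.update_of_ne (Finset.ne_of_mem_erase hj)]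
  rw [h1]
  simp only [Function.update_self]
  omega

/-- the measure -/
noncomputable def exMu {n m : ℕ} (e : N ≃ Fin n) (X Y : Fin m → Finset N) : ℕ :=
  ∑ k ∈ range (n + 1), (∑ i, pathOf e (Y i) k - ∑ i, pathOf e (X i) k)

theorem ex_aux {n m : ℕ} (e : N ≃ Fin n) (he : ∀ p q : N, e p ≤ e q → G.Pref p q) (w : ℕ) :
    ∀ (X Y : Fin m → Finset N), exMu e X Y = w → (∀ i, G.Win (X i)) → (∀ i, ¬ G.Win (Y i)) →
    (∀ k, ∑ i, pathOf e (X i) k ≤ ∑ i, pathOf e (Y i) k) →
    ∃ X' Y' : Fin m → Finset N, (∀ i, G.Win (X' i)) ∧ (∀ i, ¬ G.Win (Y' i)) ∧
      ∀ p : N, exCnt X' p = exCnt Y' p := by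
  induction w using Nat.strong_induction_on with
  | _ w ih =>
    intro X Y hw hX hY hdom
    by_cases hall : ∀ p, exCnt X p = exCnt Y p
    · exact ⟨X, Y, hX, hY, hall⟩
    push Not at hall
    -- a general step
    have step : ∀ X' Y' : Fin m → Finset N, (∀ i, G.Win (X' i)) → (∀ i, ¬ G.Win (Y' i)) →
        (∀ k, ∑ i, pathOf e (X' i) k ≤ ∑ i, pathOf e (Y' i) k) →
        (∀ k, ∑ i, pathOf e (Y' i) k + ∑ i, pathOf e (X i) k ≤
          ∑ i, pathOf e (Y i) k + ∑ i, pathOf e (X' i) k) →
        (∃ k ≤ n, ∑ i, pathOf e (Y' i) k + ∑ i, pathOf e (X i) k <
          ∑ i, pathOf e (Y i) k + ∑ i, pathOf e (X' i) k) →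
        ∃ X' Y' : Fin m → Finset N, (∀ i, G.Win (X' i)) ∧ (∀ i, ¬ G.Win (Y' i)) ∧
          ∀ p : N, exCnt X' p = exCnt Y' p := by
      intro X' Y' hX' hY' hdom' hle hlt
      refine ih (exMu e X' Y') ?_ X' Y' rfl hX' hY' hdom'
      rw [← hw]
      unfold exMu
      obtain ⟨k0, hk0, hk0'⟩ := hlt
      refine Finset.sum_lt_sum (fun k _ => ?_) ⟨k0, mem_range.2 (by omega), ?_⟩
      · have h1 := hle k
        have h2 := hdom k
        have h3 := hdom' k
        omega
      · have h2 := hdom k0
        have h3 := hdom' k0
        omega
    obtain ⟨p, hp, hpmin⟩ := Finset.exists_min_image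
      (univ.filter (fun p => exCnt X p ≠ exCnt Y p)) (fun p => (e p).val)
      (by obtain ⟨p, hp⟩ := hall; exact ⟨p, by simpa using hp⟩)
    simp only [mem_filter, mem_univ, true_and] at hp hpmin
    have hbefore : ∀ x, (e x).val < (e p).val → exCnt X x = exCnt Y x := by
      intro x hx
      by_contra hne
      have := hpmin x hne
      omega
    have hpgt : exCnt X p < exCnt Y p := by
      by_contra hge
      have hlt : exCnt Y p < exCnt X p := by omega
      have h1 := hdom ((e p).val + 1)
      rw [ex_sum, ex_sum] at h1
      have h2 : ∑ x ∈ univ.filter (fun x : N => (e x).val < (e p).val + 1), exCnt Y x <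
          ∑ x ∈ univ.filter (fun x : N => (e x).val < (e p).val + 1), exCnt X x := by
        refine Finset.sum_lt_sum (fun x hx => ?_) ⟨p, by simp, hlt⟩
        rw [mem_filter] at hx
        by_cases hxp : x = p
        · rw [hxp]; exact hlt.le
        · have : (e x).val ≠ (e p).val := fun h => hxp (e.injective (Fin.ext h))
          rw [hbefore x (by omega)]
      omega
    have hpn : (e p).val + 1 ≤ n := (e p).isLt
    by_cases hq : ∃ q, exCnt Y q < exCnt X q
    · obtain ⟨q, hqlt, hqmin⟩ := Finset.exists_min_image
        (univ.filter (fun q => exCnt Y q < exCnt X q)) (fun p => (e p).val)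
        (by obtain ⟨q, hq⟩ := hq; exact ⟨q, by simpa using hq⟩)
      simp only [mem_filter, mem_univ, true_and] at hqlt hqmin
      have hpq : (e p).val < (e q).val := by
        have h1 := hpmin q (by omega)
        have h2 : (e p).val ≠ (e q).val := by
          intro h
          have : p = q := e.injective (Fin.ext h)
          rw [this] at hpgt
          omega
        omega
      have hpq' : p ≠ q := by
        rintro rfl
        omega
      have hgap : ∀ k, (e p).val < k → k ≤ (e q).val →
          ∑ i, pathOf e (X i) k + 1 ≤ ∑ i, pathOf e (Y i) k := by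
        intro k hk1 hk2
        rw [ex_sum, ex_sum]
        have : ∑ x ∈ univ.filter (fun x : N => (e x).val < k), exCnt X x <
            ∑ x ∈ univ.filter (fun x : N => (e x).val < k), exCnt Y x := by
          refine Finset.sum_lt_sum (fun x hx => ?_) ⟨p, by simpa using hk1, hpgt⟩
          rw [mem_filter] at hx
          by_contra hlt
          have := hqmin x (by omega)
          omega
        omega
      have hPref : G.Pref p q := he p q (Fin.le_def.2 hpq.le)
      by_cases hi : ∃ i, p ∈ Y i ∧ q ∉ Y i
      · obtain ⟨i, hpi, hqi⟩ := hi
        have hqe : q ∉ (Y i).erase p := fun h => hqi (Finset.mem_of_mem_erase h)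
        set T := insert q ((Y i).erase p) with hT
        have hTk : ∀ k, pathOf e T k + (if (e p).val < k then 1 else 0) =
            pathOf e (Y i) k + (if (e q).val < k then 1 else 0) := by
          intro k
          rw [hT, ex_path_insert e _ q hqe k, ← ex_path_erase e (Y i) p hpi k]
          omega
        have hup : ∀ k, ∑ j, pathOf e (Function.update Y i T j) k +
            (if (e p).val < k then 1 else 0) = ∑ j, pathOf e (Y j) k +
              (if (e q).val < k then 1 else 0) := by
          intro k
          have h1 := ex_update e Y i T k
          have h2 := hTk k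
          omega
        refine step X (Function.update Y i T) hX ?_ ?_ ?_ ?_
        · intro j
          by_cases hj : j = i
          · subst hj
            rw [Function.update_self]
            intro hwin
            have h1 := hPref ((Y j).erase p) (Finset.notMem_erase p _) hqe hwin
            rw [Finset.insert_erase hpi] at h1
            exact hY j h1
          · rw [Function.update_of_ne hj]
            exact hY j
        · intro k
          have h1 := hup k
          have h2 := hdom k
          by_cases hk1 : (e p).val < k
          · by_cases hk2 : (e q).val < k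
            · rw [if_pos hk1, if_pos hk2] at h1
              omega
            · have h3 := hgap k hk1 (by omega)
              rw [if_pos hk1, if_neg hk2] at h1
              omega
          · rw [if_neg hk1, if_neg (by omega)] at h1
            omega
        · intro k
          have h1 := hup k
          by_cases hk1 : (e p).val < k
          · rw [if_pos hk1] at h1
            split_ifs at h1 <;> omega
          · rw [if_neg hk1, if_neg (by omega)] at h1
            omega
        · refine ⟨(e p).val + 1, hpn, ?_⟩
          have h1 := hup ((e p).val + 1)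
          rw [if_pos (by omega), if_neg (by omega)] at h1
          omega
      · push Not at hi
        have hcY : exCnt Y p ≤ exCnt Y q := by
          unfold exCnt
          refine Finset.card_le_card fun i hi' => ?_
          rw [mem_filter] at hi' ⊢
          exact ⟨mem_univ i, hi i hi'.2⟩
        have hex : ∃ i, q ∈ X i ∧ p ∉ X i := by
          by_contra hno
          push Not at hno
          have : exCnt X q ≤ exCnt X p := by
            unfold exCnt
            refine Finset.card_le_card fun i hi' => ?_
            rw [mem_filter] at hi' ⊢
            exact ⟨mem_univ i, hno i hi'.2⟩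
          omega
        obtain ⟨i, hqi, hpi⟩ := hex
        have hpe : p ∉ (X i).erase q := fun h => hpi (Finset.mem_of_mem_erase h)
        set T := insert p ((X i).erase q) with hT
        have hTk : ∀ k, pathOf e T k + (if (e q).val < k then 1 else 0) =
            pathOf e (X i) k + (if (e p).val < k then 1 else 0) := by
          intro k
          rw [hT, ex_path_insert e _ p hpe k, ← ex_path_erase e (X i) q hqi k]
          omega
        have hup : ∀ k, ∑ j, pathOf e (Function.update X i T j) k +
            (if (e q).val < k then 1 else 0) = ∑ j, pathOf e (X j) k +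
              (if (e p).val < k then 1 else 0) := by
          intro k
          have h1 := ex_update e X i T k
          have h2 := hTk k
          omega
        refine step (Function.update X i T) Y ?_ hY ?_ ?_ ?_
        · intro j
          by_cases hj : j = i
          · subst hj
            rw [Function.update_self]
            refine hPref ((X j).erase q) hpe (Finset.notMem_erase q _) ?_
            rw [Finset.insert_erase hqi]
            exact hX j
          · rw [Function.update_of_ne hj]
            exact hX j
        · intro k
          have h1 := hup k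
          have h2 := hdom k
          by_cases hk1 : (e p).val < k
          · by_cases hk2 : (e q).val < k
            · rw [if_pos hk1, if_pos hk2] at h1
              omega
            · have h3 := hgap k hk1 (by omega)
              rw [if_pos hk1, if_neg hk2] at h1
              omega
          · rw [if_neg hk1, if_neg (by omega)] at h1
            omega
        · intro k
          have h1 := hup k
          by_cases hk1 : (e p).val < k
          · rw [if_pos hk1] at h1
            split_ifs at h1 <;> omega
          · rw [if_neg hk1, if_neg (by omega)] at h1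
            omega
        · refine ⟨(e p).val + 1, hpn, ?_⟩
          have h1 := hup ((e p).val + 1)
          rw [if_neg (by omega), if_pos (by omega)] at h1
          omega
    · push Not at hq
      have hgap : ∀ k, (e p).val < k →
          ∑ i, pathOf e (X i) k + 1 ≤ ∑ i, pathOf e (Y i) k := by
        intro k hk1
        rw [ex_sum, ex_sum]
        have : ∑ x ∈ univ.filter (fun x : N => (e x).val < k), exCnt X x <
            ∑ x ∈ univ.filter (fun x : N => (e x).val < k), exCnt Y x :=
          Finset.sum_lt_sum (fun x _ => hq x) ⟨p, by simpa using hk1, hpgt⟩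
        omega
      have hex : ∃ i, p ∈ Y i := by
        by_contra hno
        push Not at hno
        have : exCnt Y p = 0 := by
          unfold exCnt
          rw [Finset.card_eq_zero, Finset.filter_eq_empty_iff]
          exact fun i _ => hno i
        omega
      obtain ⟨i, hpi⟩ := hex
      have hup : ∀ k, ∑ j, pathOf e (Function.update Y i ((Y i).erase p) j) k +
          (if (e p).val < k then 1 else 0) = ∑ j, pathOf e (Y j) k := by
        intro k
        have h1 := ex_update e Y i ((Y i).erase p) k
        have h2 := ex_path_erase e (Y i) p hpi k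
        omega
      refine step X (Function.update Y i ((Y i).erase p)) hX ?_ ?_ ?_ ?_
      · intro j
        by_cases hj : j = i
        · subst hj
          rw [Function.update_self]
          exact fun hwin => hY j (G.mono _ _ (Finset.erase_subset _ _) hwin)
        · rw [Function.update_of_ne hj]
          exact hY j
      · intro k
        have h1 := hup k
        have h2 := hdom k
        by_cases hk1 : (e p).val < k
        · have h3 := hgap k hk1
          rw [if_pos hk1] at h1
          omega
        · rw [if_neg hk1] at h1
          omega
      · intro k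
        have h1 := hup k
        split_ifs at h1 <;> omega
      · refine ⟨(e p).val + 1, hpn, ?_⟩
        have h1 := hup ((e p).val + 1)
        rw [if_pos (by omega)] at h1
        omega

/-- Module EX (exchange).  Players are ordered by `e` (strongest first).  If the total prefix counts
of losing coalitions `Y` dominate those of winning coalitions `X`, there is an `m`-trade. -/
theorem exchange {n m : ℕ} (e : N ≃ Fin n) (he : ∀ p q : N, e p ≤ e q → G.Pref p q)
    (X Y : Fin m → Finset N) (hX : ∀ i, G.Win (X i)) (hY : ∀ i, ¬ G.Win (Y i))
    (hdom : ∀ k, ∑ i, pathOf e (X i) k ≤ ∑ i, pathOf e (Y i) k) :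
    ∃ X' Y' : Fin m → Finset N, (∀ i, G.Win (X' i)) ∧ (∀ i, ¬ G.Win (Y' i)) ∧
      ∀ p : N, (Finset.univ.filter (fun i => p ∈ X' i)).card =
        (Finset.univ.filter (fun i => p ∈ Y' i)).card :=
  ex_aux G e he _ X Y rfl hX hY hdom

end Pool.Agent.Work.MP_8ddad6_co
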