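import Pool.Agent.Work.MP_8ddad6_co.Base

namespace Pool.Agent.Work.MP_8ddad6_co

/-- `A_T + B_j - 2 α` at `k` -/
def vv (α β : ℕ → ℕ) (T j k : ℕ) : ℤ :=
  (Mx T (α T - 1) k : ℤ) + (Mx j (β j - 1) k : ℤ) - 2 * (α k : ℤ)

/-- Acyclicity of the support digraph (proved in module `M6`). -/
def Acyc (α β : ℕ → ℕ) (T : ℕ) : Prop :=
  ∀ X : V → Prop, (∀ x, X x → Val α β T x) → (∀ z, ¬ X (.u z)) → (∃ x, X x) →
    (∀ x, X x → ∃ y, X y ∧ Hi α β T y (crd T x)) → False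

end Pool.Agent.Work.MP_8ddad6_co
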