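import Mathlib

open Finset Classical

namespace Pool.Agent.Work.MP_8ddad6_co

/-- Module FK (separation).  Either there is a separating nonnegative functional, or a certificate. -/
theorem farkas {n : ℕ} {ι : Type} [Fintype ι] [Nonempty ι] (a b : Fin n → ℝ) (l : ι → Fin n → ℝ) :
    (∃ (u : Fin n → ℝ) (q : ℝ), (∀ k, 0 ≤ u k) ∧ q ≤ ∑ k, u k * a k ∧ q ≤ ∑ k, u k * b k ∧
        ∀ s, ∑ k, u k * l s k < q) ∨
      ∃ (μ : ι → ℝ) (P Q : ℝ), (∀ s, 0 ≤ μ s) ∧ 0 ≤ P ∧ 0 ≤ Q ∧ P + Q = 1 ∧ ∑ s, μ s = 1 ∧
        ∀ k, P * a k + Q * b k ≤ ∑ s, μ s * l s k := by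
  set g : ι ⊕ ι → Fin n → ℝ := Sum.elim (fun s => a - l s) (fun s => b - l s) with hg
  set L : ((ι ⊕ ι) → ℝ) →ₗ[ℝ] (Fin n → ℝ) := Fintype.linearCombination ℝ g with hL
  set C : Set (Fin n → ℝ) := L '' stdSimplex ℝ (ι ⊕ ι) with hC
  have hCc : IsCompact C := (isCompact_stdSimplex ℝ (ι ⊕ ι)).image L.continuous_of_finiteDimensional
  have hCv : Convex ℝ C := (convex_stdSimplex ℝ (ι ⊕ ι)).linear_image L
  set K : Set (Fin n → ℝ) := {x | ∀ k, x k ≤ 0} with hK
  have hKc : IsClosed K := by
    have e1 : K = ⋂ k, {x : Fin n → ℝ | x k ≤ 0} := by ext x; simp [hK]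
    rw [e1]
    exact isClosed_iInter fun k => isClosed_le (continuous_apply k) continuous_const
  have hKv : Convex ℝ K := by
    intro x hx y hy s t hs ht _ k
    have h1 := hx k
    have h2 := hy k
    simp only [Pi.add_apply, Pi.smul_apply, smul_eq_mul]
    nlinarith
  by_cases hdis : Disjoint C K
  · left
    obtain ⟨f, u, v, hu, huv, hv⟩ := geometric_hahn_banach_compact_closed hCv hCc hKv hKc hdis
    have h0 : v < 0 := by
      have := hv 0 (fun k => le_rfl)
      simpa using this
    have hfK : ∀ x ∈ K, 0 ≤ f x := by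
      intro x hx
      by_contra hneg
      push Not at hneg
      have h1 : (v / f x) • x ∈ K := by
        intro k
        have h2 : 0 ≤ v / f x := (div_pos_of_neg_of_neg h0 hneg).le
        simp only [Pi.smul_apply, smul_eq_mul]
        exact mul_nonpos_of_nonneg_of_nonpos h2 (hx k)
      have h3 := hv _ h1
      rw [map_smul, smul_eq_mul, div_mul_cancel₀ _ hneg.ne] at h3
      exact lt_irrefl _ h3
    have hfx : ∀ x : Fin n → ℝ, f x = ∑ k, x k * f (Pi.single k 1) := by
      intro x
      have := LinearMap.pi_apply_eq_sum_univ (f : (Fin n → ℝ) →ₗ[ℝ] ℝ) x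
      simp only [smul_eq_mul] at this
      refine this.trans (Finset.sum_congr rfl fun k _ => ?_)
      have e1 : (fun j => if k = j then (1 : ℝ) else 0) = Pi.single k 1 := by
        funext j
        simp [Pi.single_apply, eq_comm]
      rw [e1]
      rfl
    set w : Fin n → ℝ := fun k => - f (Pi.single k 1) with hw
    have hwx : ∀ x : Fin n → ℝ, ∑ k, w k * x k = - f x := by
      intro x
      rw [hfx x, ← Finset.sum_neg_distrib]
      refine Finset.sum_congr rfl fun k _ => ?_
      simp only [hw]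
      ring
    have hgC : ∀ i, g i ∈ C := by
      intro i
      refine ⟨Pi.single i 1, single_mem_stdSimplex ℝ i, ?_⟩
      rw [hL, Fintype.linearCombination_apply]
      rw [Finset.sum_eq_single i]
      · simp
      · intro j _ hj
        simp [hj]
      · intro h
        exact absurd (Finset.mem_univ i) h
    have hpos : ∀ i, f (g i) < 0 := fun i => (hu _ (hgC i)).trans (huv.trans h0)
    refine ⟨w, min (∑ k, w k * a k) (∑ k, w k * b k), ?_, min_le_left _ _, min_le_right _ _, ?_⟩
    · intro k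
      have h1 : -(Pi.single k (1 : ℝ) : Fin n → ℝ) ∈ K := by
        intro j
        simp only [Pi.neg_apply, Pi.single_apply]
        split_ifs <;> norm_num
      have h2 := hfK _ h1
      rw [map_neg] at h2
      exact h2
    · intro s
      rw [lt_min_iff, hwx, hwx, hwx]
      have h1 := hpos (Sum.inl s)
      have h2 := hpos (Sum.inr s)
      simp only [hg, Sum.elim_inl, Sum.elim_inr, map_sub] at h1 h2
      constructor <;> linarith
  · right
    rw [Set.not_disjoint_iff] at hdis
    obtain ⟨x, ⟨w, hw, rfl⟩, hxK⟩ := hdis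
    obtain ⟨hw0, hw1⟩ := hw
    rw [Fintype.sum_sum_type] at hw1
    refine ⟨fun s => w (Sum.inl s) + w (Sum.inr s), ∑ s, w (Sum.inl s), ∑ s, w (Sum.inr s),
      fun s => add_nonneg (hw0 _) (hw0 _), Finset.sum_nonneg fun _ _ => hw0 _,
      Finset.sum_nonneg fun _ _ => hw0 _, hw1, ?_, ?_⟩
    · rw [Finset.sum_add_distrib]; exact hw1
    · intro k
      have h1 := hxK k
      rw [hL, Fintype.linearCombination_apply, Fintype.sum_sum_type] at h1
      simp only [hg, Sum.elim_inl, Sum.elim_inr, Pi.add_apply, Finset.sum_apply, Pi.smul_apply,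
        Pi.sub_apply, smul_eq_mul, mul_sub, Finset.sum_sub_distrib] at h1
      rw [← Finset.sum_mul, ← Finset.sum_mul] at h1
      simp only [add_mul, Finset.sum_add_distrib]
      linarith

end Pool.Agent.Work.MP_8ddad6_co
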