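import Pool.Agent.Work.MP_8ddad6_co.Game

open Finset Classical

namespace Pool.Agent.Work.MP_8ddad6_co

universe v

variable {N : Type v} [Fintype N] [DecidableEq N] (G : SGame N)

theorem gl_trans {i j k : N} (h1 : G.Pref i j) (h2 : G.Pref j k) : G.Pref i k := by
  intro S hi hk hw
  by_cases hik : i = k
  · subst hik; exact hw
  by_cases hj : j ∈ S
  · have hSj : insert j (S.erase j) = S := Finset.insert_erase hj
    have hjk : j ≠ k := by rintro rfl; exact hk hj
    have hji : j ≠ i := by rintro rfl; exact hi hj
    have e1 : insert k S = insert j (insert k (S.erase j)) := by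
      rw [Finset.insert_comm, hSj]
    rw [e1] at hw
    have h3 : G.Win (insert i (insert k (S.erase j))) := by
      refine h1 _ ?_ ?_ hw
      · simp [hik, hi]
      · simp [hjk]
    rw [Finset.insert_comm] at h3
    have h4 : G.Win (insert j (insert i (S.erase j))) := by
      refine h2 _ ?_ ?_ h3
      · simp [hji]
      · simp [Ne.symm hik, hk]
    rw [Finset.insert_comm, hSj] at h4
    exact h4
  · exact h1 S hi hj (h2 S hj hk hw)

theorem gl_order (hc : G.Complete) :
    ∃ e : N ≃ Fin (Fintype.card N), ∀ p q : N, e p ≤ e q → G.Pref p q := by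
  set rk : N → ℕ := fun p => (univ.filter (fun q => G.Pref q p ∧ ¬ G.Pref p q)).card with hrk
  set e0 := Fintype.equivFin N
  set f : Fin (Fintype.card N) → ℕ := fun i => rk (e0.symm i) with hf
  have hm := Tuple.monotone_sort f
  refine ⟨e0.trans (Tuple.sort f).symm, ?_⟩
  intro p q hpq
  have h1 := hm hpq
  simp only [Function.comp, hf, Equiv.trans_apply, Equiv.apply_symm_apply,
    Equiv.symm_apply_apply] at h1
  by_contra hcon
  have h2 : G.Pref q p := (hc p q).resolve_left hcon
  have h3 : rk q < rk p := by
    apply Finset.card_lt_card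
    refine ⟨?_, ?_⟩
    · intro r hr
      simp only [mem_filter, mem_univ, true_and] at hr ⊢
      refine ⟨gl_trans G hr.1 h2, ?_⟩
      intro h4
      exact hr.2 (gl_trans G h2 h4)
    · intro hsub
      have : q ∈ univ.filter (fun r => G.Pref r q ∧ ¬ G.Pref q r) := by
        apply hsub
        simp only [mem_filter, mem_univ, true_and]
        exact ⟨h2, hcon⟩
      simp only [mem_filter, mem_univ, true_and] at this
      exact this.2 this.1
  omega

section path
variable {n : ℕ} (e : N ≃ Fin n)

theorem gl_path_insert {S : Finset N} {i : N} (hi : i ∉ S) (k : ℕ) :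
    pathOf e (insert i S) k = pathOf e S k + if (e i).val < k then 1 else 0 := by
  unfold pathOf
  rw [Finset.filter_insert]
  split_ifs with h
  · rw [Finset.card_insert_of_notMem]
    simp [hi]
  · rfl

theorem gl_path_erase {S : Finset N} {i : N} (hi : i ∈ S) (k : ℕ) :
    pathOf e S k = pathOf e (S.erase i) k + if (e i).val < k then 1 else 0 := by
  conv_lhs => rw [← Finset.insert_erase hi]
  exact gl_path_insert e (Finset.notMem_erase i S) k

theorem gl_up (he : ∀ p q : N, e p ≤ e q → G.Pref p q) :
    ∀ (m : ℕ) (S' S : Finset N), (S' \ S).card = m → G.Win S' →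
      (∀ k, pathOf e S' k ≤ pathOf e S k) → G.Win S := by
  intro m
  induction m with
  | zero =>
    intro S' S h0 hw _
    rw [Finset.card_eq_zero, Finset.sdiff_eq_empty_iff_subset] at h0
    exact G.mono _ _ h0 hw
  | succ m ih =>
    intro S' S hcard hw hle
    have hne : (S' \ S).Nonempty := by
      rw [← Finset.card_pos]; omega
    obtain ⟨q, hq, hmin⟩ := Finset.exists_min_image (S' \ S) (fun x => e x) hne
    have hq' := Finset.mem_sdiff.1 hq
    have hp : ∃ p, p ∈ S ∧ p ∉ S' ∧ e p < e q := by
      by_contra hcon
      push Not at hcon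
      have h1 := hle ((e q).val + 1)
      have h2 : pathOf e S ((e q).val + 1) < pathOf e S' ((e q).val + 1) := by
        apply Finset.card_lt_card
        refine ⟨?_, ?_⟩
        · intro x hx
          simp only [mem_filter] at hx ⊢
          refine ⟨?_, hx.2⟩
          by_contra hx'
          have h3 := hcon x hx.1 hx'
          have h4 : e x = e q := by
            apply le_antisymm _ h3
            rw [Fin.le_def]; omega
          have h5 := e.injective h4
          rw [h5] at hx
          exact hq'.2 hx.1
        · intro hsub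
          have : q ∈ S.filter (fun x => (e x).val < (e q).val + 1) := by
            apply hsub
            simp [hq'.1]
          simp only [mem_filter] at this
          exact hq'.2 this.1
      omega
    obtain ⟨p, hpS, hpS', hpq⟩ := hp
    have hpE : p ∉ S'.erase q := fun h => hpS' (Finset.mem_of_mem_erase h)
    have hW : G.Win (insert p (S'.erase q)) := by
      apply he p q hpq.le _ hpE (Finset.notMem_erase _ _)
      rw [Finset.insert_erase hq'.1]
      exact hw
    refine ih (insert p (S'.erase q)) S ?_ hW ?_
    · have : insert p (S'.erase q) \ S = (S' \ S).erase q := by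
        ext x
        simp only [mem_sdiff, mem_insert, mem_erase]
        constructor
        · rintro ⟨h1 | h1, h2⟩
          · subst h1; exact absurd hpS h2
          · exact ⟨h1.1, h1.2, h2⟩
        · rintro ⟨h1, h2, h3⟩
          exact ⟨Or.inr ⟨h1, h2⟩, h3⟩
      rw [this, Finset.card_erase_of_mem hq, hcard]
      rfl
    · intro k
      have h1 := hle k
      have h2 := gl_path_insert e hpE k
      have h3 := gl_path_erase e hq'.1 k
      by_cases hk1 : (e p).val < k
      · by_cases hk2 : (e q).val < k
        · rw [if_pos hk1] at h2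
          rw [if_pos hk2] at h3
          omega
        · apply Finset.card_le_card
          intro x hx
          simp only [mem_filter, mem_insert, mem_erase] at hx ⊢
          refine ⟨?_, hx.2⟩
          rcases hx.1 with h4 | h4
          · rw [h4]; exact hpS
          · by_contra h5
            have h6 := hmin x (Finset.mem_sdiff.2 ⟨h4.2, h5⟩)
            have h7 := hx.2
            rw [Fin.le_def] at h6
            omega
      · rw [if_neg hk1] at h2
        omega

/-- path-minimal winning coalitions -/
def GLMin (S : Finset N) : Prop :=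
  G.Win S ∧ ∀ R, G.Win R → (∀ k, pathOf e R k ≤ pathOf e S k) → ∀ k, pathOf e S k ≤ pathOf e R k

theorem gl_path_min (S : Finset N) (k : ℕ) : pathOf e S k = pathOf e S (min k n) := by
  unfold pathOf
  congr 1
  ext x
  have := (e x).isLt
  simp only [mem_filter, lt_min_iff]
  tauto

theorem gl_exists_min {S : Finset N} (hS : G.Win S) :
    ∃ A, GLMin G e A ∧ ∀ k, pathOf e A k ≤ pathOf e S k := by
  obtain ⟨A, hA, hmin⟩ := Finset.exists_min_image
    (univ.filter (fun R : Finset N => G.Win R ∧ ∀ k, pathOf e R k ≤ pathOf e S k))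
    (fun R => ∑ k ∈ range (n + 1), pathOf e R k) ⟨S, by simp [hS]⟩
  simp only [mem_filter, mem_univ, true_and] at hA hmin
  refine ⟨A, ⟨hA.1, ?_⟩, hA.2⟩
  intro R hR hle k
  by_contra hcon
  push Not at hcon
  have h1 := hmin R ⟨hR, fun k => (hle k).trans (hA.2 k)⟩
  rw [gl_path_min e R k, gl_path_min e A k] at hcon
  have h2 : ∑ k ∈ range (n + 1), pathOf e R k < ∑ k ∈ range (n + 1), pathOf e A k :=
    Finset.sum_lt_sum (fun i _ => hle i) ⟨min k n, by simp, hcon⟩
  omega

theorem gl_swap_lt {S : Finset N} (hS : GLMin G e S) {i j : N} (hi : i ∈ S) (hj : j ∉ S)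
    (hij : e i < e j) : ¬ G.Win (insert j (S.erase i)) := by
  intro hw
  have hjE : j ∉ S.erase i := fun h => hj (Finset.mem_of_mem_erase h)
  have h1 := fun k => gl_path_insert e hjE k
  have h2 := fun k => gl_path_erase e hi k
  have hlt : (e i).val < (e j).val := hij
  have h3 := hS.2 _ hw (by
    intro k
    have a1 := h1 k
    have a2 := h2 k
    split_ifs at a1 a2 <;> omega) ((e i).val + 1)
  have a1 := h1 ((e i).val + 1)
  have a2 := h2 ((e i).val + 1)
  rw [if_neg (by omega)] at a1
  rw [if_pos (by omega)] at a2
  omega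

theorem gl_min_shift (he : ∀ p q : N, e p ≤ e q → G.Pref p q) {S : Finset N}
    (hS : GLMin G e S) : G.ShiftMinimal S := by
  refine ⟨hS.1, ?_, ?_⟩
  · intro i hi hw
    have h2 := fun k => gl_path_erase e hi k
    have h3 := hS.2 _ hw (by intro k; have a2 := h2 k; omega) ((e i).val + 1)
    have a2 := h2 ((e i).val + 1)
    rw [if_pos (by omega)] at a2
    omega
  · intro i hi j hj _ hji
    apply gl_swap_lt G e hS hi hj
    by_contra hcon
    exact hji (he j i (not_lt.1 hcon))

theorem gl_type_sub {S S' : Finset N} (hS : GLMin G e S) (hS' : GLMin G e S')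
    (ht : G.typeVec S = G.typeVec S') : S ⊆ S' := by
  intro x hx
  by_contra hx'
  have h1 := congrFun ht x
  unfold SGame.typeVec at h1
  have h2 : ∃ y, y ∈ S' ∧ y ∉ S ∧ G.SameType x y := by
    by_contra hcon
    push Not at hcon
    have h3 : (S'.filter (fun j => G.SameType x j)).card < (S.filter (fun j => G.SameType x j)).card := by
      apply Finset.card_lt_card
      refine ⟨?_, ?_⟩
      · intro y hy
        simp only [mem_filter] at hy ⊢
        refine ⟨?_, hy.2⟩
        by_contra hyS
        exact hcon y hy.1 hyS hy.2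
      · intro hsub
        have : x ∈ S'.filter (fun j => G.SameType x j) := by
          apply hsub
          simp only [mem_filter]
          exact ⟨hx, fun _ _ _ h => h, fun _ _ _ h => h⟩
        exact hx' (Finset.mem_filter.1 this).1
    omega
  obtain ⟨y, hyS', hyS, hxy⟩ := h2
  rcases lt_trichotomy (e x) (e y) with h | h | h
  · refine gl_swap_lt G e hS hx hyS h ?_
    apply hxy.2 _ (fun h => hyS (Finset.mem_of_mem_erase h)) (Finset.notMem_erase _ _)
    rw [Finset.insert_erase hx]
    exact hS.1
  · have := e.injective h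
    subst this
    exact hyS hx
  · refine gl_swap_lt G e hS' hyS' hx' h ?_
    apply hxy.1 _ (fun h => hx' (Finset.mem_of_mem_erase h)) (Finset.notMem_erase _ _)
    rw [Finset.insert_erase hyS']
    exact hS'.1

end path

/-- Module GL (game layer).  In a complete game with two shift-minimal types there is an order of
the players (strongest first) and two coalitions `A`, `B` such that a coalition wins iff its prefix
counts dominate those of `A` or those of `B`. -/
theorem game_layer (hc : G.Complete) (hr : G.numShiftMinimal = 2) :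
    ∃ e : N ≃ Fin (Fintype.card N), (∀ p q : N, e p ≤ e q → G.Pref p q) ∧
      ∃ A B : Finset N, ∀ S : Finset N, G.Win S ↔
        ((∀ k, pathOf e A k ≤ pathOf e S k) ∨ ∀ k, pathOf e B k ≤ pathOf e S k) := by
  obtain ⟨e, he⟩ := gl_order G hc
  refine ⟨e, he, ?_⟩
  set PM : Set (Finset N) := {S | GLMin G e S} with hPM
  have hinj : Set.InjOn G.typeVec PM := by
    intro S hS S' hS' h
    exact Finset.Subset.antisymm (gl_type_sub G e hS hS' h) (gl_type_sub G e hS' hS h.symm)
  have hfin : ({v : N → ℕ | ∃ S, G.ShiftMinimal S ∧ G.typeVec S = v}).Finite := by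
    apply Set.finite_of_ncard_ne_zero
    unfold SGame.numShiftMinimal at hr
    omega
  have hcard : PM.ncard ≤ 2 := by
    rw [← Set.ncard_image_of_injOn hinj]
    unfold SGame.numShiftMinimal at hr
    rw [← hr]
    apply Set.ncard_le_ncard _ hfin
    rintro v ⟨S, hS, rfl⟩
    exact ⟨S, gl_min_shift G e he hS, rfl⟩
  obtain ⟨A, hA, -⟩ := gl_exists_min G e G.univ_wins
  have hAB : ∃ B, GLMin G e B ∧ ∀ S ∈ PM, S = A ∨ S = B := by
    by_cases h1 : ∃ B ∈ PM, B ≠ A
    · obtain ⟨B, hB, hBA⟩ := h1
      refine ⟨B, hB, ?_⟩
      intro S hS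
      by_contra hcon
      push Not at hcon
      have h3 : ({S, A, B} : Set (Finset N)) ⊆ PM := by
        rintro x (rfl | rfl | rfl)
        · exact hS
        · exact hA
        · exact hB
      have h4 := Set.ncard_le_ncard h3 (Set.toFinite _)
      have h5 : ({S, A, B} : Set (Finset N)).ncard = 3 := by
        rw [Set.ncard_insert_of_notMem (by simp [hcon.1, hcon.2]), Set.ncard_pair (Ne.symm hBA)]
      omega
    · push Not at h1
      exact ⟨A, hA, fun S hS => Or.inl (h1 S hS)⟩
  obtain ⟨B, hB, hall⟩ := hAB
  refine ⟨A, B, ?_⟩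
  intro S
  constructor
  · intro hS
    obtain ⟨C, hC, hle⟩ := gl_exists_min G e hS
    rcases hall C hC with rfl | rfl
    · exact Or.inl hle
    · exact Or.inr hle
  · rintro (h | h)
    · exact gl_up G e he _ A S rfl hA.1 h
    · exact gl_up G e he _ B S rfl hB.1 h

end Pool.Agent.Work.MP_8ddad6_co
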