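import Pool.Agent.Work.MP_8ddad6_co.Comb
import Pool.Agent.Work.MP_8ddad6_co.GL
import Pool.Agent.Work.MP_8ddad6_co.EX
import Pool.Agent.Work.MP_8ddad6_co.FK

namespace Pool.Agent.Work.MP_8ddad6_co

open Finset Classical

universe v

variable {N : Type v} [Fintype N] [DecidableEq N]

omit [Fintype N] in
theorem pathOf_succ {n : ℕ} (e : N ≃ Fin n) (S : Finset N) {k : ℕ} (hk : k < n) :
    pathOf e S (k + 1) = pathOf e S k + (if e.symm ⟨k, hk⟩ ∈ S then 1 else 0) := by
  unfold pathOf
  by_cases h : e.symm ⟨k, hk⟩ ∈ S
  · rw [if_pos h]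
    have : S.filter (fun x => (e x).val < k + 1) =
        insert (e.symm ⟨k, hk⟩) (S.filter (fun x => (e x).val < k)) := by
      ext x
      simp only [mem_filter, mem_insert]
      constructor
      · rintro ⟨h1, h2⟩
        by_cases h3 : (e x).val = k
        · left
          rw [Equiv.eq_symm_apply]
          exact Fin.ext h3
        · right
          exact ⟨h1, by omega⟩
      · rintro (rfl | ⟨h1, h2⟩)
        · exact ⟨h, by simp⟩
        · exact ⟨h1, by omega⟩
    rw [this, card_insert_of_notMem]
    simp
  · rw [if_neg h, add_zero]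
    congr 1
    ext x
    simp only [mem_filter]
    constructor
    · rintro ⟨h1, h2⟩
      refine ⟨h1, ?_⟩
      by_contra h3
      apply h
      have : e.symm ⟨k, hk⟩ = x := by
        rw [Equiv.symm_apply_eq]
        exact Fin.ext (by show k = (e x).val; omega)
      rw [this]
      exact h1
    · rintro ⟨h1, h2⟩
      exact ⟨h1, by omega⟩

omit [Fintype N] [DecidableEq N] in
theorem pathOf_const {n : ℕ} (e : N ≃ Fin n) (S : Finset N) {k : ℕ} (hk : n ≤ k) :
    pathOf e S k = pathOf e S n := by
  unfold pathOf
  congr 1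
  ext x
  simp only [mem_filter]
  have := (e x).isLt
  constructor
  · rintro ⟨h1, -⟩; exact ⟨h1, this⟩
  · rintro ⟨h1, -⟩; exact ⟨h1, by omega⟩

omit [Fintype N] in
theorem pathOf_uPath {n : ℕ} (e : N ≃ Fin n) (S : Finset N) : UPath (pathOf e S) := by
  refine ⟨?_, ?_, ?_⟩
  · simp [pathOf]
  · intro k
    by_cases hk : k < n
    · rw [pathOf_succ e S hk]; omega
    · rw [pathOf_const e S (k := k + 1) (by omega), pathOf_const e S (k := k) (by omega)]
  · intro k
    by_cases hk : k < n
    · rw [pathOf_succ e S hk]
      split_ifs <;> omega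
    · rw [pathOf_const e S (k := k + 1) (by omega), pathOf_const e S (k := k) (by omega)]
      omega

/-- the coalition of a path -/
noncomputable def coalOf {n : ℕ} (e : N ≃ Fin n) (τ : ℕ → ℕ) : Finset N :=
  univ.filter (fun x => τ (e x).val < τ ((e x).val + 1))

theorem pathOf_coalOf {n : ℕ} (e : N ≃ Fin n) {τ : ℕ → ℕ} (hτ : UPath τ) {k : ℕ} (hk : k ≤ n) :
    pathOf e (coalOf e τ) k = τ k := by
  induction k with
  | zero => rw [(pathOf_uPath e _).zero, hτ.zero]
  | succ k ih =>
    rw [pathOf_succ e _ (show k < n by omega), ih (by omega)]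
    have h1 := hτ.mono k
    have h2 := hτ.lip k
    by_cases h : τ k < τ (k + 1)
    · rw [if_pos (by simp [coalOf, h])]
      omega
    · rw [if_neg (by simp only [coalOf, mem_filter, mem_univ, true_and, Equiv.apply_symm_apply]; exact h)]
      omega

omit [Fintype N] [DecidableEq N] in
theorem weight_sum {n : ℕ} (e : N ≃ Fin n) (u : Fin n → ℝ) (S : Finset N) :
    ∑ x ∈ S, (∑ k : Fin n, if (e x).val ≤ k.val then u k else 0)
      = ∑ k : Fin n, u k * (pathOf e S (k.val + 1) : ℝ) := by
  rw [Finset.sum_comm]
  refine Finset.sum_congr rfl fun k _ => ?_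
  rw [← Finset.sum_filter, Finset.sum_const, nsmul_eq_mul, mul_comm]
  congr 2
  unfold pathOf
  congr 1
  ext x
  simp only [mem_filter]
  constructor
  · rintro ⟨h1, h2⟩; exact ⟨h1, by omega⟩
  · rintro ⟨h1, h2⟩; exact ⟨h1, by omega⟩

/-- **Main theorem**: a complete simple game with two shift-minimal types which is 3-trade robust is
weighted. -/
theorem main_theorem (G : SGame N) (hc : G.Complete) (hr : G.numShiftMinimal = 2)
    (h3 : G.TradeRobust 3) : G.Weighted := by
  obtain ⟨n, e, he, A, B, hW⟩ : ∃ n : ℕ, ∃ e : N ≃ Fin n, (∀ p q : N, e p ≤ e q → G.Pref p q) ∧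
      ∃ A B : Finset N, ∀ S : Finset N, G.Win S ↔
        ((∀ k, pathOf e A k ≤ pathOf e S k) ∨ ∀ k, pathOf e B k ≤ pathOf e S k) :=
    ⟨_, game_layer G hc hr⟩
  -- index set of losing coalitions
  set ι0 := {S : Finset N // ¬ G.Win S} with hι0
  have hne : Nonempty ι0 := ⟨⟨∅, G.empty_loses⟩⟩
  set m0 := Fintype.card ι0 with hm0
  let ε : ι0 ≃ Fin m0 := Fintype.equivFin ι0
  have : Nonempty (Fin m0) := ⟨ε ⟨∅, G.empty_loses⟩⟩
  rcases farkas (n := n) (ι := Fin m0) (fun k => (pathOf e A (k.val + 1) : ℝ))
    (fun k => (pathOf e B (k.val + 1) : ℝ))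
    (fun s k => (pathOf e (ε.symm s).1 (k.val + 1) : ℝ)) with
    ⟨u, q, hu, hA, hB, hL⟩ | ⟨μ, P, Q, hμ, hP, hQ, hPQ, hμ1, hcert⟩
  · refine ⟨fun x => ∑ k : Fin n, if (e x).val ≤ k.val then u k else 0, q, ?_, ?_⟩
    · intro x
      refine Finset.sum_nonneg fun k _ => ?_
      split_ifs
      · exact hu k
      · exact le_rfl
    · intro S
      rw [weight_sum]
      constructor
      · intro hS
        rcases (hW S).1 hS with h | h
        · refine hA.trans (Finset.sum_le_sum fun k _ => mul_le_mul_of_nonneg_left ?_ (hu k))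
          exact_mod_cast h _
        · refine hB.trans (Finset.sum_le_sum fun k _ => mul_le_mul_of_nonneg_left ?_ (hu k))
          exact_mod_cast h _
      · intro hq
        by_contra hS
        have := hL (ε ⟨S, hS⟩)
        simp only [Equiv.symm_apply_apply] at this
        linarith
  · exfalso
    have hfull : ∀ k, P * (pathOf e A k : ℝ) + Q * (pathOf e B k : ℝ)
        ≤ ∑ s, μ s * (pathOf e (ε.symm s).1 k : ℝ) := by
      have hle : ∀ k, k ≤ n → P * (pathOf e A k : ℝ) + Q * (pathOf e B k : ℝ)
          ≤ ∑ s, μ s * (pathOf e (ε.symm s).1 k : ℝ) := by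
        intro k hk
        rcases Nat.eq_zero_or_pos k with rfl | hk0
        · simp [(pathOf_uPath e _).zero]
        · have := hcert ⟨k - 1, by omega⟩
          have e1 : k - 1 + 1 = k := by omega
          simp only [e1] at this
          exact this
      intro k
      rcases Nat.le_total k n with hk | hk
      · exact hle k hk
      · have := hle n le_rfl
        rw [pathOf_const e A hk, pathOf_const e B hk]
        refine this.trans (le_of_eq (Finset.sum_congr rfl fun s _ => ?_))
        rw [pathOf_const e _ hk]
    have hlose : ∀ s : Fin m0, Lose (pathOf e A) (pathOf e B) (pathOf e (ε.symm s).1) := by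
      intro s
      have := (ε.symm s).2
      rw [hW, not_or] at this
      push Not at this
      exact this
    obtain ⟨m, hm, τ, hτ, hτl, P', Q', hPQ', hdom⟩ := main_paths (pathOf_uPath e A)
      (pathOf_uPath e B) ⟨n, fun k hk => pathOf_const e A hk⟩ ⟨n, fun k hk => pathOf_const e B hk⟩
      (fun s => pathOf e (ε.symm s).1) (fun s => pathOf_uPath e _) hlose μ hμ P Q hP hQ
      (by rw [hμ1, hPQ]) (by rw [hμ1]; norm_num) hfull
    have hcoal : ∀ i : Fin m, ¬ G.Win (coalOf e (τ i)) := by
      intro i hwin
      obtain ⟨⟨ka, hka⟩, ⟨kb, hkb⟩⟩ := hτl i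
      rcases (hW _).1 hwin with h | h
      · rcases Nat.le_total ka n with hk | hk
        · have := h ka
          rw [pathOf_coalOf e (hτ i) hk] at this
          omega
        · have h1 := h n
          rw [pathOf_coalOf e (hτ i) le_rfl] at h1
          rw [pathOf_const e A hk] at hka
          have h2 := (hτ i).le_of_le hk
          omega
      · rcases Nat.le_total kb n with hk | hk
        · have := h kb
          rw [pathOf_coalOf e (hτ i) hk] at this
          omega
        · have h1 := h n
          rw [pathOf_coalOf e (hτ i) le_rfl] at h1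
          rw [pathOf_const e B hk] at hkb
          have h2 := (hτ i).le_of_le hk
          omega
    have hwA : G.Win A := (hW A).2 (Or.inl fun k => le_rfl)
    have hwB : G.Win B := (hW B).2 (Or.inr fun k => le_rfl)
    have hsumX : ∀ k, ∑ i : Fin m, pathOf e (if i.val < P' then A else B) k
        = P' * pathOf e A k + Q' * pathOf e B k := by
      intro k
      have h1 : ∀ i : Fin m, pathOf e (if i.val < P' then A else B) k
          = if i.val < P' then pathOf e A k else pathOf e B k := by
        intro i
        split_ifs <;> rfl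
      rw [Finset.sum_congr rfl fun i _ => h1 i,
        Fin.sum_univ_eq_sum_range (fun i => if i < P' then pathOf e A k else pathOf e B k) m,
        ← hPQ', Finset.sum_range_add]
      congr 1
      · rw [Finset.sum_congr rfl (g := fun _ => pathOf e A k)
          (fun i hi => if_pos (Finset.mem_range.1 hi))]
        simp
      · rw [Finset.sum_congr rfl (g := fun _ => pathOf e B k)
          (fun i _ => if_neg (by omega))]
        simp
    obtain ⟨X', Y', hX', hY', hcnt⟩ := exchange G e he
      (fun i : Fin m => if i.val < P' then A else B) (fun i => coalOf e (τ i))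
      (fun i => by split_ifs <;> assumption) hcoal (by
        have hle : ∀ k, k ≤ n → ∑ i : Fin m, pathOf e (if i.val < P' then A else B) k
            ≤ ∑ i : Fin m, pathOf e (coalOf e (τ i)) k := by
          intro k hk
          rw [hsumX k]
          refine (hdom k).trans (le_of_eq (Finset.sum_congr rfl fun i _ => ?_))
          rw [pathOf_coalOf e (hτ i) hk]
        intro k
        rcases Nat.le_total k n with hk | hk
        · exact hle k hk
        · have := hle n le_rfl
          refine le_trans (le_of_eq ?_) (this.trans (le_of_eq ?_))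
          · exact Finset.sum_congr rfl fun i _ => pathOf_const e _ hk
          · exact Finset.sum_congr rfl fun i _ => (pathOf_const e _ hk).symm)
    exact h3 m (by omega) (by omega) ⟨X', Y', hX', hY', hcnt⟩

end Pool.Agent.Work.MP_8ddad6_co
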