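import Mathlib

open Finset Classical

namespace Pool.Agent.Work.MP_8ddad6_co

universe v

/-- A simple game on the finite player set `N`. -/
structure SGame (N : Type v) [Fintype N] [DecidableEq N] where
  /-- the winning coalitions -/
  Win : Finset N → Prop
  mono : ∀ S T : Finset N, S ⊆ T → Win S → Win T
  empty_loses : ¬ Win ∅
  univ_wins : Win Finset.univ

namespace SGame

variable {N : Type v} [Fintype N] [DecidableEq N] (G : SGame N)

/-- `i` is at least as desirable as `j`. -/
def Pref (i j : N) : Prop :=
  ∀ S : Finset N, i ∉ S → j ∉ S → G.Win (insert j S) → G.Win (insert i S)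

/-- the desirability relation is total -/
def Complete : Prop := ∀ i j : N, G.Pref i j ∨ G.Pref j i

/-- `i` and `j` have the same type -/
def SameType (i j : N) : Prop := G.Pref i j ∧ G.Pref j i

/-- shift-minimal winning coalitions -/
def ShiftMinimal (S : Finset N) : Prop :=
  G.Win S ∧ (∀ i ∈ S, ¬ G.Win (S.erase i)) ∧
    ∀ i ∈ S, ∀ j, j ∉ S → G.Pref i j → ¬ G.Pref j i → ¬ G.Win (insert j (S.erase i))

/-- the type vector of a coalition: for each player `i`, the number of members having the type of
`i` -/
noncomputable def typeVec (S : Finset N) : N → ℕ :=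
  fun i => (S.filter (fun j => G.SameType i j)).card

/-- the number of type vectors of shift-minimal winning coalitions -/
noncomputable def numShiftMinimal : ℕ :=
  Set.ncard {v : N → ℕ | ∃ S, G.ShiftMinimal S ∧ G.typeVec S = v}

/-- the game is weighted -/
def Weighted : Prop :=
  ∃ (w : N → ℝ) (q : ℝ), (∀ i, 0 ≤ w i) ∧ ∀ S : Finset N, G.Win S ↔ q ≤ ∑ i ∈ S, w i

/-- `m`-trade robustness -/
def TradeRobust (m : ℕ) : Prop :=
  ∀ j : ℕ, 1 ≤ j → j ≤ m → ¬ ∃ X Y : Fin j → Finset N,
    (∀ k, G.Win (X k)) ∧ (∀ k, ¬ G.Win (Y k)) ∧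
      ∀ i : N, (Finset.univ.filter (fun k => i ∈ X k)).card =
        (Finset.univ.filter (fun k => i ∈ Y k)).card

end SGame

/-- number of members of `S` among the first `k` players in the order `e` -/
def pathOf {N : Type v} {n : ℕ} (e : N ≃ Fin n) (S : Finset N) (k : ℕ) : ℕ :=
  (S.filter (fun x => (e x).val < k)).card

end Pool.Agent.Work.MP_8ddad6_co
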