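import Pool.Agent.Work.MP_8ddad6_co.ElimDefs

namespace Pool.Agent.Work.MP_8ddad6_co

variable {α β : ℕ → ℕ} {T : ℕ}

/-- the non-symmetric case -/
def NonS (α β : ℕ → ℕ) : Prop :=
  (∃ e e', (Act α e ∧ β e < α e) ∧ (Act α e' ∧ β e' < α e') ∧ e ≠ e') ∨
    ∃ e, Act α e ∧ β e + 2 ≤ α e

theorem Ctr.exE (C : Ctr α β T) : ∃ e, Act α e ∧ β e < α e := by
  obtain ⟨k, hk⟩ := C.hE
  obtain ⟨i, hi, h1, _⟩ := exists_act C.pa C.ca C.pb hk
  exact ⟨i, hi, h1⟩

theorem Ctr.nonS_hit (C : Ctr α β T) (h : NonS α β) {k : ℕ} (hk : β k < α k) :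
    ∃ e, Val α β T (.t e) ∧ Hi α β T (.t e) k := by
  have key : ∀ e, Act α e → β e < α e → k ≠ e → Val α β T (.t e) ∧ Hi α β T (.t e) k := by
    intro e he hlt hne
    refine ⟨⟨he, hlt⟩, ?_⟩
    have := C.off (x := .a e) he (k := k) hne
    simp only [bs, pth] at this
    simp only [Hi, bs, pth]
    omega
  rcases h with ⟨e, e', ⟨h1, h2⟩, ⟨h3, h4⟩, hne⟩ | ⟨e, h1, h2⟩
  · by_cases hke : k = e
    · exact ⟨e', key e' h3 h4 (by omega)⟩
    · exact ⟨e, key e h1 h2 hke⟩
  · by_cases hke : k = e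
    · refine ⟨e, ⟨h1, by omega⟩, ?_⟩
      have := C.at_crd (x := .a e) h1
      simp only [bs, pth, crd] at this
      simp only [Hi, bs, pth]
      subst hke
      omega
    · exact ⟨e, key e h1 (by omega) hke⟩

/-- if `β` has an active coordinate right of `T`, those left of `T` are trivial -/
theorem Ctr.left_right (C : Ctr α β T) {j j' : ℕ} (hj : Act β j) (hj' : Act β j') (h1 : j < T)
    (h2 : T < j') : β j = j := by
  by_contra hcon
  have h0 := C.pb.le_self j
  have a1 := hj.rel C.pb T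
  have a2 := hj.rel C.pb j'
  have a3 := C.actT.rel C.pb j
  have a4 := C.actT.rel C.pb j'
  have a5 := hj'.rel C.pb j
  have a6 := hj'.rel C.pb T
  refine C.no2cyc (x := .b j) (y := .b j') ⟨hj, by omega⟩ ⟨hj', by omega⟩ ?_ ?_
  · simp only [Hi, bs, pth, Mx, crd]
    omega
  · simp only [Hi, bs, pth, Mx, crd]
    omega

/-- `z` is a coordinate in `Z` -/
def Zc (α β : ℕ → ℕ) (z : ℕ) : Prop := (Act α z ∨ Act β z) ∧ α z = β z

theorem Ctr.zv (C : Ctr α β T) {z : ℕ} (hz : Zc α β z) :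
    ∃ v, Val α β T v ∧ crd T v = z ∧ ∀ k, α k = β k → α k < Mx z (α z - 1) k → Hi α β T v k := by
  have hT := C.DT
  obtain ⟨h1, h2⟩ := hz
  by_cases h : Act α z
  · refine ⟨.u z, ⟨h, h2⟩, rfl, ?_⟩
    intro k hk hlt
    simpa [Hi, bs, pth] using hlt
  · have hb : Act β z := h1.resolve_left h
    refine ⟨.b z, ⟨hb, by rintro rfl; omega⟩, rfl, ?_⟩
    intro k hk hlt
    simp only [Hi, bs, pth]
    rw [← hk, ← h2]
    exact hlt

theorem Zc.incr (C : Ctr α β T) {z z' : ℕ} (hz : Zc α β z) (hz' : Zc α β z') (h : z < z') :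
    α z < α z' ∧ α z' + z < α z + z' := by
  obtain ⟨h1, h2⟩ := hz
  obtain ⟨h3, h4⟩ := hz'
  constructor
  · rcases h3 with h3 | h3
    · exact (h3.rel C.pa z).2.1 h
    · have := (h3.rel C.pb z).2.1 h
      omega
  · rcases h1 with h1 | h1
    · exact (h1.rel C.pa z').2.2 h
    · have := (h1.rel C.pb z').2.2 h
      omega

theorem Ctr.zcount (C : Ctr α β T) {z1 z2 z3 : ℕ} (h1 : Zc α β z1) (h2 : Zc α β z2)
    (h3 : Zc α β z3) (h12 : z1 < z2) (h23 : z2 < z3) (hn : α z1 < z1) : False := by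
  have i12 := Zc.incr C h1 h2 h12
  have i23 := Zc.incr C h2 h3 h23
  obtain ⟨v, hv, cv, pv⟩ := C.zv h1
  obtain ⟨w, hw, cw, pw⟩ := C.zv h3
  have e1 := h1.2
  have e3 := h3.2
  refine C.no2cyc hv hw ?_ ?_
  · rw [cw]
    refine pv _ e3 ?_
    simp only [Mx]
    omega
  · rw [cv]
    refine pw _ e1 ?_
    simp only [Mx]
    omega

/-- three pairwise distinct nontrivial `Z`-coordinates are impossible -/
theorem Ctr.zcount' (C : Ctr α β T) {x y z : ℕ} (hx : Zc α β x) (hy : Zc α β y)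
    (hz : Zc α β z) (nx : α x < x) (ny : α y < y) (nz : α z < z) (h1 : x ≠ y) (h2 : y ≠ z)
    (h3 : x ≠ z) : False := by
  rcases lt_or_gt_of_ne h1 with a | a <;> rcases lt_or_gt_of_ne h2 with b | b <;>
    rcases lt_or_gt_of_ne h3 with c | c
  · exact C.zcount hx hy hz a b nx
  · omega
  · exact C.zcount hx hz hy c b nx
  · exact C.zcount hz hx hy c a nz
  · exact C.zcount hy hx hz a c ny
  · exact C.zcount hy hz hx b c ny
  · omega
  · exact C.zcount hz hy hx b a nz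

/-- A nontrivial `z ∈ J ∩ Z` high at `T` excludes `J ∩ E` (non-symmetric case). -/
theorem Ctr.claimQ (C : Ctr α β T) (h : NonS α β) {j' j : ℕ} (hj' : Act β j') (hE : β j' < α j')
    (hj : Act β j) (hjT : j ≠ T) (hZ : α j = β j) (hn : α j < j) (hi : Hi α β T (.b j) T) :
    False := by
  have hDT := C.DT
  have hj'T : j' ≠ T := by rintro rfl; omega
  obtain ⟨e, hve, hhe⟩ := C.nonS_hit h hE
  -- `b j'` is not high at `T`
  have hnot : ¬ Hi α β T (.b j') T := by
    intro hcon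
    exact C.no2cyc (x := .b j') (y := .t e) ⟨hj', hj'T⟩ hve hcon hhe
  obtain ⟨i, hiact, hilt, hadj⟩ := exists_act C.pa C.ca C.pb hE
  have a0 := C.pb.le_self j
  have a0' := C.pb.le_self j'
  have a1 := hj.rel C.pb j'
  have a2 := hj'.rel C.pb j
  have a3 := C.actT.rel C.pb j
  have a4 := C.actT.rel C.pb j'
  have a5 := hj.rel C.pb T
  have a6 := hj'.rel C.pb T
  have a7 := C.pa.rel j j'
  have a8 := C.pa.rel i j
  have a9 := C.pa.rel i j'
  have a10 := C.pb.rel j T
  have a11 := C.pb.rel j' T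
  have a12 := C.pa.rel j T
  have a13 := C.pa.rel j' T
  have hjj' : j ≠ j' := by rintro rfl; omega
  rcases lt_or_gt_of_ne hjT with c1 | c1 <;> rcases lt_or_gt_of_ne hj'T with c2 | c2
  · -- both left
    simp only [Hi, bs, pth, Mx] at hi hnot
    refine C.no2cyc (x := .b j) (y := .t i) ⟨hj, hjT⟩ ⟨hiact, hilt⟩ ?_ ?_
    · simp only [Hi, bs, pth, Mx, crd]
      omega
    · simp only [Hi, bs, pth, Mx, crd]
      omega
  · have := C.left_right hj hj' c1 c2
    omega
  · have := C.left_right hj' hj c2 c1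
    have := C.pa.le_self j'
    omega
  · simp only [Hi, bs, pth, Mx] at hi hnot
    refine C.no2cyc (x := .b j) (y := .t i) ⟨hj, hjT⟩ ⟨hiact, hilt⟩ ?_ ?_
    · simp only [Hi, bs, pth, Mx, crd]
      omega
    · simp only [Hi, bs, pth, Mx, crd]
      omega

/-- coordinates in a closed set are nontrivial -/
theorem Hi.nontriv {x : V} {k : ℕ} (h : Hi α β T x k) : bs α β x k < k := by
  have := (uPath_pth (α := α) (β := β) (T := T) x).le_self k
  unfold Hi at h
  omega

end Pool.Agent.Work.MP_8ddad6_co
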