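import Pool.Agent.Work.MP_8ddad6_co.M6a

namespace Pool.Agent.Work.MP_8ddad6_co

variable {α β : ℕ → ℕ} {T : ℕ}

theorem Ctr.not_self (C : Ctr α β T) {x : V} (hx : Val α β T x) : ¬ Hi α β T x (crd T x) := by
  have := C.at_crd hx
  unfold Hi
  omega

theorem Ctr.not_hi_a_T (C : Ctr α β T) {i : ℕ} : ¬ Hi α β T (.a i) T := by
  simp only [Hi, bs, pth, Mx]
  omega

theorem Ctr.not_hi_t_T (C : Ctr α β T) {i : ℕ} : ¬ Hi α β T (.t i) T := by
  have := C.DT
  simp only [Hi, bs, pth, Mx]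
  omega

/-- for `k ∈ Z`, `a i` and `t i` are equivalent -/
theorem hi_t_of_hi_a {i k : ℕ} (hk : α k = β k) (h : Hi α β T (.a i) k) : Hi α β T (.t i) k := by
  simp only [Hi, bs, pth] at h ⊢
  omega

theorem hi_a_of_hi_t {i k : ℕ} (hk : α k = β k) (h : Hi α β T (.t i) k) : Hi α β T (.a i) k := by
  simp only [Hi, bs, pth] at h ⊢
  omega

theorem nontriv_Z {x : V} {k : ℕ} (hk : α k = β k) (h : Hi α β T x k) : α k < k := by
  have := h.nontriv
  rw [bs_eq] at this
  have h2 := nb_le x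
  rw [← hk, ← add_mul] at this
  have : (1 - nb x + nb x) = 1 := by omega
  simp_all

/-- non-symmetric case: no closed set contains a vertex with coordinate `T` -/
theorem Ctr.M6_T (C : Ctr α β T) (hNS : NonS α β) (X : V → Prop)
    (hval : ∀ x, X x → Val α β T x) (hu : ∀ z, ¬ X (.u z)) (hT : ∃ x, X x ∧ crd T x = T)
    (hcl : ∀ x, X x → ∃ y, X y ∧ Hi α β T y (crd T x)) : False := by
  obtain ⟨x0, hx0, c0⟩ := hT
  obtain ⟨y, hy, hhy⟩ := hcl x0 hx0
  rw [c0] at hhy
  obtain ⟨j, rfl⟩ : ∃ j, y = .b j := by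
    cases y with
    | a i => exact absurd hhy C.not_hi_a_T
    | b j => exact ⟨j, rfl⟩
    | t e => exact absurd hhy C.not_hi_t_T
    | u z => exact absurd hy (hu z)
  obtain ⟨hjact, hjT⟩ := hval _ hy
  have hjval : Val α β T (.b j) := ⟨hjact, hjT⟩
  have hjle := C.hJ j hjact hjT
  have hjZ : α j = β j := by
    by_contra hne
    obtain ⟨e, hve, hhe⟩ := C.nonS_hit hNS (show β j < α j by omega)
    exact C.no2cyc hjval hve hhy hhe
  have hjZc : Zc α β j := ⟨Or.inr hjact, hjZ⟩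
  -- predecessor of `b j`
  obtain ⟨y1, hy1, hhy1⟩ := hcl _ hy
  simp only [crd] at hhy1
  have hjn : α j < j := nontriv_Z hjZ hhy1
  obtain ⟨z, hzc, hZz, hzT⟩ : ∃ z, crd T y1 = z ∧ Zc α β z ∧ z ≠ T := by
    cases y1 with
    | a i =>
      by_cases hiT : i = T
      · subst hiT
        exact absurd (C.no2cyc hjval (hval _ hy1) hhy hhy1) id
      · have hI := C.hI (hval _ hy1) hiT
        by_cases hE : β i < α i
        · exact absurd (C.no2cyc (y := .t i) hjval ⟨hval _ hy1, hE⟩ hhy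
            (hi_t_of_hi_a hjZ hhy1)) id
        · exact ⟨i, rfl, ⟨Or.inl (hval _ hy1), by omega⟩, hiT⟩
    | b j' =>
      have hv := hval _ hy1
      have hJ := C.hJ j' hv.1 hv.2
      by_cases hE : β j' < α j'
      · obtain ⟨e, hve, hhe⟩ := C.nonS_hit hNS hE
        exact absurd (C.no3cyc hve hv hjval hhe hhy1 hhy) id
      · exact ⟨j', rfl, ⟨Or.inr hv.1, by omega⟩, hv.2⟩
    | t e => exact absurd (C.no2cyc hjval (hval _ hy1) hhy hhy1) id
    | u z => exact absurd hy1 (hu z)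
  have hv1 := hval _ hy1
  have hzj : z ≠ j := by
    rintro rfl
    rw [← hzc] at hhy1
    exact C.not_self hv1 hhy1
  -- predecessor of `y1`
  obtain ⟨y2, hy2, hhy2⟩ := hcl _ hy1
  rw [hzc] at hhy2
  have hzn : α z < z := nontriv_Z hZz.2 hhy2
  have hv2 := hval _ hy2
  obtain ⟨y3, hy3, hhy3⟩ := hcl _ hy2
  cases y2 with
  | a i =>
    simp only [crd] at hhy3
    by_cases hiT : i = T
    · subst hiT
      exact C.no3cyc (x := .a i) hv2 hv1 hjval (by rw [hzc]; exact hhy2) hhy1 hhy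
    · have hI := C.hI hv2 hiT
      by_cases hE : β i < α i
      · exact C.no3cyc (x := .t i) ⟨hv2, hE⟩ hv1 hjval
          (by rw [hzc]; exact hi_t_of_hi_a hZz.2 hhy2) hhy1 hhy
      · have hZi : Zc α β i := ⟨Or.inl hv2, by omega⟩
        have hin : α i < i := nontriv_Z hZi.2 hhy3
        have hiz : i ≠ z := by
          rintro rfl
          exact C.not_self hv2 hhy2
        by_cases hij : i = j
        · subst hij
          exact C.no2cyc hv2 hv1 (by rw [hzc]; exact hhy2) hhy1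
        · exact C.zcount' hZi hZz hjZc hin hzn hjn hiz hzj hij
  | b j' =>
    simp only [crd] at hhy3
    have hJ := C.hJ j' hv2.1 hv2.2
    by_cases hE : β j' < α j'
    · exact C.claimQ hNS hv2.1 hE hjact hjT hjZ hjn hhy
    · have hZi : Zc α β j' := ⟨Or.inr hv2.1, by omega⟩
      have hin : α j' < j' := nontriv_Z hZi.2 hhy3
      have hiz : j' ≠ z := by
        rintro rfl
        exact C.not_self hv2 hhy2
      by_cases hij : j' = j
      · subst hij
        exact C.no2cyc hv2 hv1 (by rw [hzc]; exact hhy2) hhy1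
      · exact C.zcount' hZi hZz hjZc hin hzn hjn hiz hzj hij
  | t e =>
    exact C.no3cyc hv2 hv1 hjval (by rw [hzc]; exact hhy2) hhy1 hhy
  | u z => exact absurd hy2 (hu z)

end Pool.Agent.Work.MP_8ddad6_co
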