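import Pool.Agent.Work.MP_8ddad6_co.M6b

namespace Pool.Agent.Work.MP_8ddad6_co

variable {α β : ℕ → ℕ} {T : ℕ}

theorem Ctr.ne_crd (C : Ctr α β T) {x y : V} (hx : Val α β T x) (h : Hi α β T x (crd T y)) :
    crd T x ≠ crd T y := by
  intro e
  rw [← e] at h
  exact C.not_self hx h

/-- a chain of four predecessors has distinct coordinates -/
theorem Ctr.chain (C : Ctr α β T) {x0 x1 x2 x3 : V} (_h0 : Val α β T x0) (h1 : Val α β T x1)
    (h2 : Val α β T x2) (h3 : Val α β T x3) (a1 : Hi α β T x1 (crd T x0))
    (a2 : Hi α β T x2 (crd T x1)) (a3 : Hi α β T x3 (crd T x2)) :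
    crd T x1 ≠ crd T x0 ∧ crd T x2 ≠ crd T x1 ∧ crd T x2 ≠ crd T x0 ∧ crd T x3 ≠ crd T x2 ∧
      crd T x3 ≠ crd T x1 ∧ crd T x3 ≠ crd T x0 := by
  refine ⟨C.ne_crd h1 a1, C.ne_crd h2 a2, ?_, C.ne_crd h3 a3, ?_, ?_⟩
  · intro e
    rw [← e] at a1
    exact C.no2cyc h1 h2 a1 a2
  · intro e
    rw [← e] at a2
    exact C.no2cyc h2 h3 a2 a3
  · intro e
    rw [← e] at a1
    exact C.no3cyc h3 h2 h1 a3 a2 a1

section S

/-- symmetric case -/
theorem Ctr.M6_S (C : Ctr α β T) {c : ℕ} (hc : Act α c) (hDc : α c = β c + 1)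
    (huniq : ∀ i, Act α i → β i < α i → i = c) (X : V → Prop)
    (hval : ∀ x, X x → Val α β T x) (hu : ∀ z, ¬ X (.u z)) (hne : ∃ x, X x)
    (hcl : ∀ x, X x → ∃ y, X y ∧ Hi α β T y (crd T x)) : False := by
  have hDT := C.DT
  have hcT : c ≠ T := by rintro rfl; omega
  -- coordinates of `X`
  have hcoord : ∀ x, X x → crd T x = T ∨ crd T x = c ∨ Zc α β (crd T x) := by
    intro x hx
    have hv := hval x hx
    cases x with
    | a i =>
      by_cases hiT : i = T
      · exact Or.inl hiT
      · have h1 := C.hI hv hiT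
        by_cases h2 : β i < α i
        · exact Or.inr (Or.inl (huniq i hv h2))
        · exact Or.inr (Or.inr ⟨Or.inl hv, by simp only [crd]; omega⟩)
    | b j =>
      have h1 := C.hJ j hv.1 hv.2
      by_cases h2 : β j < α j
      · obtain ⟨i, hi, hlt, hadj⟩ := exists_act C.pa C.ca C.pb h2
        have hic := huniq i hi hlt
        subst hic
        have r1 := hv.1.rel C.pb i
        simp only [crd]
        omega
      · exact Or.inr (Or.inr ⟨Or.inr hv.1, by simp only [crd]; omega⟩)
    | t e => exact Or.inl rfl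
    | u z => exact absurd hx (hu z)
  have hnt : ∀ x, X x → Zc α β (crd T x) → α (crd T x) < crd T x := by
    intro x hx hz
    obtain ⟨y, hy, hh⟩ := hcl x hx
    exact nontriv_Z hz.2 hh
  by_cases hT : ∃ x, X x ∧ crd T x = T
  · obtain ⟨x0, hx0, c0⟩ := hT
    obtain ⟨x1, hx1, a1⟩ := hcl _ hx0
    obtain ⟨x2, hx2, a2⟩ := hcl _ hx1
    obtain ⟨x3, hx3, a3⟩ := hcl _ hx2
    obtain ⟨x4, hx4, a4⟩ := hcl _ hx3
    have v1 := hval _ hx1
    have v2 := hval _ hx2
    have v3 := hval _ hx3
    have v4 := hval _ hx4
    obtain ⟨n10, n21, n20, n32, n31, n30⟩ := C.chain (hval _ hx0) v1 v2 v3 a1 a2 a3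
    obtain ⟨-, -, -, n43, n42, n41⟩ := C.chain v1 v2 v3 v4 a2 a3 a4
    rw [c0] at n10 n20 n30 a1
    have d1 := hcoord _ hx1
    have d2 := hcoord _ hx2
    have d3 := hcoord _ hx3
    have d4 := hcoord _ hx4
    -- the vertex at `c` is `a c` or `b c`
    have hvc : ∀ x, X x → crd T x = c → x = .a c ∨ (x = .b c ∧ Act β c) := by
      intro x hx hxc
      have hv := hval x hx
      cases x with
      | a i => left; simp only [crd] at hxc; rw [hxc]
      | b j =>
        right
        simp only [crd] at hxc
        subst hxc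
        exact ⟨rfl, hv.1⟩
      | t e => exact absurd hxc (fun h => hcT h.symm)
      | u z => exact absurd hx (hu z)
    have hvT : ∀ x, X x → crd T x = T → (x = .a T ∧ Act α T) ∨ x = .t c := by
      intro x hx hxc
      have hv := hval x hx
      cases x with
      | a i =>
        left
        simp only [crd] at hxc
        subst hxc
        exact ⟨rfl, hv⟩
      | b j => exact absurd hxc hv.2
      | t e => right; rw [huniq e hv.1 hv.2]
      | u z => exact absurd hx (hu z)
    have htc : Val α β T (.t c) := ⟨hc, by omega⟩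
    have hac : Val α β T (.a c) := hc
    -- if `T ∈ I`, arcs out of `c` into `Z` are arcs out of `t c`
    have hup : Act α T → ∀ x, X x → crd T x = c → ∀ z, α z = β z → z ≠ T → Hi α β T x z →
        Hi α β T (.t c) z := by
      intro hTa x hx hxc z hz hzT hh
      have hzn := nontriv_Z hz hh
      rcases hvc x hx hxc with rfl | ⟨rfl, hcb⟩
      · exact hi_t_of_hi_a hz hh
      · have r1 := hTa.rel C.pa z
        simp only [Hi, bs, pth, Mx] at hh ⊢
        omega
    by_cases e1 : crd T x1 = c
    · -- P3
      have z2 : Zc α β (crd T x2) := by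
        rcases d2 with h | h | h
        · exact absurd h n20
        · exact absurd (h.trans e1.symm) n21
        · exact h
      have z3 : Zc α β (crd T x3) := by
        rcases d3 with h | h | h
        · exact absurd h n30
        · exact absurd (h.trans e1.symm) n31
        · exact h
      have e4 : crd T x4 = T := by
        rcases d4 with h | h | h
        · exact h
        · exact absurd (h.trans e1.symm) n41
        · exact absurd (C.zcount' z2 z3 h (hnt _ hx2 z2) (hnt _ hx3 z3) (hnt _ hx4 h)
            (Ne.symm n32) (Ne.symm n43) (Ne.symm n42)) id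
      have hb : Act β c := by
        rcases hvc x1 hx1 e1 with rfl | ⟨rfl, hcb⟩
        · exact absurd a1 C.not_hi_a_T
        · exact hcb
      have hgoal : Hi α β T (.a c) (crd T x3) := by
        rcases hvT x4 hx4 e4 with ⟨rfl, hTa⟩ | rfl
        · have r1 := hTa.rel C.pa (crd T x3)
          have r2 := hb.rel C.pb (crd T x3)
          have r3 := z3.2
          have r4 := hnt _ hx3 z3
          have r5 : crd T x3 ≠ c := fun h => n31 (h.trans e1.symm)
          simp only [Hi, bs, pth, Mx]
          omega
        · exact hi_a_of_hi_t z3.2 a4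
      rw [e1] at a2
      exact C.no3cyc hac v3 v2 hgoal a3 a2
    · have z1 : Zc α β (crd T x1) := by
        rcases d1 with h | h | h
        · exact absurd h n10
        · exact absurd h e1
        · exact h
      by_cases e2 : crd T x2 = c
      · -- P2
        have z3 : Zc α β (crd T x3) := by
          rcases d3 with h | h | h
          · exact absurd h n30
          · exact absurd (h.trans e2.symm) n32
          · exact h
        have e4 : crd T x4 = T := by
          rcases d4 with h | h | h
          · exact h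
          · exact absurd (h.trans e2.symm) n42
          · exact absurd (C.zcount' z1 z3 h (hnt _ hx1 z1) (hnt _ hx3 z3) (hnt _ hx4 h)
              (Ne.symm n31) (Ne.symm n43) (Ne.symm n41)) id
        rcases hvT x4 hx4 e4 with ⟨rfl, hTa⟩ | rfl
        · have := hup hTa x2 hx2 e2 _ z1.2 n10 a2
          exact C.no2cyc htc v1 this a1
        · have := hi_a_of_hi_t z3.2 a4
          rw [e2] at a3
          exact C.no2cyc hac v3 this a3
      · have z2 : Zc α β (crd T x2) := by
          rcases d2 with h | h | h
          · exact absurd h n20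
          · exact absurd h e2
          · exact h
        have e3 : crd T x3 = c := by
          rcases d3 with h | h | h
          · exact absurd h n30
          · exact h
          · exact absurd (C.zcount' z1 z2 h (hnt _ hx1 z1) (hnt _ hx2 z2) (hnt _ hx3 h)
              (Ne.symm n21) (Ne.symm n32) (Ne.symm n31)) id
        have e4 : crd T x4 = T := by
          rcases d4 with h | h | h
          · exact h
          · exact absurd (h.trans e3.symm) n43
          · exact absurd (C.zcount' z1 z2 h (hnt _ hx1 z1) (hnt _ hx2 z2) (hnt _ hx4 h)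
              (Ne.symm n21) (Ne.symm n42) (Ne.symm n41)) id
        rcases hvT x4 hx4 e4 with ⟨rfl, hTa⟩ | rfl
        · have := hup hTa x3 hx3 e3 _ z2.2 n20 a3
          exact C.no3cyc htc v2 v1 this a2 a1
        · rw [e3] at a4
          have r1 := hc.rel C.pa T
          simp only [Hi, bs, pth, Mx] at a4
          omega
  · push Not at hT
    obtain ⟨x0, hx0⟩ := hne
    obtain ⟨x1, hx1, a1⟩ := hcl _ hx0
    obtain ⟨x2, hx2, a2⟩ := hcl _ hx1
    obtain ⟨x3, hx3, a3⟩ := hcl _ hx2
    have v0 := hval _ hx0
    have v1 := hval _ hx1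
    have v2 := hval _ hx2
    have v3 := hval _ hx3
    obtain ⟨n10, n21, n20, n32, n31, n30⟩ := C.chain v0 v1 v2 v3 a1 a2 a3
    have g : ∀ x, X x → crd T x ≠ c → Zc α β (crd T x) := by
      intro x hx h
      rcases hcoord x hx with h1 | h1 | h1
      · exact absurd h1 (hT x hx)
      · exact absurd h1 h
      · exact h1
    have key : ∀ x y z, X x → X y → X z → crd T x ≠ crd T y → crd T y ≠ crd T z →
        crd T x ≠ crd T z → crd T x ≠ c → crd T y ≠ c → crd T z ≠ c → False := by
      intro x y z hx hy hz h1 h2 h3 cx cy cz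
      have zx := g x hx cx
      have zy := g y hy cy
      have zz := g z hz cz
      exact C.zcount' zx zy zz (hnt _ hx zx) (hnt _ hy zy) (hnt _ hz zz) h1 h2 h3
    by_cases e0 : crd T x0 = c
    · exact key x1 x2 x3 hx1 hx2 hx3 (Ne.symm n21) (Ne.symm n32) (Ne.symm n31) (by rwa [e0] at n10)
        (by rwa [e0] at n20) (by rwa [e0] at n30)
    · by_cases e1 : crd T x1 = c
      · exact key x0 x2 x3 hx0 hx2 hx3 (Ne.symm n20) (Ne.symm n32) (Ne.symm n30) e0
          (by rwa [e1] at n21) (by rwa [e1] at n31)
      · by_cases e2 : crd T x2 = c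
        · exact key x0 x1 x3 hx0 hx1 hx3 (Ne.symm n10) (Ne.symm n31) (Ne.symm n30) e0 e1
            (by rwa [e2] at n32)
        · exact key x0 x1 x2 hx0 hx1 hx2 (Ne.symm n10) (Ne.symm n21) (Ne.symm n20) e0 e1 e2

end S

end Pool.Agent.Work.MP_8ddad6_co
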