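import Pool.Agent.Work.MP_8ddad6_co.M6c

namespace Pool.Agent.Work.MP_8ddad6_co

variable {α β : ℕ → ℕ} {T : ℕ}

/-- extreme elements of a bounded nonempty set of naturals -/
theorem exists_ext {S : ℕ → Prop} (hne : ∃ i, S i) (hb : ∃ n, ∀ i, S i → i ≤ n) :
    ∃ lo hi, S lo ∧ S hi ∧ ∀ i, S i → lo ≤ i ∧ i ≤ hi := by
  classical
  obtain ⟨n, hn⟩ := hb
  have hlo := Nat.find_spec hne
  obtain ⟨i0, hi0⟩ := hne
  have hhi : S (Nat.findGreatest S n) := Nat.findGreatest_spec (hn i0 hi0) hi0
  refine ⟨Nat.find ⟨i0, hi0⟩, Nat.findGreatest S n, hlo, hhi, ?_⟩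
  intro i hi
  exact ⟨Nat.find_min' _ hi, Nat.le_findGreatest (hn i hi) hi⟩

theorem act_bdd {f : ℕ → ℕ} (hc : ∃ n, ∀ k, n ≤ k → f k = f n) : ∃ n, ∀ i, Act f i → i ≤ n := by
  obtain ⟨n, hn⟩ := hc
  refine ⟨n, ?_⟩
  intro i hi
  by_contra hcon
  push Not at hcon
  have h1 := hn (i - 1) (by omega)
  have h2 := hn i (by omega)
  have h3 := hi.2.1
  omega

theorem Ctr.ext_a (C : Ctr α β T) {lo i hi k : ℕ} (hl : Act α lo) (hi' : Act α i)
    (hh : Act α hi) (h1 : lo ≤ i) (h2 : i ≤ hi) (h : Hi α β T (.a i) k) :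
    Hi α β T (.a lo) k ∨ Hi α β T (.a hi) k := by
  have r1 := C.pa.rel lo i
  have r2 := C.pa.rel i hi
  have r3 := hl.pos
  have r4 := hh.pos
  have r5 := hi'.pos
  have r6 : i ≠ k := fun e => by
    subst e
    simp only [Hi, bs, pth, Mx] at h
    omega
  rcases lt_or_gt_of_ne r6 with c | c
  · left
    simp only [Hi, bs, pth, Mx] at h ⊢
    omega
  · right
    simp only [Hi, bs, pth, Mx] at h ⊢
    omega

theorem Ctr.ext_b (C : Ctr α β T) {lo j hi k : ℕ} (hl : Act β lo) (hj : Act β j)
    (hh : Act β hi) (h1 : lo ≤ j) (h2 : j ≤ hi) (h : Hi α β T (.b j) k) :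
    Hi α β T (.b lo) k ∨ Hi α β T (.b hi) k := by
  have r1 := C.pb.rel lo j
  have r2 := C.pb.rel j hi
  have r3 := hl.pos
  have r4 := hh.pos
  have r5 := hj.pos
  have r6 : j ≠ k := fun e => by
    subst e
    simp only [Hi, bs, pth, Mx] at h
    omega
  rcases lt_or_gt_of_ne r6 with c | c
  · left
    simp only [Hi, bs, pth, Mx] at h ⊢
    omega
  · right
    simp only [Hi, bs, pth, Mx] at h ⊢
    omega

deriving instance DecidableEq for V

/-- a nonempty closed set of at most four vertices is a 4-cycle -/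
theorem Ctr.closed4 (C : Ctr α β T) (S : Finset V) (hcard : S.card ≤ 4) (hne : ∃ x, x ∈ S)
    (hval : ∀ x ∈ S, Val α β T x) (hcl : ∀ x ∈ S, ∃ y ∈ S, Hi α β T y (crd T x)) :
    ∃ x0 x1 x2 x3, S = {x0, x1, x2, x3} ∧ S.card = 4 ∧ x0 ∈ S ∧ x1 ∈ S ∧ x2 ∈ S ∧ x3 ∈ S ∧
      Hi α β T x1 (crd T x0) ∧ Hi α β T x2 (crd T x1) ∧ Hi α β T x3 (crd T x2) ∧
      Hi α β T x0 (crd T x3) := by
  obtain ⟨x0, hx0⟩ := hne
  obtain ⟨x1, hx1, a1⟩ := hcl _ hx0
  obtain ⟨x2, hx2, a2⟩ := hcl _ hx1
  obtain ⟨x3, hx3, a3⟩ := hcl _ hx2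
  obtain ⟨x4, hx4, a4⟩ := hcl _ hx3
  have v0 := hval _ hx0
  have v1 := hval _ hx1
  have v2 := hval _ hx2
  have v3 := hval _ hx3
  have v4 := hval _ hx4
  obtain ⟨n10, n21, n20, n32, n31, n30⟩ := C.chain v0 v1 v2 v3 a1 a2 a3
  obtain ⟨-, -, -, n43, n42, n41⟩ := C.chain v1 v2 v3 v4 a2 a3 a4
  have m10 : x1 ≠ x0 := fun h => n10 (by rw [h])
  have m21 : x2 ≠ x1 := fun h => n21 (by rw [h])
  have m20 : x2 ≠ x0 := fun h => n20 (by rw [h])
  have m32 : x3 ≠ x2 := fun h => n32 (by rw [h])
  have m31 : x3 ≠ x1 := fun h => n31 (by rw [h])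
  have m30 : x3 ≠ x0 := fun h => n30 (by rw [h])
  have hc4 : ({x0, x1, x2, x3} : Finset V).card = 4 := by
    rw [Finset.card_insert_of_notMem, Finset.card_insert_of_notMem, Finset.card_insert_of_notMem,
      Finset.card_singleton]
    · simp [m32.symm]
    · simp [m21.symm, m31.symm]
    · simp [m10.symm, m20.symm, m30.symm]
  have hsub : ({x0, x1, x2, x3} : Finset V) ⊆ S := by
    intro y hy
    simp only [Finset.mem_insert, Finset.mem_singleton] at hy
    rcases hy with rfl | rfl | rfl | rfl <;> assumption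
  have hS : ({x0, x1, x2, x3} : Finset V) = S :=
    Finset.eq_of_subset_of_card_le hsub (by rw [hc4]; exact hcard)
  have hx4' : x4 = x0 := by
    have : x4 ∈ ({x0, x1, x2, x3} : Finset V) := by rw [hS]; exact hx4
    simp only [Finset.mem_insert, Finset.mem_singleton] at this
    rcases this with h | h | h | h
    · exact h
    · exact absurd (by rw [h]) n41
    · exact absurd (by rw [h]) n42
    · exact absurd (by rw [h]) n43
  subst hx4'
  exact ⟨x4, x1, x2, x3, hS.symm, by rw [← hS]; exact hc4, hx0, hx1, hx2, hx3, a1, a2, a3, a4⟩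

/-- reduction of a closed set without `T`-coordinates to a 4-cycle -/
theorem Ctr.reduce (C : Ctr α β T) (X : V → Prop)
    (hval : ∀ x, X x → Val α β T x) (hu : ∀ z, ¬ X (.u z)) (hne : ∃ x, X x)
    (hT : ∀ x, X x → crd T x ≠ T)
    (hcl : ∀ x, X x → ∃ y, X y ∧ Hi α β T y (crd T x)) :
    ∃ i1 i2 j1 j2 x0 x1 x2 x3, X (.a i1) ∧ X (.a i2) ∧ X (.b j1) ∧ X (.b j2) ∧ i1 < i2 ∧ j1 < j2 ∧
      X x0 ∧ X x1 ∧ X x2 ∧ X x3 ∧
      Hi α β T x1 (crd T x0) ∧ Hi α β T x2 (crd T x1) ∧ Hi α β T x3 (crd T x2) ∧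
      Hi α β T x0 (crd T x3) := by
  obtain ⟨na, hna⟩ := act_bdd C.ca
  obtain ⟨nb', hnb⟩ := act_bdd C.cb
  by_cases hA : ∃ i, X (.a i)
  · obtain ⟨i1, i2, hi1, hi2, hiext⟩ := exists_ext hA ⟨na, fun i hi => hna i (hval _ hi)⟩
    by_cases hB : ∃ j, X (.b j)
    · obtain ⟨j1, j2, hj1, hj2, hjext⟩ := exists_ext hB ⟨nb', fun i hi => hnb i (hval _ hi).1⟩
      obtain ⟨x0, x1, x2, x3, hS, hc, m0, m1, m2, m3, h1, h2, h3, h4⟩ :=
        C.closed4 ({.a i1, .a i2, .b j1, .b j2} : Finset V) (Finset.card_le_four)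
          ⟨.a i1, by simp⟩ (by
            intro x hx
            simp only [Finset.mem_insert, Finset.mem_singleton] at hx
            rcases hx with rfl | rfl | rfl | rfl
            · exact hval _ hi1
            · exact hval _ hi2
            · exact hval _ hj1
            · exact hval _ hj2) (by
            intro x hx
            have hX : X x := by
              simp only [Finset.mem_insert, Finset.mem_singleton] at hx
              rcases hx with rfl | rfl | rfl | rfl <;> assumption
            obtain ⟨y, hy, hh⟩ := hcl x hX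
            have hv := hval _ hy
            cases y with
            | a i =>
              rcases C.ext_a (hval _ hi1) hv (hval _ hi2) (hiext i hy).1 (hiext i hy).2 hh with h | h
              · exact ⟨.a i1, by simp, h⟩
              · exact ⟨.a i2, by simp, h⟩
            | b j =>
              rcases C.ext_b (hval _ hj1).1 hv.1 (hval _ hj2).1 (hjext j hy).1 (hjext j hy).2 hh with
                h | h
              · exact ⟨.b j1, by simp, h⟩
              · exact ⟨.b j2, by simp, h⟩
            | t e => exact absurd rfl (hT _ hy)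
            | u z => exact absurd hy (hu z))
      have hXm : ∀ x ∈ ({.a i1, .a i2, .b j1, .b j2} : Finset V), X x := by
        intro x hx
        simp only [Finset.mem_insert, Finset.mem_singleton] at hx
        rcases hx with rfl | rfl | rfl | rfl <;> assumption
      have hi12 : i1 ≠ i2 := by
        rintro rfl
        have : ({.a i1, .a i1, .b j1, .b j2} : Finset V) = {.a i1, .b j1, .b j2} := by simp
        rw [this] at hc
        have := Finset.card_le_three (a := V.a i1) (b := V.b j1) (c := V.b j2)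
        omega
      have hj12 : j1 ≠ j2 := by
        rintro rfl
        have : ({.a i1, .a i2, .b j1, .b j1} : Finset V) = {.a i1, .a i2, .b j1} := by simp
        rw [this] at hc
        have := Finset.card_le_three (a := V.a i1) (b := V.a i2) (c := V.b j1)
        omega
      exact ⟨i1, i2, j1, j2, x0, x1, x2, x3, hi1, hi2, hj1, hj2,
        lt_of_le_of_ne (hiext i2 hi2).1 hi12, lt_of_le_of_ne (hjext j2 hj2).1 hj12,
        hXm _ m0, hXm _ m1, hXm _ m2, hXm _ m3, h1, h2, h3, h4⟩
    · exfalso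
      obtain ⟨x0, x1, x2, x3, hS, hc, m0, m1, m2, m3, h1, h2, h3, h4⟩ :=
        C.closed4 ({.a i1, .a i2} : Finset V) ((Finset.card_le_two).trans (by norm_num))
          ⟨.a i1, by simp⟩ (by
            intro x hx
            simp only [Finset.mem_insert, Finset.mem_singleton] at hx
            rcases hx with rfl | rfl
            · exact hval _ hi1
            · exact hval _ hi2) (by
            intro x hx
            have hX : X x := by
              simp only [Finset.mem_insert, Finset.mem_singleton] at hx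
              rcases hx with rfl | rfl <;> assumption
            obtain ⟨y, hy, hh⟩ := hcl x hX
            have hv := hval _ hy
            cases y with
            | a i =>
              rcases C.ext_a (hval _ hi1) hv (hval _ hi2) (hiext i hy).1 (hiext i hy).2 hh with h | h
              · exact ⟨.a i1, by simp, h⟩
              · exact ⟨.a i2, by simp, h⟩
            | b j => exact absurd ⟨j, hy⟩ hB
            | t e => exact absurd rfl (hT _ hy)
            | u z => exact absurd hy (hu z))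
      have := Finset.card_le_two (a := V.a i1) (b := V.a i2)
      omega
  · exfalso
    have hB : ∃ j, X (.b j) := by
      obtain ⟨x, hx⟩ := hne
      cases x with
      | a i => exact absurd ⟨i, hx⟩ hA
      | b j => exact ⟨j, hx⟩
      | t e => exact absurd rfl (hT _ hx)
      | u z => exact absurd hx (hu z)
    obtain ⟨j1, j2, hj1, hj2, hjext⟩ := exists_ext hB ⟨nb', fun i hi => hnb i (hval _ hi).1⟩
    obtain ⟨x0, x1, x2, x3, hS, hc, m0, m1, m2, m3, h1, h2, h3, h4⟩ :=
      C.closed4 ({.b j1, .b j2} : Finset V) ((Finset.card_le_two).trans (by norm_num))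
        ⟨.b j1, by simp⟩ (by
          intro x hx
          simp only [Finset.mem_insert, Finset.mem_singleton] at hx
          rcases hx with rfl | rfl
          · exact hval _ hj1
          · exact hval _ hj2) (by
          intro x hx
          have hX : X x := by
            simp only [Finset.mem_insert, Finset.mem_singleton] at hx
            rcases hx with rfl | rfl <;> assumption
          obtain ⟨y, hy, hh⟩ := hcl x hX
          have hv := hval _ hy
          cases y with
          | a i => exact absurd ⟨i, hy⟩ hA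
          | b j =>
            rcases C.ext_b (hval _ hj1).1 hv.1 (hval _ hj2).1 (hjext j hy).1 (hjext j hy).2 hh with
              h | h
            · exact ⟨.b j1, by simp, h⟩
            · exact ⟨.b j2, by simp, h⟩
          | t e => exact absurd rfl (hT _ hy)
          | u z => exact absurd hy (hu z))
    have := Finset.card_le_two (a := V.b j1) (b := V.b j2)
    omega

/-- two `β`-vertices, one of them high at `T` -/
theorem Ctr.twoB (C : Ctr α β T) (hNS : NonS α β) (X : V → Prop)
    (hval : ∀ x, X x → Val α β T x) (hu : ∀ z, ¬ X (.u z))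
    (hT : ∀ x, X x → crd T x ≠ T)
    (hcl : ∀ x, X x → ∃ y, X y ∧ Hi α β T y (crd T x)) {j j' : ℕ} (hj : X (.b j)) (hj' : X (.b j'))
    (hne : j ≠ j') (hhi : Hi α β T (.b j) T) : False := by
  have vj := hval _ hj
  have vj' := hval _ hj'
  have hle := C.hJ j vj.1 vj.2
  have hZ : α j = β j := by
    by_contra h
    obtain ⟨e, hve, hhe⟩ := C.nonS_hit hNS (show β j < α j by omega)
    exact C.no2cyc vj hve hhi hhe
  obtain ⟨y1, hy1, a1⟩ := hcl _ hj
  obtain ⟨y2, hy2, a2⟩ := hcl _ hj'
  simp only [crd] at a1 a2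
  have hn : α j < j := nontriv_Z hZ a1
  have hJE : ∀ i, Act β i → i ≠ T → α i = β i := by
    intro i hi hiT
    have := C.hJ i hi hiT
    by_contra h
    exact C.claimQ hNS hi (by omega) vj.1 vj.2 hZ hn hhi
  have hZ' := hJE j' vj'.1 vj'.2
  have hn' : α j' < j' := nontriv_Z hZ' a2
  have zj : Zc α β j := ⟨Or.inr vj.1, hZ⟩
  have zj' : Zc α β j' := ⟨Or.inr vj'.1, hZ'⟩
  have hcoord : ∀ x, X x → Zc α β (crd T x) → crd T x = j ∨ crd T x = j' := by
    intro x hx hz
    obtain ⟨y, hy, ha⟩ := hcl _ hx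
    have hnx := nontriv_Z hz.2 ha
    by_contra hcon
    push Not at hcon
    exact C.zcount' hz zj zj' hnx hn hn' hcon.1 hne hcon.2
  have v1 := hval _ hy1
  have v2 := hval _ hy2
  have c1 : crd T y1 = j' := by
    have hz1 : Zc α β (crd T y1) := by
      cases y1 with
      | a i =>
        have hiT : i ≠ T := hT _ hy1
        have hI := C.hI v1 hiT
        refine ⟨Or.inl v1, ?_⟩
        simp only [crd]
        by_contra h
        exact C.no2cyc (y := .t i) vj ⟨v1, by omega⟩ hhi (hi_t_of_hi_a hZ a1)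
      | b i => exact ⟨Or.inr v1.1, hJE i v1.1 v1.2⟩
      | t e => exact absurd rfl (hT _ hy1)
      | u z => exact absurd hy1 (hu z)
    rcases hcoord _ hy1 hz1 with h | h
    · exact absurd (by rw [h]; exact a1) (C.not_self v1)
    · exact h
  have c2 : crd T y2 = j := by
    have hz2 : Zc α β (crd T y2) := by
      cases y2 with
      | a i =>
        have hiT : i ≠ T := hT _ hy2
        have hI := C.hI v2 hiT
        refine ⟨Or.inl v2, ?_⟩
        simp only [crd]
        by_contra h
        exact C.no3cyc (x := .t i) ⟨v2, by omega⟩ v1 vj (by rw [c1]; exact hi_t_of_hi_a hZ' a2)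
          a1 hhi
      | b i => exact ⟨Or.inr v2.1, hJE i v2.1 v2.2⟩
      | t e => exact absurd rfl (hT _ hy2)
      | u z => exact absurd hy2 (hu z)
    rcases hcoord _ hy2 hz2 with h | h
    · exact h
    · exact absurd (by rw [h]; exact a2) (C.not_self v2)
  exact C.no2cyc v1 v2 (by rw [c2]; exact a1) (by rw [c1]; exact a2)

/-- no 4-cycle to the right of `T` when `β T = T` -/
theorem Ctr.noW (C : Ctr α β T) (hβT : β T = T) {x0 x1 x2 x3 : V}
    (v0 : Val α β T x0) (v1 : Val α β T x1) (v2 : Val α β T x2) (v3 : Val α β T x3)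
    (t0 : (∃ i, x0 = .a i) ∨ ∃ i, x0 = .b i) (t1 : (∃ i, x1 = .a i) ∨ ∃ i, x1 = .b i)
    (t2 : (∃ i, x2 = .a i) ∨ ∃ i, x2 = .b i)
    (r0 : T < crd T x0) (r1 : T < crd T x1) (r2 : T < crd T x2) (r3 : T < crd T x3)
    (m1 : crd T x0 ≤ crd T x3) (m2 : crd T x1 ≤ crd T x3) (m3 : crd T x2 ≤ crd T x3)
    (t3 : (∃ i, x3 = .a i) ∨ ∃ i, x3 = .b i)
    (h1 : Hi α β T x1 (crd T x0)) (h2 : Hi α β T x2 (crd T x1)) (h3 : Hi α β T x3 (crd T x2))
    (h4 : Hi α β T x0 (crd T x3)) : False := by
  -- x0 → x3 → x2 → x1 → x0, with `x3` rightmost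
  have right : ∀ x, Val α β T x → ((∃ i, x = .a i) ∨ ∃ i, x = .b i) → ∀ k k', T < k →
      crd T x < k → k ≤ k' → Hi α β T x k → Hi α β T x k' := by
    intro x hv ht k k' hk hck hkk' hh
    have e1 := C.pa.rel k k'
    have e2 := C.pb.rel k k'
    have e3 := C.pa.le_self k'
    have e4 := C.pb.le_self k'
    rcases ht with ⟨i, rfl⟩ | ⟨i, rfl⟩
    · simp only [Hi, bs, pth, Mx, crd] at *
      omega
    · simp only [Hi, bs, pth, Mx, crd] at *
      omega
  have leftb : ∀ i, Act β i → ∀ k k', T < k' → k' ≤ k → k < i → Hi α β T (.b i) k →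
      Hi α β T (.b i) k' := by
    intro i hv k k' hk' hkk' hki hh
    have e1 := C.pb.rel k' k
    have e2 := (C.actT.rel C.pb k').2.2 hk'
    simp only [Hi, bs, pth, Mx] at *
    omega
  have lefta : ∀ i, Act α i → ∀ k k', T < k' → k' ≤ k → k < i → Hi α β T (.a i) k →
      Hi α β T (.a i) k' ∨ k' + α T ≤ α k' + T := by
    intro i hv k k' hk' hkk' hki hh
    have e1 := C.pa.rel k' k
    have e2 := C.pa.rel T k'
    have e3 := C.pa.le_self T
    simp only [Hi, bs, pth, Mx] at hh ⊢
    omega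
  have blk : ∀ i k, T < k → Hi α β T (.a i) k → ¬ k + α T ≤ α k + T := by
    intro i k hk hh
    simp only [Hi, bs, pth, Mx] at *
    omega
  have c10 := C.ne_crd v1 h1
  have c21 := C.ne_crd v2 h2
  have c32 := C.ne_crd v3 h3
  have c03 := C.ne_crd v0 h4
  -- y = x2, w = x1, x = x0, ρ = x3
  have b1 : ¬ Hi α β T x1 (crd T x3) := fun h => C.no3cyc v1 v3 v2 h h3 h2
  have b2 : ¬ Hi α β T x2 (crd T x3) := fun h => C.no2cyc v2 v3 h h3
  have o1 : crd T x0 < crd T x1 := by
    by_contra hcon
    exact b1 (right x1 v1 t1 _ _ r0 (by omega) m1 h1)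
  have o2 : crd T x1 < crd T x2 := by
    by_contra hcon
    exact b2 (right x2 v2 t2 _ _ r1 (by omega) m2 h2)
  have o3 : crd T x2 < crd T x3 := by omega
  have b3 : ¬ Hi α β T x3 (crd T x1) := fun h => C.no3cyc v3 v1 v0 h h1 h4
  rcases t3 with ⟨i3, rfl⟩ | ⟨i3, rfl⟩
  · have blocked1 : crd T x1 + α T ≤ α (crd T x1) + T := by
      rcases lefta i3 v3 _ _ r1 o2.le o3 h3 with h | h
      · exact absurd h b3
      · exact h
    have blocked0 : crd T x0 + α T ≤ α (crd T x0) + T := by
      have := C.pa.rel (crd T x0) (crd T x1)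
      omega
    obtain ⟨i2, rfl⟩ : ∃ i, x2 = .b i := by
      rcases t2 with ⟨i, rfl⟩ | h
      · exact absurd blocked1 (blk _ _ r1 h2)
      · exact h
    have : Hi α β T (.b i2) (crd T x0) := leftb i2 v2.1 _ _ r0 o1.le o2 h2
    exact C.no3cyc v2 v0 v3 this h4 h3
  · exact b3 (leftb i3 v3.1 _ _ r1 o2.le o3 h3)

/-- non-symmetric case: no closed set avoids the coordinate `T` -/
theorem Ctr.M6_noT (C : Ctr α β T) (hNS : NonS α β) (X : V → Prop)
    (hval : ∀ x, X x → Val α β T x) (hu : ∀ z, ¬ X (.u z)) (hne : ∃ x, X x)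
    (hT : ∀ x, X x → crd T x ≠ T)
    (hcl : ∀ x, X x → ∃ y, X y ∧ Hi α β T y (crd T x)) : False := by
  obtain ⟨i1, i2, j1, j2, x0, x1, x2, x3, hi1, hi2, hj1, hj2, hi12, hj12, m0, m1, m2, m3, h1, h2,
    h3, h4⟩ := C.reduce X hval hu hne hT hcl
  have hDT := C.DT
  have vj1 := hval _ hj1
  have vj2 := hval _ hj2
  have hntb : ∀ j, X (.b j) → β j < j := by
    intro j hj
    obtain ⟨y, hy, ha⟩ := hcl _ hj
    have h := ha.nontriv
    have hle := C.hJ j (hval _ hj).1 (hval _ hj).2
    simp only [crd] at h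
    cases y <;> simp only [bs] at h <;> omega
  have hn1 := hntb _ hj1
  have hn2 := hntb _ hj2
  have a1 := vj1.1.rel C.pb j2
  have a2 := vj2.1.rel C.pb j1
  have a3 := vj1.1.rel C.pb T
  have a4 := vj2.1.rel C.pb T
  have a5 := C.actT.rel C.pb j1
  have a6 := C.actT.rel C.pb j2
  rcases lt_or_gt_of_ne vj1.2 with c1 | c1
  · rcases lt_or_gt_of_ne vj2.2 with c2 | c2
    · refine C.twoB hNS X hval hu hT hcl hj1 hj2 hj12.ne ?_
      simp only [Hi, bs, pth, Mx]
      omega
    · have := C.left_right vj1.1 vj2.1 c1 c2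
      omega
  · have c2 : T < j2 := by omega
    by_cases hb : β T = T
    · -- all coordinates are right of `T`
      have hpos : ∀ x, X x → T < crd T x ∧ ((∃ i, x = .a i) ∨ ∃ i, x = .b i) := by
        intro x hx
        have hv := hval _ hx
        have hTx := hT _ hx
        obtain ⟨y, hy, ha⟩ := hcl _ hx
        have hnt := ha.nontriv
        have e1 := C.pb.rel (crd T x) T
        have e2 := C.pb.le_self (crd T x)
        have e3 := C.pa.rel (crd T x) T
        have e4 := C.pa.le_self (crd T x)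
        cases x with
        | a i =>
          have e5 := Act.rel C.pa hv T
          have e6 := C.hI hv hTx
          simp only [crd] at *
          refine ⟨?_, Or.inl ⟨i, rfl⟩⟩
          by_contra hcon
          cases y <;> simp only [bs] at hnt <;> omega
        | b i =>
          have e5 := hv.1.rel C.pb T
          have e6 := C.hJ i hv.1 hv.2
          simp only [crd] at *
          refine ⟨?_, Or.inr ⟨i, rfl⟩⟩
          by_contra hcon
          cases y <;> simp only [bs] at hnt <;> omega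
        | t e => exact absurd rfl hTx
        | u z => exact absurd hx (hu z)
      have p0 := hpos _ m0
      have p1 := hpos _ m1
      have p2 := hpos _ m2
      have p3 := hpos _ m3
      have w0 := hval _ m0
      have w1 := hval _ m1
      have w2 := hval _ m2
      have w3 := hval _ m3
      -- rotate so that the last one is rightmost
      by_cases q3 : crd T x0 ≤ crd T x3 ∧ crd T x1 ≤ crd T x3 ∧ crd T x2 ≤ crd T x3
      · exact C.noW hb w0 w1 w2 w3 p0.2 p1.2 p2.2 p0.1 p1.1 p2.1 p3.1 q3.1 q3.2.1 q3.2.2 p3.2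
          h1 h2 h3 h4
      · by_cases q2 : crd T x0 ≤ crd T x2 ∧ crd T x1 ≤ crd T x2 ∧ crd T x3 ≤ crd T x2
        · exact C.noW hb w3 w0 w1 w2 p3.2 p0.2 p1.2 p3.1 p0.1 p1.1 p2.1 q2.2.2 q2.1 q2.2.1 p2.2
            h4 h1 h2 h3
        · by_cases q1 : crd T x0 ≤ crd T x1 ∧ crd T x2 ≤ crd T x1 ∧ crd T x3 ≤ crd T x1
          · exact C.noW hb w2 w3 w0 w1 p2.2 p3.2 p0.2 p2.1 p3.1 p0.1 p1.1 q1.2.1 q1.2.2 q1.1 p1.2
              h3 h4 h1 h2
          · exact C.noW hb w1 w2 w3 w0 p1.2 p2.2 p3.2 p1.1 p2.1 p3.1 p0.1 (by omega) (by omega)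
              (by omega) p0.2 h2 h3 h4 h1
    · refine C.twoB hNS X hval hu hT hcl hj2 hj1 hj12.ne' ?_
      have := C.pb.le_self T
      simp only [Hi, bs, pth, Mx]
      omega

/-- The support digraph is acyclic. -/
theorem Ctr.M6 (C : Ctr α β T) : Acyc α β T := by
  intro X hval hu hne hcl
  by_cases hNS : NonS α β
  · by_cases hT : ∃ x, X x ∧ crd T x = T
    · exact C.M6_T hNS X hval hu hT hcl
    · push Not at hT
      exact C.M6_noT hNS X hval hu hne hT hcl
  · obtain ⟨c, hc, hlt⟩ := C.exE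
    unfold NonS at hNS
    push Not at hNS
    obtain ⟨g1, g2⟩ := hNS
    have e1 := g2 c hc
    exact C.M6_S hc (by omega) (fun i hi h => g1 i c ⟨hi, h⟩ ⟨hc, hlt⟩) X hval hu hne hcl

end Pool.Agent.Work.MP_8ddad6_co
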