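import Pool.Agent.Work.MP_8ddad6_co.M6d
import Pool.Agent.Work.MP_8ddad6_co.ER
import Pool.Agent.Work.MP_8ddad6_co.EL

namespace Pool.Agent.Work.MP_8ddad6_co

open Finset

variable {α β : ℕ → ℕ} {T : ℕ}

/-- `σ` fails `β` at an active coordinate other than `T` -/
def isB (β : ℕ → ℕ) (T : ℕ) (σ : ℕ → ℕ) : Prop := ∃ j, Act β j ∧ j ≠ T ∧ σ j < β j

theorem Ctr.cover (C : Ctr α β T) (c : ℕ) {σ : ℕ → ℕ} (hσ : UPath σ) (hl : Lose α β σ) :
    ∃ v, Val α β T v ∧ (∀ k, σ k ≤ pth α β T v k) ∧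
      ((isB β T σ ∧ ∃ j, v = .b j) ∨ (¬ isB β T σ ∧ ∃ i, v = .a i ∧ (Act α c → σ c < α c → i = c))) := by
  have hDT := C.DT
  by_cases h : isB β T σ
  · obtain ⟨j, hj, hjT, hlt⟩ := h
    refine ⟨.b j, ⟨hj, hjT⟩, ?_, Or.inl ⟨⟨j, hj, hjT, hlt⟩, j, rfl⟩⟩
    intro k
    exact hσ.le_Mx (by omega) k
  · obtain ⟨⟨ka, hka⟩, kb, hkb⟩ := hl
    obtain ⟨j, hj, hjlt, -⟩ := exists_act C.pb C.cb hσ hkb
    have hjT : j = T := by
      by_contra hne
      exact h ⟨j, hj, hne, hjlt⟩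
    subst hjT
    obtain ⟨i, hi, hilt, -⟩ := exists_act C.pa C.ca hσ hka
    have key : ∀ i, Act α i → σ i < α i → ∀ k, σ k ≤ pth α β j (.a i) k := by
      intro i hi hlt k
      have h1 := hσ.le_Mx (i := i) (c := α i - 1) (by omega) k
      have h2 := hσ.le_Mx (i := j) (c := α j) (by omega) k
      simp only [pth]
      omega
    by_cases hc : Act α c ∧ σ c < α c
    · exact ⟨.a c, hc.1, key c hc.1 hc.2, Or.inr ⟨h, c, rfl, fun _ _ => rfl⟩⟩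
    · refine ⟨.a i, hi, key i hi hilt, Or.inr ⟨h, i, rfl, ?_⟩⟩
      intro h1 h2
      exact absurd ⟨h1, h2⟩ hc

/-- positive term extraction -/
theorem exists_pos_of_sum {ι : Type} [Fintype ι] {f : ι → ℝ} (h : 0 < ∑ s, f s) : ∃ s, 0 < f s := by
  by_contra hcon
  push Not at hcon
  exact absurd (Finset.sum_nonpos (fun s _ => hcon s)) (not_le.mpr h)

theorem exists_pos_of_sum_nonneg {ι : Type} [Fintype ι] {f : ι → ℝ} (h : 0 ≤ ∑ s, f s) {s0 : ι}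
    (h0 : f s0 < 0) : ∃ s, 0 < f s := by
  by_contra hcon
  push Not at hcon
  exact absurd (Finset.sum_neg' (fun s _ => hcon s) ⟨s0, mem_univ _, h0⟩) (not_lt.mpr h)

theorem hi_of_mul_pos {v : V} {k : ℕ} {m : ℝ} (hm : 0 ≤ m)
    (h : 0 < m * ((pth α β T v k : ℝ) - (bs α β v k : ℝ))) : 0 < m ∧ Hi α β T v k := by
  have h1 : 0 < m := by
    rcases hm.eq_or_lt with h0 | h0
    · rw [← h0] at h
      simp at h
    · exact h0
  refine ⟨h1, ?_⟩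
  have h2 : 0 < (pth α β T v k : ℝ) - (bs α β v k : ℝ) := (mul_pos_iff_of_pos_left h1).1 h
  unfold Hi
  have : (bs α β v k : ℝ) < (pth α β T v k : ℝ) := by linarith
  exact_mod_cast this

/-- certificate made of vertices -/
structure Fam (α β : ℕ → ℕ) (T : ℕ) {ι : Type} [Fintype ι] (φ : ι → V) (μ : ι → ℝ) (P Q : ℝ) :
    Prop where
  val : ∀ s, Val α β T (φ s)
  ab : ∀ s, (∃ i, φ s = .a i) ∨ ∃ j, φ s = .b j
  nn : ∀ s, 0 ≤ μ s
  Q0 : 0 ≤ Q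
  sum : ∑ s, μ s = P + Q
  pos : 0 < ∑ s, μ s
  cert : ∀ k, P * (α k : ℝ) + Q * (β k : ℝ) ≤ ∑ s, μ s * (pth α β T (φ s) k : ℝ)

/-- mass of the `β`-vertices -/
noncomputable def rm {ι : Type} [Fintype ι] (φ : ι → V) (μ : ι → ℝ) : ℝ :=
  ∑ s, μ s * (nb (φ s) : ℝ)

/-- surplus of a vertex over its base -/
noncomputable def dd (α β : ℕ → ℕ) (T : ℕ) (v : V) (k : ℕ) : ℝ :=
  (pth α β T v k : ℝ) - (bs α β v k : ℝ)

theorem bs_real (v : V) (k : ℕ) :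
    (bs α β v k : ℝ) = (1 - (nb v : ℝ)) * (α k : ℝ) + (nb v : ℝ) * (β k : ℝ) := by
  cases v <;> simp [bs, nb]

section
variable {ι : Type} [Fintype ι] {φ : ι → V} {μ : ι → ℝ} {P Q : ℝ}

theorem Fam.S_ge (F : Fam α β T φ μ P Q) (k : ℕ) :
    (Q - rm φ μ) * ((β k : ℝ) - (α k : ℝ)) ≤ ∑ s, μ s * dd α β T (φ s) k := by
  have h1 := F.cert k
  have h2 : ∑ s, μ s * dd α β T (φ s) k
      = ∑ s, μ s * (pth α β T (φ s) k : ℝ) - (∑ s, μ s) * (α k : ℝ)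
        - rm φ μ * ((β k : ℝ) - (α k : ℝ)) := by
    unfold rm dd
    rw [Finset.sum_mul, Finset.sum_mul, ← Finset.sum_sub_distrib, ← Finset.sum_sub_distrib]
    refine Finset.sum_congr rfl fun s _ => ?_
    rw [bs_real]
    ring
  rw [h2, F.sum]
  linarith

theorem Ctr.dd_crd (C : Ctr α β T) {v : V} (hv : Val α β T v) : dd α β T v (crd T v) = -1 := by
  have h := C.at_crd hv
  have h' : (pth α β T v (crd T v) : ℝ) + 1 = (bs α β v (crd T v) : ℝ) := by exact_mod_cast h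
  unfold dd
  linarith

theorem dd_pos_iff {v : V} {k : ℕ} : 0 < dd α β T v k ↔ Hi α β T v k := by
  unfold dd Hi
  rw [sub_pos]
  exact Nat.cast_lt

theorem Fam.hi_of_pos (F : Fam α β T φ μ P Q) {s : ι} {k : ℕ}
    (h : 0 < μ s * dd α β T (φ s) k) : 0 < μ s ∧ Hi α β T (φ s) k :=
  hi_of_mul_pos (F.nn s) h

/-- the support -/
def Sup (φ : ι → V) (μ : ι → ℝ) (v : V) : Prop := ∃ s, 0 < μ s ∧ φ s = v

theorem Fam.sup_val (F : Fam α β T φ μ P Q) {v : V} (h : Sup φ μ v) : Val α β T v := by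
  obtain ⟨s, -, rfl⟩ := h
  exact F.val s

theorem Fam.sup_nu (F : Fam α β T φ μ P Q) (z : ℕ) : ¬ Sup φ μ (.u z) := by
  rintro ⟨s, -, h⟩
  rcases F.ab s with ⟨i, hi⟩ | ⟨i, hi⟩ <;> rw [hi] at h <;> cases h

theorem Fam.sup_nt (F : Fam α β T φ μ P Q) (z : ℕ) : ¬ Sup φ μ (.t z) := by
  rintro ⟨s, -, h⟩
  rcases F.ab s with ⟨i, hi⟩ | ⟨i, hi⟩ <;> rw [hi] at h <;> cases h

theorem Fam.sup_ne (F : Fam α β T φ μ P Q) : ∃ v, Sup φ μ v := by
  obtain ⟨s, hs⟩ := exists_pos_of_sum F.pos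
  exact ⟨φ s, s, hs, rfl⟩

/-- if the total surplus at `k` is nonnegative, a supported vertex with coordinate `k` has a
predecessor -/
theorem Fam.pred (F : Fam α β T φ μ P Q) (C : Ctr α β T) {v : V} (hv : Sup φ μ v)
    (h : 0 ≤ ∑ s, μ s * dd α β T (φ s) (crd T v)) : ∃ w, Sup φ μ w ∧ Hi α β T w (crd T v) := by
  obtain ⟨s0, h0, rfl⟩ := hv
  have h1 : μ s0 * dd α β T (φ s0) (crd T (φ s0)) < 0 := by
    rw [C.dd_crd (F.val s0)]
    linarith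
  obtain ⟨s, hs⟩ := exists_pos_of_sum_nonneg h h1
  obtain ⟨h2, h3⟩ := F.hi_of_pos hs
  exact ⟨φ s, ⟨s, h2, rfl⟩, h3⟩

theorem Ctr.D_nonpos (C : Ctr α β T) {v : V} (hv : Val α β T v) (hT : crd T v ≠ T)
    (hu : ∀ z, v ≠ .u z) : β (crd T v) ≤ α (crd T v) := by
  cases v with
  | a i => exact C.hI hv hT
  | b j => exact C.hJ j hv.1 hv.2
  | t e => exact absurd rfl hT
  | u z => exact absurd rfl (hu z)

theorem Fam.eq_case (F : Fam α β T φ μ P Q) (C : Ctr α β T) (h : Q = rm φ μ) : False := by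
  refine C.M6 (Sup φ μ) (fun x hx => F.sup_val hx) F.sup_nu F.sup_ne ?_
  intro x hx
  refine F.pred C hx ?_
  have := F.S_ge (crd T x)
  rw [h, sub_self, zero_mul] at this
  exact this

theorem Fam.gt_nonS (F : Fam α β T φ μ P Q) (C : Ctr α β T) (hNS : NonS α β) (h : rm φ μ < Q) :
    False := by
  obtain ⟨e0, he0, hlt0⟩ := C.exE
  have hTpos : ∃ w, Sup φ μ w ∧ Hi α β T w T := by
    have h1 := F.S_ge T
    have h2 : (β T : ℝ) - (α T : ℝ) = 1 := by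
      have := C.DT
      rw [this]
      push_cast
      ring
    rw [h2, mul_one] at h1
    obtain ⟨s, hs⟩ := exists_pos_of_sum (lt_of_lt_of_le (sub_pos.mpr h) h1)
    obtain ⟨h3, h4⟩ := F.hi_of_pos hs
    exact ⟨φ s, ⟨s, h3, rfl⟩, h4⟩
  refine C.M6 (fun v => Sup φ μ v ∨ ∃ e, v = .t e ∧ Val α β T v) ?_ ?_ ⟨.t e0, Or.inr ⟨e0, rfl, he0, hlt0⟩⟩ ?_
  · rintro x (hx | ⟨e, rfl, hx⟩)
    · exact F.sup_val hx
    · exact hx
  · rintro z (hx | ⟨e, hx, -⟩)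
    · exact F.sup_nu z hx
    · cases hx
  · intro x hx
    by_cases hxT : crd T x = T
    · rw [hxT]
      obtain ⟨w, hw, hh⟩ := hTpos
      exact ⟨w, Or.inl hw, hh⟩
    · rcases hx with hx | ⟨e, rfl, -⟩
      · have hD := C.D_nonpos (F.sup_val hx) hxT (fun z hz => F.sup_nu z (hz ▸ hx))
        rcases hD.lt_or_eq with h1 | h1
        · obtain ⟨e, hve, hhe⟩ := C.nonS_hit hNS h1
          exact ⟨.t e, Or.inr ⟨e, rfl, hve⟩, hhe⟩
        · have h2 := F.S_ge (crd T x)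
          rw [h1, sub_self, mul_zero] at h2
          obtain ⟨w, hw, hh⟩ := F.pred C hx h2
          exact ⟨w, Or.inl hw, hh⟩
      · exact absurd rfl hxT

end

end Pool.Agent.Work.MP_8ddad6_co
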