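import Pool.Agent.Work.MP_8ddad6_co.Mass

namespace Pool.Agent.Work.MP_8ddad6_co

open Finset

variable {α β : ℕ → ℕ} {T : ℕ}

theorem Ctr.S_coord (C : Ctr α β T) {c : ℕ} (hDc : α c = β c + 1)
    (huniq : ∀ i, Act α i → β i < α i → i = c) {v : V} (hv : Val α β T v)
    (hu : ∀ z, v ≠ .u z) : crd T v = T ∨ crd T v = c ∨ α (crd T v) = β (crd T v) := by
  cases v with
  | a i =>
    by_cases hiT : i = T
    · exact Or.inl hiT
    · have h1 := C.hI hv hiT
      by_cases h2 : β i < α i
      · exact Or.inr (Or.inl (huniq i hv h2))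
      · exact Or.inr (Or.inr (by simp only [crd]; omega))
  | b j =>
    have h1 := C.hJ j hv.1 hv.2
    by_cases h2 : β j < α j
    · obtain ⟨i, hi, hlt, hadj⟩ := exists_act C.pa C.ca C.pb h2
      have hic := huniq i hi hlt
      subst hic
      have r1 := hv.1.rel C.pb i
      simp only [crd]
      omega
    · exact Or.inr (Or.inr (by simp only [crd]; omega))
  | t e => exact Or.inl rfl
  | u z => exact absurd rfl (hu z)

section
variable {ι : Type} [Fintype ι] {φ : ι → V} {μ : ι → ℝ} {P Q : ℝ}

/-- mass of a vertex -/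
noncomputable def vm (φ : ι → V) (μ : ι → ℝ) (v : V) : ℝ :=
  ∑ s, μ s * (if φ s = v then 1 else 0)

theorem Ctr.DT_real (C : Ctr α β T) : (β T : ℝ) - (α T : ℝ) = 1 := by
  have := C.DT
  rw [this]
  push_cast
  ring

theorem Fam.gt_S (F : Fam α β T φ μ P Q) (C : Ctr α β T) {c : ℕ} (hc : Act α c)
    (hDc : α c = β c + 1) (huniq : ∀ i, Act α i → β i < α i → i = c) (h : rm φ μ < Q)
    (hle : Q - rm φ μ ≤ vm φ μ (.a c)) : False := by
  have hcT : c ≠ T := by
    rintro rfl
    have := C.DT
    omega
  have hTpos : ∃ w, Sup φ μ w ∧ Hi α β T w T := by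
    have h1 := F.S_ge T
    rw [C.DT_real, mul_one] at h1
    obtain ⟨s, hs⟩ := exists_pos_of_sum (lt_of_lt_of_le (sub_pos.mpr h) h1)
    obtain ⟨h3, h4⟩ := F.hi_of_pos hs
    exact ⟨φ s, ⟨s, h3, rfl⟩, h4⟩
  have htc : Val α β T (.t c) := ⟨hc, by omega⟩
  refine C.M6 (fun v => (Sup φ μ v ∧ ¬ (v = .a c ∧ Q - rm φ μ = vm φ μ (.a c))) ∨ v = .t c) ?_ ?_
    ⟨.t c, Or.inr rfl⟩ ?_
  · rintro x (⟨hx, -⟩ | rfl)
    · exact F.sup_val hx
    · exact htc
  · rintro z (⟨hx, -⟩ | hx)
    · exact F.sup_nu z hx
    · cases hx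
  · intro x hx
    by_cases hxT : crd T x = T
    · rw [hxT]
      obtain ⟨w, hw, hh⟩ := hTpos
      refine ⟨w, Or.inl ⟨hw, ?_⟩, hh⟩
      rintro ⟨rfl, -⟩
      exact C.not_hi_a_T hh
    · rcases hx with ⟨hx, hxn⟩ | rfl
      · rcases C.S_coord hDc huniq (F.sup_val hx) (fun z hz => F.sup_nu z (hz ▸ hx)) with h1 | h1 | h1
        · exact absurd h1 hxT
        · -- coordinate `c`
          rw [h1]
          by_contra hcon
          push Not at hcon
          have hle2 : ∀ s, μ s * dd α β T (φ s) c ≤ -(μ s * (if φ s = .a c then 1 else 0)) := by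
            intro s
            by_cases hs : φ s = .a c
            · rw [hs]
              have := C.dd_crd (v := .a c) hc
              simp only [crd] at this
              rw [this]
              simp
            · rw [if_neg hs, mul_zero, neg_zero]
              by_contra hp
              push Not at hp
              obtain ⟨h3, h4⟩ := F.hi_of_pos hp
              exact hcon (φ s) (Or.inl ⟨⟨s, h3, rfl⟩, fun h5 => absurd h5 hs⟩) h4
          have h2 := F.S_ge c
          have h3 : (β c : ℝ) - (α c : ℝ) = -1 := by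
            rw [hDc]
            push_cast
            ring
          rw [h3] at h2
          have h4 : ∑ s, μ s * dd α β T (φ s) c ≤ -vm φ μ (.a c) := by
            unfold vm
            rw [← Finset.sum_neg_distrib]
            exact Finset.sum_le_sum fun s _ => hle2 s
          by_cases hxa : x = .a c
          · have h5 : Q - rm φ μ ≠ vm φ μ (.a c) := fun h5 => hxn ⟨hxa, h5⟩
            have h6 := lt_of_le_of_ne hle h5
            linarith
          · obtain ⟨s0, hs0, rfl⟩ := hx
            have h5 : ∑ s, μ s * dd α β T (φ s) c < -vm φ μ (.a c) := by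
              unfold vm
              rw [← Finset.sum_neg_distrib]
              refine Finset.sum_lt_sum (fun s _ => hle2 s) ⟨s0, mem_univ _, ?_⟩
              rw [if_neg hxa]
              have := C.dd_crd (F.val s0)
              rw [h1] at this
              rw [this]
              linarith
            linarith
        · have h2 := F.S_ge (crd T x)
          rw [h1, sub_self, mul_zero] at h2
          obtain ⟨w, hw, hh⟩ := F.pred C hx h2
          by_cases hwf : w = .a c ∧ Q - rm φ μ = vm φ μ (.a c)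
          · refine ⟨.t c, Or.inr rfl, ?_⟩
            obtain ⟨rfl, -⟩ := hwf
            exact hi_t_of_hi_a h1 hh
          · exact ⟨w, Or.inl ⟨hw, hwf⟩, hh⟩
      · exact absurd rfl hxT

/-- modified surplus -/
noncomputable def tv (α β : ℕ → ℕ) (T : ℕ) (lam : ℝ) (k : ℕ) : V → ℝ
  | .a i => if i = T then 0 else dd α β T (.a i) k
  | .b j => lam * (vv α β T j k : ℝ) + (1 - lam) * dd α β T (.b j) k
  | .t _ => 0
  | .u _ => 0

theorem vv_eq (j k : ℕ) : (vv α β T j k : ℝ)
    = dd α β T (.a T) k + dd α β T (.b j) k + ((β k : ℝ) - (α k : ℝ)) := by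
  have h : min (Mx T (α T - 1) k) (Mx T (α T) k) = Mx T (α T - 1) k := by
    simp only [Mx]
    omega
  simp only [vv, dd, pth, bs, h]
  push_cast
  ring

theorem Fam.lt_case (F : Fam α β T φ μ P Q) (C : Ctr α β T) (h : Q < rm φ μ) : False := by
  have hDT := C.DT
  have hS : ∀ k, β k ≤ α k → 0 ≤ ∑ s, μ s * dd α β T (φ s) k := by
    intro k hk
    have h1 := F.S_ge k
    have h2 : (β k : ℝ) ≤ (α k : ℝ) := by exact_mod_cast hk
    nlinarith
  have hpred : ∀ v, Sup φ μ v → crd T v ≠ T → ∃ w, Sup φ μ w ∧ Hi α β T w (crd T v) := by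
    intro v hv hvT
    exact F.pred C hv (hS _ (C.D_nonpos (F.sup_val hv) hvT (fun z hz => F.sup_nu z (hz ▸ hv))))
  have hAB : (∃ v, Sup φ μ v ∧ crd T v = T) ∧ ¬ ∃ w, Sup φ μ w ∧ Hi α β T w T := by
    by_contra hcon
    refine C.M6 (Sup φ μ) (fun x hx => F.sup_val hx) F.sup_nu F.sup_ne ?_
    intro x hx
    by_cases hxT : crd T x = T
    · rw [hxT]
      by_contra h2
      exact hcon ⟨⟨x, hx, hxT⟩, h2⟩
    · exact hpred x hx hxT
  obtain ⟨⟨vT, hvT, hvTc⟩, hnoT⟩ := hAB
  have hvTa : Sup φ μ (.a T) := by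
    cases vT with
    | a i => simp only [crd] at hvTc; rwa [hvTc] at hvT
    | b j => exact absurd hvTc (F.sup_val hvT).2
    | t e => exact absurd hvT (F.sup_nt e)
    | u z => exact absurd hvT (F.sup_nu z)
  have hTa : Act α T := F.sup_val hvTa
  obtain ⟨sT, hsT, hφT⟩ := hvTa
  set pT := vm φ μ (.a T) with hpT
  have hpTpos : 0 < pT := by
    rw [hpT]
    unfold vm
    refine Finset.sum_pos' (fun s _ => ?_) ⟨sT, mem_univ _, ?_⟩
    · have := F.nn s
      split_ifs <;> simp [this]
    · rw [if_pos hφT]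
      linarith
  have hTle : Q - rm φ μ ≤ -pT := by
    have h1 := F.S_ge T
    rw [C.DT_real, mul_one] at h1
    refine h1.trans ?_
    rw [hpT]
    unfold vm
    rw [← Finset.sum_neg_distrib]
    refine Finset.sum_le_sum fun s _ => ?_
    by_cases hs : φ s = .a T
    · rw [hs]
      have := C.dd_crd (v := .a T) hTa
      simp only [crd] at this
      rw [this]
      simp
    · rw [if_neg hs, mul_zero, neg_zero]
      by_contra hp
      push Not at hp
      obtain ⟨h3, h4⟩ := F.hi_of_pos hp
      exact hnoT ⟨φ s, ⟨s, h3, rfl⟩, h4⟩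
  have hr : 0 < rm φ μ := by
    have := F.Q0
    linarith
  have hpTr : pT ≤ rm φ μ := by
    have := F.Q0
    linarith
  set lam := pT / rm φ μ with hlam
  have hlam0 : 0 < lam := div_pos hpTpos hr
  have hlam1 : lam ≤ 1 := (div_le_one hr).mpr hpTr
  have hlamr : rm φ μ * lam = pT := by
    rw [hlam]
    field_simp
  -- total modified surplus
  have htot : ∀ k, ∑ s, μ s * tv α β T lam k (φ s)
      = ∑ s, μ s * dd α β T (φ s) k + pT * ((β k : ℝ) - (α k : ℝ)) := by
    intro k
    have e1 : ∀ s, μ s * tv α β T lam k (φ s) = μ s * dd α β T (φ s) k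
        - (μ s * (if φ s = .a T then 1 else 0)) * dd α β T (.a T) k
        + (μ s * (nb (φ s) : ℝ)) * (lam * (dd α β T (.a T) k + ((β k : ℝ) - (α k : ℝ)))) := by
      intro s
      rcases F.ab s with ⟨i, hi⟩ | ⟨j, hj⟩
      · rw [hi]
        by_cases hiT : i = T
        · subst hiT
          simp [tv, nb]
        · have : (V.a i : V) ≠ .a T := fun h => hiT (by injection h)
          simp [tv, nb, hiT]
      · rw [hj]
        have : (V.b j : V) ≠ .a T := fun h => by cases h
        simp only [tv, nb, if_neg this, vv_eq]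
        push_cast
        ring
    rw [Finset.sum_congr rfl fun s _ => e1 s, Finset.sum_add_distrib, Finset.sum_sub_distrib,
      ← Finset.sum_mul, ← Finset.sum_mul]
    change _ - vm φ μ (.a T) * _ + rm φ μ * _ = _
    rw [← hpT]
    linear_combination (dd α β T (.a T) k + ((β k : ℝ) - (α k : ℝ))) * hlamr
  have htot0 : ∀ k, β k ≤ α k → 0 ≤ ∑ s, μ s * tv α β T lam k (φ s) := by
    intro k hk
    rw [htot k]
    have h1 := F.S_ge k
    have h2 : (β k : ℝ) ≤ (α k : ℝ) := by exact_mod_cast hk
    nlinarith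
  set SA : ℕ → Prop := fun i => i ≠ T ∧ Sup φ μ (.a i) with hSAdef
  set SB : ℕ → Prop := fun j => Sup φ μ (.b j) with hSBdef
  have hg : ¬ (pT < rm φ μ) → lam = 1 := by
    intro hng
    have : pT = rm φ μ := le_antisymm hpTr (not_lt.mp hng)
    rw [hlam, this, div_self hr.ne']
  -- sign of `vv` where `D > 0`
  have hneg : ∀ j, SB j → ∀ k, vv α β T j k < 0 → β k ≤ α k := by
    intro j hj k hk
    by_contra hcon
    push Not at hcon
    have v := F.sup_val hj
    have o2 := C.off (x := .b j) v (k := k) (by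
      simp only [crd]
      rintro rfl
      have := C.hJ k v.1 v.2
      omega)
    simp only [bs, pth] at o2
    by_cases hkT : k = T
    · subst hkT
      have r := hTa.pos
      have r2 := C.pa.le_self k
      simp only [vv, Mx] at hk o2
      omega
    · have o1 := C.off (x := .a T) hTa (k := k) hkT
      simp only [bs, pth] at o1
      simp only [vv] at hk
      omega
  have KC : ∀ k, ((SA k) ∨ (pT < rm φ μ ∧ SB k) ∨ (∃ j, SB j ∧ vv α β T j k < 0)) →
      ((∃ i, SA i ∧ Hi α β T (.a i) k) ∨ (pT < rm φ μ ∧ ∃ j, SB j ∧ Hi α β T (.b j) k) ∨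
        (∃ j, SB j ∧ 0 < vv α β T j k)) := by
    intro k hk
    have hD : β k ≤ α k := by
      rcases hk with hk | ⟨-, hk⟩ | ⟨j, hj, hk⟩
      · exact C.hI (F.sup_val hk.2) hk.1
      · exact C.hJ k (F.sup_val hk).1 (F.sup_val hk).2
      · exact hneg j hj k hk
    by_contra hcon
    push Not at hcon
    obtain ⟨c1, c2, c3⟩ := hcon
    have hb : ∀ s j, 0 < μ s → φ s = .b j → (1 - lam) * dd α β T (.b j) k ≤ 0 := by
      intro s j hs hj
      by_cases hgg : pT < rm φ μ
      · have : ¬ Hi α β T (.b j) k := c2 hgg j ⟨s, hs, hj⟩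
        rw [← dd_pos_iff, not_lt] at this
        exact mul_nonpos_of_nonneg_of_nonpos (by linarith) this
      · rw [hg hgg]
        simp
    have hv : ∀ s j, 0 < μ s → φ s = .b j → lam * (vv α β T j k : ℝ) ≤ 0 := by
      intro s j hs hj
      have : vv α β T j k ≤ 0 := c3 j ⟨s, hs, hj⟩
      have : (vv α β T j k : ℝ) ≤ 0 := by exact_mod_cast this
      exact mul_nonpos_of_nonneg_of_nonpos hlam0.le this
    have hall : ∀ s, 0 < μ s → tv α β T lam k (φ s) ≤ 0 := by
      intro s hs
      rcases F.ab s with ⟨i, hi⟩ | ⟨j, hj⟩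
      · rw [hi]
        by_cases hiT : i = T
        · simp [tv, hiT]
        · simp only [tv, if_neg hiT]
          have : ¬ Hi α β T (.a i) k := c1 i ⟨hiT, s, hs, hi⟩
          rw [← dd_pos_iff, not_lt] at this
          exact this
      · rw [hj]
        simp only [tv]
        have := hb s j hs hj
        have := hv s j hs hj
        linarith
    have hstrict : ∃ s, 0 < μ s ∧ tv α β T lam k (φ s) < 0 := by
      rcases hk with ⟨hkT, s, hs, hφ⟩ | ⟨hgg, s, hs, hφ⟩ | ⟨j, ⟨s, hs, hφ⟩, hk⟩
      · refine ⟨s, hs, ?_⟩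
        rw [hφ]
        simp only [tv, if_neg hkT]
        have := C.dd_crd (v := .a k) (hφ ▸ F.val s)
        simp only [crd] at this
        linarith
      · refine ⟨s, hs, ?_⟩
        have h1 := hv s k hs hφ
        rw [hφ]
        simp only [tv]
        have := C.dd_crd (v := .b k) (hφ ▸ F.val s)
        simp only [crd] at this
        rw [this]
        have : lam < 1 := (div_lt_one hr).mpr hgg
        linarith
      · refine ⟨s, hs, ?_⟩
        have h1 := hb s j hs hφ
        rw [hφ]
        simp only [tv]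
        have : (vv α β T j k : ℝ) < 0 := by exact_mod_cast hk
        have := mul_neg_of_pos_of_neg hlam0 this
        linarith
    obtain ⟨s0, hs0, hlt0⟩ := hstrict
    have : ∑ s, μ s * tv α β T lam k (φ s) < 0 := by
      refine Finset.sum_neg' (fun s _ => ?_) ⟨s0, mem_univ _, mul_neg_of_pos_of_neg hs0 hlt0⟩
      rcases (F.nn s).eq_or_lt with h0 | h0
      · rw [← h0, zero_mul]
      · exact mul_nonpos_of_nonneg_of_nonpos h0.le (hall s h0)
    exact absurd (htot0 k hD) (not_le.mpr this)
  have hSBne : ∃ j, SB j := by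
    obtain ⟨s, hs⟩ := exists_pos_of_sum (f := fun s => μ s * (nb (φ s) : ℝ)) hr
    rcases F.ab s with ⟨i, hi⟩ | ⟨j, hj⟩
    · rw [hi] at hs
      simp [nb] at hs
    · refine ⟨j, s, ?_, hj⟩
      rw [hj] at hs
      simpa [nb] using hs
  have hSBT : ∀ j, SB j → ¬ Hi α β T (.b j) T := fun j hj hh => hnoT ⟨_, hj, hh⟩
  have hntA : ∀ i, SA i → β i < i := by
    intro i hi
    obtain ⟨w, hw, hh⟩ := hpred _ hi.2 hi.1
    have h1 := hh.nontriv
    have h2 := C.hI (F.sup_val hi.2) hi.1
    simp only [crd] at h1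
    cases w <;> simp only [bs] at h1 <;> omega
  have hntB : ∀ j, SB j → β j < j := by
    intro j hj
    obtain ⟨w, hw, hh⟩ := hpred _ hj (F.sup_val hj).2
    have h1 := hh.nontriv
    have h2 := C.hJ j (F.sup_val hj).1 (F.sup_val hj).2
    simp only [crd] at h1
    cases w <;> simp only [bs] at h1 <;> omega
  by_cases hL : ∃ j, SB j ∧ j < T
  · obtain ⟨j, hj, hjT⟩ := hL
    have vj := F.sup_val hj
    have hj0 := hntB j hj
    have hlastB : ∀ i, Act β i → i ≤ T := by
      intro i hi
      by_contra hcon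
      push Not at hcon
      have := C.left_right vj.1 hi hjT hcon
      omega
    have r1 := vj.1.rel C.pb T
    have r2 := C.actT.rel C.pb j
    have hj2 : T + β j = j + β T + 1 := by
      have h1 := hSBT j hj
      simp only [Hi, bs, pth, Mx] at h1
      omega
    have hSB1 : ∀ j', SB j' → j' = j := by
      intro j' hj'
      have v' := F.sup_val hj'
      have h1 := hSBT j' hj'
      have h2 := hlastB j' v'.1
      have h3 := v'.2
      have r3 := v'.1.rel C.pb j
      have r4 := vj.1.rel C.pb j'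
      have r5 := v'.1.rel C.pb T
      simp only [Hi, bs, pth, Mx] at h1
      omega
    have hja : α j < j := by
      obtain ⟨w, hw, hh⟩ := hpred _ hj vj.2
      simp only [crd] at hh
      have h1 := hh.nontriv
      cases w with
      | a i => exact h1
      | b j' =>
        have := hSB1 j' hw
        subst this
        exact absurd hh (C.not_self (x := .b j') vj)
      | t e => exact absurd hw (F.sup_nt e)
      | u z => exact absurd hw (F.sup_nu z)
    have hlastA : ∀ i, Act α i → i ≤ T := by
      intro i hi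
      by_contra hcon
      push Not at hcon
      have q1 := hi.rel C.pa j
      have q2 := hi.rel C.pa T
      have q3 := hTa.rel C.pa j
      have q4 := hTa.rel C.pa i
      have q5 := C.actT.rel C.pb i
      refine C.no2cyc (x := .b j) (y := .a i) vj hi ?_ ?_
      · simp only [Hi, bs, pth, Mx, crd]
        omega
      · simp only [Hi, bs, pth, Mx, crd]
        omega
    refine elimL C C.M6 hTa j vj.1 hjT hj0 hja hj2 hlastA hlastB SA (pT < rm φ μ) ?_ ?_
    · intro i hi
      refine ⟨F.sup_val hi.2, lt_of_le_of_ne (hlastA i (F.sup_val hi.2)) hi.1⟩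
    · intro k hk
      have := KC k (by
        rcases hk with hk | ⟨hk1, rfl⟩ | hk
        · exact Or.inl hk
        · exact Or.inr (Or.inl ⟨hk1, hj⟩)
        · exact Or.inr (Or.inr ⟨j, hj, hk⟩))
      rcases this with h1 | ⟨h1, j', hj', h2⟩ | ⟨j', hj', h2⟩
      · exact Or.inl h1
      · rw [hSB1 j' hj'] at h2
        exact Or.inr (Or.inl ⟨h1, h2⟩)
      · rw [hSB1 j' hj'] at h2
        exact Or.inr (Or.inr h2)
  · push Not at hL
    have hSBpos : ∀ j, SB j → Act β j ∧ T < j ∧ (β T = T ∨ β j = β T + 1) := by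
      intro j hj
      have v := F.sup_val hj
      have h1 := hL j hj
      have h2 := v.2
      have h3 := hSBT j hj
      have r1 := v.1.rel C.pb T
      have r2 := C.pb.le_self T
      refine ⟨v.1, by omega, ?_⟩
      simp only [Hi, bs, pth, Mx] at h3
      omega
    refine elimR C C.M6 hTa SA SB (pT < rm φ μ) ?_ hSBpos hSBne KC
    intro i hi
    refine ⟨F.sup_val hi.2, ?_⟩
    by_contra hcon
    have hiT : i ≠ T := hi.1
    have hiltT : i < T := by omega
    have hTle' := C.pa.le_self T
    have hi' : Act α i := F.sup_val hi.2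
    obtain ⟨j, hj⟩ := hSBne
    obtain ⟨j1, j2, -⟩ := hSBpos j hj
    have hni := hntA i hi
    have r1 := hi'.rel C.pa T
    have r2 := hi'.rel C.pa j
    have r3 := hTa.rel C.pa i
    have r4 := hTa.rel C.pa j
    have r5 := C.actT.rel C.pb i
    have r6 := C.actT.rel C.pb j
    have r7 := j1.rel C.pb T
    have r8 := j1.rel C.pb i
    have hle := C.hI hi' hiT
    refine C.no2cyc (x := .b j) (y := .a i) ⟨j1, by omega⟩ hi' ?_ ?_
    · simp only [Hi, bs, pth, Mx, crd]
      omega
    · simp only [Hi, bs, pth, Mx, crd]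
      omega

end

end Pool.Agent.Work.MP_8ddad6_co
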